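import Mathlib

/-!
# GE-17 Limit: the recursion goes down to zero

Let `p` be a monotone property of numbers, true for `1`, such that `p δ` implies
`p (δ (1 - exp (-2 lam / δ) / 2))` for `0 < δ ≤ 1`. Then `p δ` for all `δ > 0`.
Proof. Let `s` be the infimum of `{δ ∈ (0, 1] | p δ}`. If `s > 0` put `κ = exp (-2 lam / s) / 2 > 0`
and take `δ` in the set with `δ < s / (1 - κ)`. As `δ ≥ s`, `exp (-2 lam / δ) / 2 ≥ κ`, so
`δ (1 - exp (-2 lam / δ) / 2) ≤ δ (1 - κ) < s` satisfies `p`, is positive and `≤ 1`: contradiction. So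
`s = 0`, and for every `δ > 0` there is `δ' < δ` with `p δ'`.
-/

set_option autoImplicit false

namespace Pool.Agent.Helper69.GE

theorem limit {p : ℝ → Prop} {lam : ℝ} (hlam : 0 < lam) (hmono : ∀ δ δ', δ ≤ δ' → p δ → p δ')
    (h1 : p 1)
    (hstep : ∀ δ, 0 < δ → δ ≤ 1 → p δ → p (δ * (1 - Real.exp (-2 * lam / δ) / 2))) (δ : ℝ)
    (hδ : 0 < δ) : p δ := by
  let S : Set ℝ := {x | 0 < x ∧ x ≤ 1 ∧ p x}
  have hne : S.Nonempty := ⟨1, one_pos, le_refl 1, h1⟩
  have hbd : BddBelow S := ⟨0, fun x hx => hx.1.le⟩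
  have hs0 : 0 ≤ sInf S := le_csInf hne fun x hx => hx.1.le
  have hs : sInf S = 0 := by
    by_contra hcon
    have hs : 0 < sInf S := lt_of_le_of_ne hs0 (Ne.symm hcon)
    have hκ0 : 0 < Real.exp (-2 * lam / sInf S) / 2 := by positivity
    have hexp : ∀ x, 0 < x → Real.exp (-2 * lam / x) < 1 := by
      intro x hx
      rw [Real.exp_lt_one_iff]
      exact div_neg_of_neg_of_pos (by linarith) hx
    have hκ1 : Real.exp (-2 * lam / sInf S) / 2 < 1 := by
      have := hexp _ hs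
      linarith
    have hlt : sInf S < sInf S / (1 - Real.exp (-2 * lam / sInf S) / 2) := by
      rw [lt_div_iff₀ (by linarith)]
      nlinarith
    obtain ⟨x, hx, hxs⟩ := exists_lt_of_csInf_lt hne hlt
    have hsx : sInf S ≤ x := csInf_le hbd hx
    have hx0 := hx.1
    have he : Real.exp (-2 * lam / sInf S) ≤ Real.exp (-2 * lam / x) := by
      apply Real.exp_le_exp.2
      rw [div_le_div_iff₀ hs hx0]
      nlinarith
    have hx1 := hexp x hx0
    rw [lt_div_iff₀ (by linarith)] at hxs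
    have hy : x * (1 - Real.exp (-2 * lam / x) / 2) ∈ S := by
      refine ⟨mul_pos hx0 (by linarith), ?_, hstep x hx0 hx.2.1 hx.2.2⟩
      have h2 : x * (1 - Real.exp (-2 * lam / x) / 2) ≤ x * 1 :=
        mul_le_mul_of_nonneg_left (by linarith [Real.exp_pos (-2 * lam / x)]) hx0.le
      linarith [hx.2.1]
    have h3 : sInf S ≤ x * (1 - Real.exp (-2 * lam / x) / 2) := csInf_le hbd hy
    have h4 : x * (1 - Real.exp (-2 * lam / x) / 2) ≤ x * (1 - Real.exp (-2 * lam / sInf S) / 2) :=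
      mul_le_mul_of_nonneg_left (by linarith) hx0.le
    linarith
  obtain ⟨x, hx, hxd⟩ := exists_lt_of_csInf_lt hne (show sInf S < δ by rw [hs]; exact hδ)
  exact hmono x δ hxd.le hx.2.2

end Pool.Agent.Helper69.GE
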