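import Pool.Agent.Helper69.GE.Step
import Pool.Agent.Helper69.GE.Limit

/-!
# GE-24 AllP: holes of arbitrarily small density are sufficient

`P D C 1` holds with `m = 0`, `B = C + 1` (all of `ℝ` is a hole: `H = univ`; a block of length `C + 1`
contains an element of `S`). `P` is monotone in `δ`. With `step` and `limit`: `P D C δ` for all
`δ > 0`.
-/

set_option autoImplicit false

open MeasureTheory Set

namespace Pool.Agent.Helper69.GE

theorem p_mono {D C : ℕ} {δ δ' : ℝ} (h : δ ≤ δ') (hp : P D C δ) : P D C δ' := by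
  intro R hR
  obtain ⟨m, B, hk⟩ := hp R hR
  refine ⟨m, B, fun S u hu k hb => ?_⟩
  obtain ⟨H, h1, h2, h3, h4⟩ := hk S u hu k hb
  exact ⟨H, h1, h2, h3.trans (ENNReal.ofReal_le_ofReal h), h4⟩

theorem p_one (D C : ℕ) : P D C 1 := by
  intro R hR
  refine ⟨0, C + 1, fun S u hu k hb => ⟨univ, ?_, ?_, ?_, ?_⟩⟩
  · intro z; simp
  · intro y z _; simp
  · rw [univ_inter, Real.volume_Ico]; simp
  · intro x r hr
    obtain ⟨n, hn, h1, h2⟩ := hb k le_rfl (by omega)
    exact ⟨n, hn, h1, by omega, fun z _ => mem_univ z⟩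

theorem all_p (D C : ℕ) (δ : ℝ) (hδ : 0 < δ) : P D C δ := by
  obtain ⟨lam, hlam, hs⟩ := step D C
  exact limit (p := P D C) hlam (fun _ _ h hp => p_mono h hp) (p_one D C) hs δ hδ

end Pool.Agent.Helper69.GE
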