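import Pool.Agent.Helper69.GE.Defs

/-!
# GE-01 Basic: the sets `Fr ω c ψ`, thickenings, interiors

* `fr_volume`: on the real line the components of `Fr ω c ψ` (for `ψ < 1`) are the intervals
  `[(j - c) / ω, (j + ψ - c) / ω]`, `j` an integer. In an interval of length exactly `1 / ω` the map
  `z ↦ ω z + c` runs through an interval of length one, `fract` is a bijection onto `[0, 1)`, so the
  measure is `ψ / ω` (for `ψ ≥ 1` it is at most `1 / ω ≤ ψ / ω`). This is `fr_ud`.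
* `ud_length`: cover `[a, a + ℓ)` by `⌈ℓ / τ⌉` intervals of length `τ`.
* `fr_thick`: if `fract (ω z + c) ≤ ψ` and `|z - z'| ≤ s` then, with `j = ⌊ω z + c⌋`,
  `j ≤ ω z' + (c + ω s) ≤ j + ψ + 2 ω s`, so `fract (ω z' + (c + ω s)) ≤ ψ + 2 ω s` (if
  `ω z' + (c + ω s) - j < 1` it is the fractional part, otherwise `ψ + 2 ω s ≥ 1`).
* `th_fr`, `th_compl_fr`: the same for one sided thickenings.
-/

set_option autoImplicit false

open MeasureTheory Set

namespace Pool.Agent.Helper69.GE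

private theorem fract_le_sub {y : ℝ} {j : ℤ} (h : (j : ℝ) ≤ y) : Int.fract y ≤ y - j := by
  have h1 : (j : ℝ) ≤ (⌊y⌋ : ℝ) := by exact_mod_cast Int.le_floor.2 h
  have h2 := Int.self_sub_floor y
  linarith

theorem fr_measurable (ω c ψ : ℝ) : MeasurableSet (Fr ω c ψ) := by
  have h : Measurable fun z : ℝ => Int.fract (ω * z + c) :=
    measurable_fract.comp ((measurable_const_mul ω).add_const c)
  exact measurableSet_le h measurable_const

theorem fr_ud {ω : ℝ} (hω : 0 < ω) (c : ℝ) {ψ : ℝ} (hψ : 0 ≤ ψ) : UD (Fr ω c ψ) (1 / ω) ψ := by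
  intro a
  obtain ⟨n, hn⟩ : ∃ n : ℤ, n = ⌊ω * a + c⌋ := ⟨_, rfl⟩
  obtain ⟨β, hβ⟩ : ∃ β : ℝ, β = Int.fract (ω * a + c) := ⟨_, rfl⟩
  have hsum : ω * a + c = n + β := by
    rw [hn, hβ]
    exact (Int.floor_add_fract _).symm
  have hβ0 : 0 ≤ β := by rw [hβ]; exact Int.fract_nonneg _
  have hβ1 : β < 1 := by rw [hβ]; exact Int.fract_lt_one _
  have hsub : Fr ω c ψ ∩ Ico a (a + 1 / ω) ⊆ Icc a ((n + ψ - c) / ω) ∪
      Icc ((n + 1 - c) / ω) ((n + 1 - c + min ψ β) / ω) := by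
    rintro z ⟨hz, hz1, hz2⟩
    change Int.fract (ω * z + c) ≤ ψ at hz
    have h1 : ω * a ≤ ω * z := mul_le_mul_of_nonneg_left hz1 hω.le
    have h2 : ω * z < ω * a + 1 := by
      have h3 := mul_lt_mul_of_pos_left hz2 hω
      have h4 : ω * (a + 1 / ω) = ω * a + 1 := by
        field_simp
      rwa [h4] at h3
    by_cases h5 : ω * z + c < n + 1
    · left
      refine ⟨hz1, ?_⟩
      rw [le_div_iff₀ hω]
      have h6 : ⌊ω * z + c⌋ = n := by
        rw [Int.floor_eq_iff]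
        exact ⟨by linarith, h5⟩
      have h7 := Int.self_sub_floor (ω * z + c)
      rw [h6] at h7
      linarith
    · right
      push Not at h5
      have h6 : ⌊ω * z + c⌋ = n + 1 := by
        rw [Int.floor_eq_iff]
        push_cast
        exact ⟨h5, by linarith⟩
      have h7 := Int.self_sub_floor (ω * z + c)
      rw [h6] at h7
      push_cast at h7
      refine ⟨?_, ?_⟩
      · rw [div_le_iff₀ hω]
        linarith
      · rw [le_div_iff₀ hω]
        have h8 : ω * z + c - (n + 1) ≤ min ψ β := le_min (by linarith) (by linarith)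
        linarith
  refine (measure_mono hsub).trans ?_
  refine (measure_union_le _ _).trans ?_
  rw [Real.volume_Icc, Real.volume_Icc]
  have e1 : (n + ψ - c) / ω - a = (ψ - β) / ω := by
    field_simp
    linarith
  have e2 : (n + 1 - c + min ψ β) / ω - (n + 1 - c) / ω = min ψ β / ω := by
    rw [← sub_div]
    congr 1
    ring
  rw [e1, e2]
  rcases le_total ψ β with h | h
  · rw [min_eq_left h, ENNReal.ofReal_of_nonpos (div_nonpos_of_nonpos_of_nonneg (by linarith) hω.le),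
      zero_add]
    apply ENNReal.ofReal_le_ofReal
    rw [mul_one_div]
  · rw [min_eq_right h, ← ENNReal.ofReal_add (div_nonneg (by linarith) hω.le)
      (div_nonneg hβ0 hω.le)]
    apply ENNReal.ofReal_le_ofReal
    rw [← add_div, sub_add_cancel, mul_one_div]

theorem ud_length {G : Set ℝ} {τ σ : ℝ} (hτ : 0 < τ) (hσ : 0 ≤ σ) (h : UD G τ σ) (a : ℝ) {l : ℝ}
    (hl : 0 ≤ l) : volume (G ∩ Ico a (a + l)) ≤ ENNReal.ofReal (σ * (l + τ)) := by
  have key : ∀ n : ℕ, volume (G ∩ Ico a (a + n * τ)) ≤ ENNReal.ofReal (σ * (n * τ)) := by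
    intro n
    induction n with
    | zero =>
      simp
    | succ n ih =>
      have hsub : G ∩ Ico a (a + (n + 1 : ℕ) * τ) ⊆
          (G ∩ Ico a (a + n * τ)) ∪ (G ∩ Ico (a + n * τ) (a + n * τ + τ)) := by
        rintro z ⟨hz, hz1, hz2⟩
        by_cases h1 : z < a + n * τ
        · exact Or.inl ⟨hz, hz1, h1⟩
        · refine Or.inr ⟨hz, not_lt.1 h1, ?_⟩
          push_cast at hz2
          linarith
      refine (measure_mono hsub).trans ((measure_union_le _ _).trans ?_)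
      refine (add_le_add ih (h _)).trans ?_
      rw [← ENNReal.ofReal_add (by positivity) (by positivity)]
      apply ENNReal.ofReal_le_ofReal
      push_cast
      linarith
  have h1 : l ≤ (⌈l / τ⌉₊ : ℝ) * τ := by
    have h2 := Nat.le_ceil (l / τ)
    rwa [div_le_iff₀ hτ] at h2
  have h3 : (⌈l / τ⌉₊ : ℝ) * τ ≤ l + τ := by
    have h4 := (Nat.ceil_lt_add_one (div_nonneg hl hτ.le)).le
    have h5 := mul_le_mul_of_nonneg_right h4 hτ.le
    rwa [add_mul, div_mul_cancel₀ _ hτ.ne', one_mul] at h5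
  refine (measure_mono ?_).trans ((key ⌈l / τ⌉₊).trans ?_)
  · exact inter_subset_inter_right _ (Ico_subset_Ico_right (by linarith))
  · exact ENNReal.ofReal_le_ofReal (mul_le_mul_of_nonneg_left h3 hσ)

theorem fr_length {ω : ℝ} (hω : 0 < ω) (c : ℝ) {ψ : ℝ} (hψ : 0 ≤ ψ) (a : ℝ) {l : ℝ}
    (hl : 0 ≤ l) : volume (Fr ω c ψ ∩ Ico a (a + l)) ≤ ENNReal.ofReal (ψ * (l + 1 / ω)) :=
  ud_length (by positivity) hψ (fr_ud hω c hψ) a hl

/-- One full period and a remainder `t`. -/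
theorem fr_period_add {ω : ℝ} (hω : 0 < ω) (c : ℝ) {ψ : ℝ} (hψ : 0 ≤ ψ) (a : ℝ) {t : ℝ}
    (ht : 0 ≤ t) :
    volume (Fr ω c ψ ∩ Ico a (a + 1 / ω + t)) ≤ ENNReal.ofReal (ψ / ω + t) := by
  have hsub : Fr ω c ψ ∩ Ico a (a + 1 / ω + t) ⊆
      (Fr ω c ψ ∩ Ico a (a + 1 / ω)) ∪ Ico (a + 1 / ω) (a + 1 / ω + t) := by
    rintro z ⟨hz, hz1, hz2⟩
    by_cases h1 : z < a + 1 / ω
    · exact Or.inl ⟨hz, hz1, h1⟩
    · exact Or.inr ⟨not_lt.1 h1, hz2⟩
  refine (measure_mono hsub).trans ((measure_union_le _ _).trans ?_)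
  refine (add_le_add (fr_ud hω c hψ a) le_rfl).trans ?_
  rw [Real.volume_Ico, add_sub_cancel_left, ← ENNReal.ofReal_add (by positivity) ht]
  apply ENNReal.ofReal_le_ofReal
  rw [mul_one_div]

theorem fr_thick {ω c ψ s : ℝ} (hω : 0 < ω) {z z' : ℝ} (hz : z ∈ Fr ω c ψ) (h : |z - z'| ≤ s) :
    z' ∈ Fr ω (c + ω * s) (ψ + 2 * ω * s) := by
  change Int.fract (ω * z + c) ≤ ψ at hz
  show Int.fract (ω * z' + (c + ω * s)) ≤ ψ + 2 * ω * s
  rw [abs_le] at h
  have h1 : ω * (z - z') ≤ ω * s := mul_le_mul_of_nonneg_left h.2 hω.le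
  have h2 : ω * (-s) ≤ ω * (z - z') := mul_le_mul_of_nonneg_left h.1 hω.le
  have h3 := Int.floor_le (ω * z + c)
  have h4 := Int.self_sub_floor (ω * z + c)
  have h5 : Int.fract (ω * z' + (c + ω * s)) ≤ ω * z' + (c + ω * s) - (⌊ω * z + c⌋ : ℝ) :=
    fract_le_sub (by linarith)
  linarith

theorem fr_mono {ω c ψ ψ' : ℝ} (h : ψ ≤ ψ') : Fr ω c ψ ⊆ Fr ω c ψ' := by
  intro z hz
  exact le_trans hz h

theorem th_fr {ω φ a b : ℝ} (hω : 0 < ω) (ha : 0 ≤ a) (hb : 0 ≤ b) :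
    Th {z : ℝ | Int.fract (ω * z) < φ} a b ⊆ Fr ω (ω * a) (φ + ω * (a + b)) := by
  rintro z ⟨y, hy, hz1, hz2⟩
  change Int.fract (ω * y) < φ at hy
  show Int.fract (ω * z + ω * a) ≤ φ + ω * (a + b)
  have h1 : ω * (y - a) ≤ ω * z := mul_le_mul_of_nonneg_left hz1 hω.le
  have h2 : ω * z ≤ ω * (y + b) := mul_le_mul_of_nonneg_left hz2 hω.le
  have h3 := Int.floor_le (ω * y)
  have h4 := Int.self_sub_floor (ω * y)
  have h5 : Int.fract (ω * z + ω * a) ≤ ω * z + ω * a - (⌊ω * y⌋ : ℝ) :=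
    fract_le_sub (by linarith)
  linarith

theorem th_compl_fr {ω φ a b : ℝ} (hω : 0 < ω) (ha : 0 ≤ a) (hb : 0 ≤ b) (hφ : 0 ≤ φ)
    (hφ1 : φ ≤ 1) :
    Th ({z : ℝ | Int.fract (ω * z) < φ}ᶜ) a b ⊆ Fr ω (ω * a - φ) (1 - φ + ω * (a + b)) := by
  rintro z ⟨y, hy, hz1, hz2⟩
  have hy' : φ ≤ Int.fract (ω * y) := not_lt.1 hy
  show Int.fract (ω * z + (ω * a - φ)) ≤ 1 - φ + ω * (a + b)
  have h1 : ω * (y - a) ≤ ω * z := mul_le_mul_of_nonneg_left hz1 hω.le
  have h2 : ω * z ≤ ω * (y + b) := mul_le_mul_of_nonneg_left hz2 hω.le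
  have h4 := Int.self_sub_floor (ω * y)
  have h6 := Int.fract_lt_one (ω * y)
  have h5 : Int.fract (ω * z + (ω * a - φ)) ≤ ω * z + (ω * a - φ) - (⌊ω * y⌋ : ℝ) :=
    fract_le_sub (by linarith)
  linarith

theorem inr_subset {A : Set ℝ} {e : ℝ} (he : 0 ≤ e) : Inr A e ⊆ A := by
  intro z hz
  exact hz z (by rw [sub_self, abs_zero]; exact he)

theorem inr_anti {A : Set ℝ} {e e' : ℝ} (h : e ≤ e') : Inr A e' ⊆ Inr A e := by
  intro z hz y hy
  exact hz y (hy.trans h)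

/-- Points near a point of the larger interior. -/
theorem inr_near {A : Set ℝ} {e s : ℝ} {z z' : ℝ} (hz : z ∈ Inr A (e + s)) (h : |z' - z| ≤ s) :
    z' ∈ Inr A e := by
  intro y hy
  refine hz y ?_
  calc |y - z| = |(y - z') + (z' - z)| := by congr 1; ring
    _ ≤ |y - z'| + |z' - z| := abs_add_le _ _
    _ ≤ e + s := add_le_add hy h

end Pool.Agent.Helper69.GE
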