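import Pool.Agent.Helper69.GE.Defs

/-!
# GE-03 Scale: periodic sets and scaling

* `Cell m H` implies that `H` is a countable union of half open intervals, so measurable: `H` is the
  preimage of the set `{i : ℤ | ∃ y ∈ H, ⌊2 ^ m y⌋ = i}` under the measurable map `z ↦ ⌊2 ^ m z⌋`.
* `per_window`: for a measurable periodic set every interval of length one contains the same
  measure (for example `MeasureTheory.IsAddFundamentalDomain.measure_set_eq`, or split at `⌈a⌉`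
  and translate).
* `per_scale`: `z ↦ ω z + c` multiplies lengths by `ω` and maps `[a, a + 1 / ω)` onto an interval of
  length one (`Real.volume_preimage_mul_left`, `Real.volume_preimage_add_right`).
* `per_scale_lower`: `[α, α + h)` contains `⌊h ω⌋ ≥ h ω / 2` disjoint intervals of length `1 / ω`.
-/

set_option autoImplicit false

open MeasureTheory Set

namespace Pool.Agent.Helper69.GE

theorem cell_measurable {m : ℕ} {H : Set ℝ} (h : Cell m H) : MeasurableSet H := by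
  have h1 : H = (fun z : ℝ => ⌊(2 : ℝ) ^ m * z⌋) ⁻¹' {i : ℤ | ∃ y ∈ H, ⌊(2 : ℝ) ^ m * y⌋ = i} := by
    ext z
    constructor
    · intro hz
      exact ⟨z, hz, rfl⟩
    · rintro ⟨y, hy, hyz⟩
      exact (h y z hyz).1 hy
  rw [h1]
  exact (Int.measurable_floor.comp (measurable_const_mul ((2 : ℝ) ^ m))) MeasurableSet.of_discrete

/-- A union of dyadic intervals is a union of finer dyadic intervals. -/
theorem cell_mono {m m' : ℕ} (hm : m ≤ m') {H : Set ℝ} (h : Cell m H) : Cell m' H := by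
  intro y z hyz
  apply h
  obtain ⟨d, rfl⟩ := Nat.exists_eq_add_of_le hm
  have h2 : (0 : ℝ) < 2 ^ d := by positivity
  have key : ∀ x : ℝ, ∀ k : ℤ, k ≤ ⌊(2 : ℝ) ^ m * x⌋ ↔ 2 ^ d * k ≤ ⌊(2 : ℝ) ^ (m + d) * x⌋ := by
    intro x k
    rw [Int.le_floor, Int.le_floor]
    push_cast
    rw [pow_add, mul_comm ((2 : ℝ) ^ m) (2 ^ d), mul_assoc]
    exact (mul_le_mul_iff_right₀ h2).symm
  apply le_antisymm
  · rw [key, ← hyz, ← key]
  · rw [key, hyz, ← key]

theorem per_int {H : Set ℝ} (h : Per H) (z : ℝ) (i : ℤ) : z + i ∈ H ↔ z ∈ H := by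
  induction i using Int.induction_on with
  | zero => rw [Int.cast_zero, add_zero]
  | succ i ih =>
    rw [← ih]
    push_cast
    rw [← add_assoc]
    exact h _
  | pred i ih =>
    rw [← ih, ← h]
    push_cast
    have : z + (-(i : ℝ) - 1) + 1 = z + -(i : ℝ) := by ring
    rw [this]

theorem per_fract {H : Set ℝ} (h : Per H) (z : ℝ) : Int.fract z ∈ H ↔ z ∈ H := by
  have h1 := per_int h (Int.fract z) ⌊z⌋
  rw [Int.fract_add_floor] at h1
  exact h1.symm

theorem per_window {H : Set ℝ} (h : Per H) (hm : MeasurableSet H) (a : ℝ) :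
    volume (H ∩ Ico a (a + 1)) = volume (H ∩ Ico 0 1) := by
  have h5 : ∀ a : ℝ, volume (H ∩ Ico a (a + 1)) = volume (H ∩ Ioc a (a + 1)) := fun a =>
    measure_congr ((ae_eq_refl H).inter Ico_ae_eq_Ioc)
  have h1 := isAddFundamentalDomain_Ioc (T := (1 : ℝ)) one_pos a volume
  have h2 := isAddFundamentalDomain_Ioc (T := (1 : ℝ)) one_pos 0 volume
  have h3 := h1.measure_set_eq h2 hm (fun g => by
    ext x
    obtain ⟨k, hk⟩ := AddSubgroup.mem_zmultiples_iff.1 g.2
    have h4 : g +ᵥ x = x + k := by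
      rw [AddSubgroup.vadd_def, vadd_eq_add, ← hk, zsmul_eq_mul, mul_one, add_comm]
    change g +ᵥ x ∈ H ↔ x ∈ H
    rw [h4]
    exact per_int h x k)
  rw [h5 a, h3, ← h5 0, zero_add]

theorem per_scale {H : Set ℝ} (h : Per H) (hm : MeasurableSet H) {ω : ℝ} (hω : 0 < ω) (c a : ℝ) :
    volume ({z : ℝ | ω * z + c ∈ H} ∩ Ico a (a + 1 / ω)) =
      ENNReal.ofReal (1 / ω) * volume (H ∩ Ico 0 1) := by
  have h1 : {z : ℝ | ω * z + c ∈ H} ∩ Ico a (a + 1 / ω) =
      (fun z => ω * z) ⁻¹' ((fun z => z + c) ⁻¹' (H ∩ Ico (ω * a + c) (ω * a + c + 1))) := by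
    ext z
    have e1 : a ≤ z ↔ ω * a + c ≤ ω * z + c := by
      rw [add_le_add_iff_right]
      exact (mul_le_mul_iff_right₀ hω).symm
    have e2 : z < a + 1 / ω ↔ ω * z + c < ω * a + c + 1 := by
      have e3 : ω * (a + 1 / ω) = ω * a + 1 := by field_simp
      rw [← mul_lt_mul_iff_right₀ hω, e3]
      constructor <;> intro h <;> linarith
    constructor
    · rintro ⟨g1, g2, g3⟩
      exact ⟨g1, e1.1 g2, e2.1 g3⟩
    · rintro ⟨g1, g2, g3⟩
      exact ⟨g1, e1.2 g2, e2.2 g3⟩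
  rw [h1, Real.volume_preimage_mul_left hω.ne', measure_preimage_add_right, per_window h hm,
    abs_of_pos (inv_pos.2 hω), one_div]

theorem per_scale_ud {H : Set ℝ} (h : Per H) (hm : MeasurableSet H) {δ : ℝ}
    (hδ : 0 ≤ δ) (hv : volume (H ∩ Ico 0 1) ≤ ENNReal.ofReal δ) {ω : ℝ} (hω : 0 < ω) (c : ℝ) :
    UD {z : ℝ | ω * z + c ∈ H} (1 / ω) δ := by
  intro a
  rw [per_scale h hm hω, mul_comm δ, ENNReal.ofReal_mul (by positivity)]
  gcongr

theorem per_scale_nat {H : Set ℝ} (h : Per H) (hm : MeasurableSet H) {ω : ℝ} (hω : 0 < ω)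
    (c α : ℝ) (n : ℕ) : ENNReal.ofReal (n / ω) * volume (H ∩ Ico 0 1) =
      volume ({z : ℝ | ω * z + c ∈ H} ∩ Ico α (α + n / ω)) := by
  have hGm : MeasurableSet {z : ℝ | ω * z + c ∈ H} :=
    ((measurable_const_mul ω).add_const c) hm
  induction n with
  | zero =>
    rw [Nat.cast_zero, zero_div, ENNReal.ofReal_zero, zero_mul, add_zero, Ico_self, inter_empty,
      measure_empty]
  | succ n ih =>
    have e1 : (0 : ℝ) ≤ n / ω := by positivity
    have e2 : (0 : ℝ) ≤ 1 / ω := by positivity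
    have e3 : ((n + 1 : ℕ) : ℝ) / ω = n / ω + 1 / ω := by
      push_cast
      rw [add_div]
    have e4 : Ico α (α + (n / ω + 1 / ω)) =
        Ico α (α + n / ω) ∪ Ico (α + n / ω) (α + n / ω + 1 / ω) := by
      rw [Ico_union_Ico_eq_Ico (by linarith) (by linarith), add_assoc]
    rw [e3, ENNReal.ofReal_add e1 e2, add_mul, ih, ← per_scale h hm hω c (α + n / ω), e4,
      inter_union_distrib_left, measure_union _ (hGm.inter measurableSet_Ico)]
    exact (Ico_disjoint_Ico_same).mono inter_subset_right inter_subset_right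

theorem per_scale_lower {H : Set ℝ} (h : Per H) (hm : MeasurableSet H) {v : ℝ} (hv0 : 0 ≤ v)
    (hv : ENNReal.ofReal v ≤ volume (H ∩ Ico 0 1)) {ω : ℝ} (hω : 0 < ω) (c α : ℝ) {h' : ℝ}
    (hh : 1 ≤ ω * h') :
    ENNReal.ofReal (h' / 2 * v) ≤ volume ({z : ℝ | ω * z + c ∈ H} ∩ Ico α (α + h')) := by
  have key : ∀ n : ℕ, ENNReal.ofReal (n / ω) * volume (H ∩ Ico 0 1) =
      volume ({z : ℝ | ω * z + c ∈ H} ∩ Ico α (α + n / ω)) := per_scale_nat h hm hω c α
  have h1 : (1 : ℝ) ≤ ⌊ω * h'⌋₊ := by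
    exact_mod_cast Nat.le_floor (by exact_mod_cast hh)
  have h2 : ω * h' < ⌊ω * h'⌋₊ + 1 := Nat.lt_floor_add_one _
  have h3 : (⌊ω * h'⌋₊ : ℝ) ≤ ω * h' := Nat.floor_le (by linarith)
  have h4 : h' / 2 ≤ ⌊ω * h'⌋₊ / ω := by
    rw [le_div_iff₀ hω]
    linarith
  have h5 : (⌊ω * h'⌋₊ : ℝ) / ω ≤ h' := by
    rw [div_le_iff₀ hω]
    linarith
  have h6 : 0 ≤ (⌊ω * h'⌋₊ : ℝ) / ω := by positivity
  calc ENNReal.ofReal (h' / 2 * v) ≤ ENNReal.ofReal (⌊ω * h'⌋₊ / ω * v) :=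
        ENNReal.ofReal_le_ofReal (mul_le_mul_of_nonneg_right h4 hv0)
    _ = ENNReal.ofReal (⌊ω * h'⌋₊ / ω) * ENNReal.ofReal v := ENNReal.ofReal_mul h6
    _ ≤ ENNReal.ofReal (⌊ω * h'⌋₊ / ω) * volume (H ∩ Ico 0 1) := by gcongr
    _ = volume ({z : ℝ | ω * z + c ∈ H} ∩ Ico α (α + ⌊ω * h'⌋₊ / ω)) := key _
    _ ≤ _ := by
      apply measure_mono
      apply inter_subset_inter_right
      exact Ico_subset_Ico_right (by linarith)

end Pool.Agent.Helper69.GE
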