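import Pool.Agent.Helper69.GE.Defs

/-!
# GE-02 Smooth: a set and a finer set of known density

Let `C` have density at most `σ` in every interval of length `τ`, and let `Ap` contain the
`τ`-neighbourhood of `A`. Then `|A ∩ C ∩ [α, α + h)| ≤ σ |Ap ∩ [α, α + h + τ)|`.

Proof. Let `J i = [α + i τ, α + (i + 1) τ)`, `i < N = ⌈h / τ⌉`; they are disjoint, cover
`[α, α + h)` and are contained in `[α, α + h + τ)` (as `N τ ≤ h + τ`). Let `I` be the set of the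
`i < N` with `A ∩ J i ≠ ∅`; for these `J i ⊆ Ap`. So
`|A ∩ C ∩ [α, α + h)| ≤ ∑_{i ∈ I} |C ∩ J i| ≤ ∑_{i ∈ I} σ τ = σ |⋃_{i ∈ I} J i|
≤ σ |Ap ∩ [α, α + h + τ)|`. No measurability of `A`, `C`, `Ap` is needed (outer measure).
-/

set_option autoImplicit false

open MeasureTheory Set

namespace Pool.Agent.Helper69.GE

theorem smooth {A Ap C : Set ℝ} {τ σ : ℝ} (hτ : 0 < τ) (hσ : 0 ≤ σ) (hC : UD C τ σ)
    (hA : ∀ x ∈ A, ∀ y : ℝ, |x - y| ≤ τ → y ∈ Ap) (α : ℝ) {h : ℝ} (hh : 0 ≤ h) :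
    volume (A ∩ C ∩ Ico α (α + h)) ≤
      ENNReal.ofReal σ * volume (Ap ∩ Ico α (α + h + τ)) := by
  classical
  let J : ℕ → Set ℝ := fun i => Ico (α + i * τ) (α + i * τ + τ)
  let I : Finset ℕ := (Finset.range ⌈h / τ⌉₊).filter fun i => (A ∩ J i).Nonempty
  have hsub : A ∩ C ∩ Ico α (α + h) ⊆ ⋃ i ∈ I, C ∩ J i := by
    rintro z ⟨⟨hzA, hzC⟩, hz1, hz2⟩
    have h0 : 0 ≤ (z - α) / τ := div_nonneg (by linarith) hτ.le
    have h1 := Nat.floor_le h0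
    have h2 := Nat.lt_floor_add_one ((z - α) / τ)
    rw [le_div_iff₀ hτ] at h1
    rw [div_lt_iff₀ hτ] at h2
    have hJ : z ∈ J ⌊(z - α) / τ⌋₊ := ⟨by linarith, by linarith⟩
    have hN : ⌊(z - α) / τ⌋₊ < ⌈h / τ⌉₊ := by
      rw [Nat.lt_ceil]
      refine (Nat.floor_le h0).trans_lt ?_
      exact div_lt_div_of_pos_right (by linarith) hτ
    refine mem_iUnion₂.2 ⟨_, Finset.mem_filter.2 ⟨Finset.mem_range.2 hN, z, hzA, hJ⟩, hzC, hJ⟩
  have hsub2 : (⋃ i ∈ I, J i) ⊆ Ap ∩ Ico α (α + h + τ) := by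
    intro y hy
    obtain ⟨i, hi, hy1, hy2⟩ := mem_iUnion₂.1 hy
    obtain ⟨hi1, x, hxA, hx1, hx2⟩ := Finset.mem_filter.1 hi
    refine ⟨hA x hxA y (abs_le.2 ⟨by linarith, by linarith⟩), ?_, ?_⟩
    · have : 0 ≤ (i : ℝ) * τ := mul_nonneg (Nat.cast_nonneg _) hτ.le
      linarith
    · have h1 : ((i + 1 : ℕ) : ℝ) ≤ (⌈h / τ⌉₊ : ℝ) :=
        Nat.cast_le.2 (Nat.succ_le_of_lt (Finset.mem_range.1 hi1))
      have h2 : (⌈h / τ⌉₊ : ℝ) < h / τ + 1 := Nat.ceil_lt_add_one (div_nonneg hh hτ.le)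
      push_cast at h1
      have h3 : ((i : ℝ) + 1) * τ ≤ (h / τ + 1) * τ :=
        mul_le_mul_of_nonneg_right (h1.trans h2.le) hτ.le
      have h4 : (h / τ + 1) * τ = h + τ := by
        rw [add_mul, div_mul_cancel₀ _ hτ.ne', one_mul]
      linarith
  have hdisj : (I : Set ℕ).PairwiseDisjoint J := by
    intro i _ j _ hij
    rw [Function.onFun, Set.disjoint_left]
    rintro y ⟨h1, h2⟩ ⟨h3, h4⟩
    rcases lt_or_gt_of_ne hij with h5 | h5
    · have h6 : ((i + 1 : ℕ) : ℝ) ≤ (j : ℝ) := Nat.cast_le.2 h5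
      push_cast at h6
      nlinarith
    · have h6 : ((j + 1 : ℕ) : ℝ) ≤ (i : ℝ) := Nat.cast_le.2 h5
      push_cast at h6
      nlinarith
  calc volume (A ∩ C ∩ Ico α (α + h)) ≤ volume (⋃ i ∈ I, C ∩ J i) := measure_mono hsub
    _ ≤ ∑ i ∈ I, volume (C ∩ J i) := measure_biUnion_finset_le _ _
    _ ≤ ∑ i ∈ I, ENNReal.ofReal σ * volume (J i) := by
        refine Finset.sum_le_sum fun i _ => ?_
        have h1 : volume (J i) = ENNReal.ofReal τ := by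
          rw [Real.volume_Ico, add_sub_cancel_left]
        rw [h1, ← ENNReal.ofReal_mul hσ]
        exact hC _
    _ = ENNReal.ofReal σ * volume (⋃ i ∈ I, J i) := by
        rw [measure_biUnion_finset hdisj fun i _ => measurableSet_Ico, Finset.mul_sum]
    _ ≤ ENNReal.ofReal σ * volume (Ap ∩ Ico α (α + h + τ)) := by
        gcongr

end Pool.Agent.Helper69.GE
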