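import Pool.Agent.Helper69.GE.Basic
import Pool.Agent.Helper69.GE.Smooth
import Pool.Agent.Helper69.GE.Scale

/-!
# GE-05 Pair: two points of the progression are rarely both in the pattern

`φ = 2 ^ (-f)`, `0 < w`, `2 w ≤ w'`, `w' ≤ 2 ^ (q - f - 1) w` (written `2 ^ (f + 1) w' ≤ 2 ^ q w`),
`1 ≤ h w`. The measure of the `κ ∈ [α, α + h)` with `X + κ w` and `X + κ w'` both in `Pat f q H` is at
most `16 h δ φ (φ + w / w')`.

Proof (two applications of `smooth`). First step: `τ = 1 / (2 ^ q w)`, `σ = δ`,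
`C = {κ | 2 ^ q w κ + 2 ^ q X ∈ H}` (`per_scale_ud`),
`A = {κ | fract (X + κ w) < φ, fract (X + κ w') < φ} ⊆ Fr w X φ ∩ Fr w' X φ`. By `fr_thick` the
`τ`-neighbourhood of `A` is in `Ap = Fr w (X + w τ) (2 φ) ∩ Fr w' (X + w' τ) (2 φ)` since
`2 w τ = 2 * 2 ^ (-q) ≤ φ` and `2 w' τ = 2 w' / (2 ^ q w) ≤ φ`. So the measure is at most
`δ |Ap ∩ [α, α + h + τ)|`.
Second step: `τ' = 1 / w'`, `σ' = 2 φ`, `C' = Fr w' (X + w' τ) (2 φ)` (`fr_ud`),
`A' = Fr w (X + w τ) (2 φ)`, whose `τ'`-neighbourhood is in `Fr w c (2 φ + 2 w / w')` for some `c`.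
By `fr_length` the measure of the latter in `[α, α + h + τ + τ')` is at most
`(2 φ + 2 w / w') (h + τ + τ' + 1 / w) ≤ (2 φ + 2 w / w') 4 h`.
Altogether `δ * 2 φ * (2 φ + 2 w / w') * 4 h`.

`single`: the measure of `{κ ∈ [α, α + h) | X + κ w ∈ Pat f q H}` is at most `2 h δ φ`
(`per_scale_ud` for `Pat`, whose measure in a period is at most `φ δ` (hypothesis `hP`), and
`ud_length`).
-/

set_option autoImplicit false

open MeasureTheory Set

namespace Pool.Agent.Helper69.GE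

theorem pair {f q m : ℕ} {H : Set ℝ} {δ : ℝ} (hδ : 0 ≤ δ) (hH : Per H) (hm : Cell m H)
    (hv : volume (H ∩ Ico 0 1) ≤ ENNReal.ofReal δ) {w w' : ℝ} (hw : 0 < w) (hww : 2 * w ≤ w')
    (hfq : f + 1 ≤ q) (hq : 2 ^ (f + 1) * w' ≤ 2 ^ q * w) (X α : ℝ) {h : ℝ} (hh : 1 ≤ w * h) :
    volume ({κ : ℝ | X + κ * w ∈ Pat f q H ∧ X + κ * w' ∈ Pat f q H} ∩ Ico α (α + h)) ≤
      ENNReal.ofReal (16 * h * δ * (1 / 2) ^ f * ((1 / 2) ^ f + w / w')) := by
  have hw' : 0 < w' := by linarith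
  have hQ : (0 : ℝ) < 2 ^ q := by positivity
  obtain ⟨φ, hφ⟩ : ∃ φ : ℝ, φ = (1 / 2 : ℝ) ^ f := ⟨_, rfl⟩
  have hφ0 : 0 < φ := by rw [hφ]; positivity
  have hφ2 : (2 : ℝ) ^ f * φ = 1 := by
    rw [hφ, ← mul_pow]
    norm_num
  have hh0 : 0 < h := by
    by_contra hn
    push Not at hn
    have := mul_nonpos_of_nonneg_of_nonpos hw.le hn
    linarith
  have hqω : (0 : ℝ) < 2 ^ q * w := by positivity
  obtain ⟨τ, hτ⟩ : ∃ τ : ℝ, τ = 1 / (2 ^ q * w) := ⟨_, rfl⟩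
  have hτ0 : 0 < τ := by rw [hτ]; positivity
  have hτw : w * τ = 1 / 2 ^ q := by rw [hτ]; field_simp
  have hτw' : w' * τ = w' / (2 ^ q * w) := by rw [hτ]; field_simp
  -- 2 w τ ≤ φ
  have h2q : (2 : ℝ) ^ (f + 1) ≤ 2 ^ q := pow_le_pow_right₀ (by norm_num) hfq
  have i1 : 2 * w * τ ≤ φ := by
    rw [mul_assoc, hτw, mul_one_div, div_le_iff₀ hQ]
    calc (2 : ℝ) = φ * 2 ^ (f + 1) := by
          rw [pow_succ]
          linear_combination (-2) * hφ2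
      _ ≤ φ * 2 ^ q := mul_le_mul_of_nonneg_left h2q hφ0.le
  have i2 : 2 * w' * τ ≤ φ := by
    rw [mul_assoc, hτw', ← mul_div_assoc, div_le_iff₀ hqω]
    calc 2 * w' = φ * (2 ^ (f + 1) * w') := by
          rw [pow_succ]
          linear_combination (-2 * w') * hφ2
      _ ≤ φ * (2 ^ q * w) := mul_le_mul_of_nonneg_left hq hφ0.le
  have hC : UD {κ : ℝ | 2 ^ q * w * κ + 2 ^ q * X ∈ H} τ δ := by
    rw [hτ]
    exact per_scale_ud hH (cell_measurable hm) hδ hv hqω _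
  have hsub : {κ : ℝ | X + κ * w ∈ Pat f q H ∧ X + κ * w' ∈ Pat f q H} ⊆
      (Fr w X φ ∩ Fr w' X φ) ∩ {κ : ℝ | 2 ^ q * w * κ + 2 ^ q * X ∈ H} := by
    rintro κ ⟨⟨g1, g2⟩, ⟨g3, -⟩⟩
    refine ⟨⟨?_, ?_⟩, ?_⟩
    · change Int.fract (w * κ + X) ≤ φ
      rw [add_comm, mul_comm, hφ]
      exact g1.le
    · change Int.fract (w' * κ + X) ≤ φ
      rw [add_comm, mul_comm, hφ]
      exact g3.le
    · change 2 ^ q * w * κ + 2 ^ q * X ∈ H
      have : 2 ^ q * w * κ + 2 ^ q * X = 2 ^ q * (X + κ * w) := by ring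
      rw [this]
      exact g2
  have s1 := smooth (A := Fr w X φ ∩ Fr w' X φ)
    (Ap := Fr w (X + w * τ) (2 * φ) ∩ Fr w' (X + w' * τ) (2 * φ)) hτ0 hδ hC
    (fun x hx y hxy => ⟨fr_mono (by linarith) (fr_thick hw hx.1 hxy),
      fr_mono (by linarith) (fr_thick hw' hx.2 hxy)⟩) α hh0.le
  have s2 := smooth (A := Fr w (X + w * τ) (2 * φ))
    (Ap := Fr w (X + w * τ + w * (1 / w')) (2 * φ + 2 * w * (1 / w')))
    (C := Fr w' (X + w' * τ) (2 * φ)) (τ := 1 / w') (σ := 2 * φ) (by positivity) (by positivity)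
    (fr_ud hw' _ (by positivity)) (fun x hx y hxy => fr_thick hw hx hxy) α
    (h := h + τ) (by positivity)
  have s3 := fr_length hw (X + w * τ + w * (1 / w')) (ψ := 2 * φ + 2 * w * (1 / w'))
    (by positivity) α (l := h + τ + 1 / w') (by positivity)
  have j1 : 1 / w ≤ h := by
    rw [div_le_iff₀ hw]
    linarith
  have j2 : τ ≤ h := by
    rw [hτ, div_le_iff₀ hqω]
    have : (1 : ℝ) ≤ 2 ^ q := one_le_pow₀ (by norm_num)
    calc (1 : ℝ) ≤ w * h := hh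
      _ = 1 * (w * h) := (one_mul _).symm
      _ ≤ 2 ^ q * (w * h) := mul_le_mul_of_nonneg_right this (by positivity)
      _ = _ := by ring
  have j3 : 1 / w' ≤ h := by
    rw [div_le_iff₀ hw']
    nlinarith
  have hfin : (2 * φ + 2 * w * (1 / w')) * (h + τ + 1 / w' + 1 / w) ≤
      (2 * φ + 2 * w * (1 / w')) * (4 * h) := by
    refine mul_le_mul_of_nonneg_left ?_ (by positivity)
    linarith
  calc volume ({κ : ℝ | X + κ * w ∈ Pat f q H ∧ X + κ * w' ∈ Pat f q H} ∩ Ico α (α + h))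
      ≤ volume ((Fr w X φ ∩ Fr w' X φ) ∩ {κ : ℝ | 2 ^ q * w * κ + 2 ^ q * X ∈ H} ∩
          Ico α (α + h)) := measure_mono (inter_subset_inter_left _ hsub)
    _ ≤ ENNReal.ofReal δ * volume (Fr w (X + w * τ) (2 * φ) ∩ Fr w' (X + w' * τ) (2 * φ) ∩
          Ico α (α + (h + τ))) := by
        rw [← add_assoc]
        exact s1
    _ ≤ ENNReal.ofReal δ * (ENNReal.ofReal (2 * φ) * ENNReal.ofReal
          ((2 * φ + 2 * w * (1 / w')) * (4 * h))) := by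
        gcongr
        refine s2.trans ?_
        gcongr
        have : α + (h + τ) + 1 / w' = α + (h + τ + 1 / w') := by ring
        rw [this]
        exact s3.trans (ENNReal.ofReal_le_ofReal hfin)
    _ = ENNReal.ofReal (16 * h * δ * (1 / 2) ^ f * ((1 / 2) ^ f + w / w')) := by
        rw [← ENNReal.ofReal_mul (by positivity), ← ENNReal.ofReal_mul hδ, ← hφ]
        congr 1
        ring

theorem single {f q : ℕ} {H : Set ℝ} {δ : ℝ} (hδ : 0 ≤ δ) (hH : Per (Pat f q H))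
    (hm : MeasurableSet (Pat f q H))
    (hP : volume (Pat f q H ∩ Ico 0 1) ≤ ENNReal.ofReal ((1 / 2) ^ f * δ)) {w : ℝ} (hw : 0 < w)
    (X α : ℝ) {h : ℝ} (hh : 1 ≤ w * h) :
    volume ({κ : ℝ | X + κ * w ∈ Pat f q H} ∩ Ico α (α + h)) ≤
      ENNReal.ofReal (2 * h * δ * (1 / 2) ^ f) := by
  have hh0 : 0 < h := by
    by_contra hn
    push Not at hn
    have := mul_nonpos_of_nonneg_of_nonpos hw.le hn
    linarith
  have hσ : (0 : ℝ) ≤ (1 / 2) ^ f * δ := by positivity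
  have h1 := per_scale_ud hH hm hσ hP hw X
  have h2 := ud_length (by positivity) hσ h1 α hh0.le
  have h3 : {κ : ℝ | X + κ * w ∈ Pat f q H} = {z : ℝ | w * z + X ∈ Pat f q H} := by
    ext κ
    change X + κ * w ∈ Pat f q H ↔ w * κ + X ∈ Pat f q H
    rw [add_comm, mul_comm]
  rw [h3]
  refine h2.trans (ENNReal.ofReal_le_ofReal ?_)
  have j1 : 1 / w ≤ h := by
    rw [div_le_iff₀ hw]
    linarith
  calc (1 / 2 : ℝ) ^ f * δ * (h + 1 / w) ≤ (1 / 2 : ℝ) ^ f * δ * (2 * h) :=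
        mul_le_mul_of_nonneg_left (by linarith) hσ
    _ = _ := by ring

end Pool.Agent.Helper69.GE
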