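import Pool.Agent.Helper69.GE.Basic
import Pool.Agent.Helper69.GE.Smooth

/-!
# GE-13 Build: the set of holes of `M` batches

`Gs A Inn σ η e M b₀` is the set of the `z` for which there is a batch `b`, `b₀ ≤ b < M`, with
`z ∈ Th (A b) e (σ b + e) ∩ Inn b` and `z ∈ Th ((A b')ᶜ) e (η b' + e)` for all `b₀ ≤ b' < b`.

`gs_kills`: the points are `x + s n`. Inner kill: for every `x` and every `b` some `n ∈ I b` has the
`e`-neighbourhood of `x + s n` in `Inn b`. Outer kill: for one `b` and every `x` some `n ∈ W b` has the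
`e`-neighbourhood of `x + s n` in `A b ∩ Inn b`. Let `b₁` be this `b`, and `x` be given.
Case 1: `x ∈ A b` for some `b < b₁`; take the least one. By the inner kill there is `n ∈ I b` such that
all `z` with `|z - (x + s n)| ≤ e` are in `Inn b`; they are in `Th (A b) e (σ b + e)` because of the
point `x ∈ A b` and `0 ≤ s n ≤ σ b`, and in `Th ((A b')ᶜ) e (η b' + e)`, `b' < b`, because of the point
`x ∉ A b'` and `0 ≤ s n ≤ η b'`.
Case 2: `x ∉ A b` for all `b < b₁`; use the outer kill: `z ∈ A b₁ ∩ Inn b₁`, so `z ∈ Th (A b₁) ..`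
(the point `z` itself, `0 ≤ σ b₁ + e`), and `z ∈ Th ((A b')ᶜ) e (η b' + e)` as before.

`gs_density`: `A b = {z | fract (ω b z) < φ}`; `Gs b₀ ⊆ (Th (A b₀) ∩ Inn b₀) ∪
(Th ((A b₀)ᶜ) ∩ Gs (b₀ + 1))`. With `smooth` (`τ = 1 / (2 ^ q ω)`, `σ = δ`), `th_fr`, `fr_thick` and
`fr_period_add` the first part has measure at most
`δ (φ + ω (σ + 2 e) + 3 * 2 ^ (-q)) / ω` in an interval of length `1 / ω`, `ω = ω b₀`: the `τ`-thickening
is in `Fr ω c (φ + ω (σ + 2 e) + 2 * 2 ^ (-q))`, and the interval has length `1 / ω + τ`. With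
`τ = 1 / ω (b₀ + 1)` and the density `D'` of `Gs (b₀ + 1)` the second part has measure at most
`D' (1 - φ + ω (η + 2 e) + 3 ω / ω (b₀ + 1)) / ω`. This is `gs_step`. By downward induction, the
density of `Gs b₀` is at most `δ (1 - (1 - φ) ^ (M - b₀) + 3 (M - b₀) ε)`: in the step, if `D'` is this
number for `b₀ + 1` then `D' ≤ 2 δ` as `3 M ε ≤ 1`, and
`δ (φ + ε) + D' (1 - φ + ε) ≤ δ (φ + (1 - φ) (1 - (1 - φ) ^ (M - b₀ - 1)) + 3 (M - b₀ - 1) ε + 3 ε)`.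
-/

set_option autoImplicit false

open MeasureTheory Set

namespace Pool.Agent.Helper69.GE

/-- The holes of the batches `b₀, ..., M - 1`. -/
def Gs (A Inn : ℕ → Set ℝ) (σ η : ℕ → ℝ) (e : ℝ) (M b₀ : ℕ) : Set ℝ :=
  {z | ∃ b, b₀ ≤ b ∧ b < M ∧ z ∈ Th (A b) e (σ b + e) ∧ z ∈ Inn b ∧
    ∀ b', b₀ ≤ b' → b' < b → z ∈ Th ((A b')ᶜ) e (η b' + e)}

theorem gs_kills {A Inn : ℕ → Set ℝ} {σ η : ℕ → ℝ} {e : ℝ} {M : ℕ} (he : 0 ≤ e)
    (hσ : ∀ b, 0 ≤ σ b) {s : ℕ → ℝ} {W I : ℕ → Set ℕ}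
    (h1 : ∀ b < M, ∀ n ∈ I b, 0 ≤ s n ∧ s n ≤ σ b)
    (h2 : ∀ b b', b < b' → b' < M → ∀ n, n ∈ W b' ∨ n ∈ I b' → 0 ≤ s n ∧ s n ≤ η b)
    (h3 : ∀ b < M, ∀ x : ℝ, ∃ n ∈ I b, ∀ z : ℝ, |z - (x + s n)| ≤ e → z ∈ Inn b)
    (h4 : ∃ b < M, ∀ x : ℝ, ∃ n ∈ W b, ∀ z : ℝ, |z - (x + s n)| ≤ e → z ∈ A b ∧ z ∈ Inn b)
    (x : ℝ) :
    ∃ b < M, ∃ n, (n ∈ W b ∨ n ∈ I b) ∧
      ∀ z : ℝ, |z - (x + s n)| ≤ e → z ∈ Gs A Inn σ η e M 0 := by
  have key : ∀ b < M, ∀ n, (n ∈ W b ∨ n ∈ I b) → (∀ b' < b, x ∉ A b') → ∀ z : ℝ,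
      |z - (x + s n)| ≤ e → ∀ b', 0 ≤ b' → b' < b → z ∈ Th ((A b')ᶜ) e (η b' + e) := by
    intro b hb n hn hx z hz b' _ hb'
    obtain ⟨s0, s1⟩ := h2 b' b hb' hb n hn
    have hz' := abs_le.1 hz
    exact ⟨x, hx b' hb', by linarith [hz'.1], by linarith [hz'.2]⟩
  obtain ⟨b₁, hb₁, h4'⟩ := h4
  by_cases hc : ∃ b, b < b₁ ∧ x ∈ A b
  · classical
    obtain ⟨hf1, hf2⟩ := Nat.find_spec hc
    have hmin : ∀ b' < Nat.find hc, x ∉ A b' := fun b' hb' hx =>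
      Nat.find_min hc hb' ⟨hb'.trans hf1, hx⟩
    have hM : Nat.find hc < M := hf1.trans hb₁
    obtain ⟨n, hn, hI⟩ := h3 _ hM x
    refine ⟨_, hM, n, Or.inr hn, fun z hz => ?_⟩
    refine ⟨_, Nat.zero_le _, hM, ?_, hI z hz, key _ hM n (Or.inr hn) hmin z hz⟩
    obtain ⟨s0, s1⟩ := h1 _ hM n hn
    have hz' := abs_le.1 hz
    exact ⟨x, hf2, by linarith [hz'.1], by linarith [hz'.2]⟩
  · have hx : ∀ b' < b₁, x ∉ A b' := fun b' hb' hx => hc ⟨b', hb', hx⟩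
    obtain ⟨n, hn, hW⟩ := h4' x
    refine ⟨b₁, hb₁, n, Or.inl hn, fun z hz => ?_⟩
    refine ⟨b₁, Nat.zero_le _, hb₁, ?_, (hW z hz).2, key b₁ hb₁ n (Or.inl hn) hx z hz⟩
    exact ⟨z, (hW z hz).1, by linarith, by linarith [hσ b₁]⟩

theorem gs_step {ω : ℕ → ℝ} (hω : ∀ b, 0 < ω b) {φ : ℝ} (hφ : 0 ≤ φ) (hφ1 : φ ≤ 1)
    {Inn : ℕ → Set ℝ} {σ η : ℕ → ℝ} (hσ : ∀ b, 0 ≤ σ b) (hη : ∀ b, 0 ≤ η b) {e : ℝ} (he : 0 ≤ e)
    {M q b : ℕ} (hb : b < M) {δ D' ε : ℝ} (hδ : 0 ≤ δ) (hD : 0 ≤ D')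
    (hI : UD (Inn b) (1 / (2 ^ q * ω b)) δ)
    (h1 : ω b * (σ b + 2 * e) + 3 / 2 ^ q ≤ ε)
    (h2 : ω b * (η b + 2 * e) + 3 * (ω b / ω (b + 1)) ≤ ε)
    (hG : UD (Gs (fun b => {z | Int.fract (ω b * z) < φ}) Inn σ η e M (b + 1))
      (1 / ω (b + 1)) D') :
    UD (Gs (fun b => {z | Int.fract (ω b * z) < φ}) Inn σ η e M b) (1 / ω b)
      (δ * (φ + ε) + D' * (1 - φ + ε)) := by
  intro a
  have hωb := hω b
  have hωb1 := hω (b + 1)
  have hσb := hσ b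
  have hηb := hη b
  set A : Set ℝ := {z | Int.fract (ω b * z) < φ} with hA
  set τ : ℝ := 1 / (2 ^ q * ω b) with hτ
  set τ' : ℝ := 1 / ω (b + 1) with hτ'
  have hτ0 : 0 < τ := by positivity
  have hτ0' : 0 < τ' := by positivity
  set G' := Gs (fun b => {z | Int.fract (ω b * z) < φ}) Inn σ η e M (b + 1) with hG'
  have hsub : Gs (fun b => {z | Int.fract (ω b * z) < φ}) Inn σ η e M b ⊆
      (Th A e (σ b + e) ∩ Inn b) ∪ (Th Aᶜ e (η b + e) ∩ G') := by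
    rintro z ⟨c, hc1, hc2, hc3, hc4, hc5⟩
    rcases hc1.eq_or_lt with hc | hc
    · subst hc
      exact Or.inl ⟨hc3, hc4⟩
    · exact Or.inr ⟨hc5 b le_rfl hc, c, hc, hc2, hc3, hc4,
        fun b' hb' => hc5 b' (by omega)⟩
  have e1 : volume (Th A e (σ b + e) ∩ Inn b ∩ Ico a (a + 1 / ω b)) ≤
      ENNReal.ofReal (δ * ((φ + ε) * (1 / ω b))) := by
    refine (smooth (Ap := Fr (ω b) (ω b * e + ω b * τ) (φ + ω b * (e + (σ b + e)) + 2 * ω b * τ))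
      hτ0 hδ hI (fun x hx y hxy => fr_thick hωb (th_fr hωb he (by linarith) hx) hxy) a
      (by positivity)).trans ?_
    rw [ENNReal.ofReal_mul hδ]
    refine mul_le_mul_right ?_ _
    refine (fr_period_add hωb _ (by positivity) a hτ0.le).trans (ENNReal.ofReal_le_ofReal ?_)
    have h3 : (φ + ω b * (e + (σ b + e)) + 2 * ω b * τ) / ω b + τ =
        (φ + (ω b * (σ b + 2 * e) + 3 / 2 ^ q)) * (1 / ω b) := by
      rw [hτ]
      field_simp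
      ring
    rw [h3]
    exact mul_le_mul_of_nonneg_right (by linarith) (by positivity)
  have e2 : volume (Th Aᶜ e (η b + e) ∩ G' ∩ Ico a (a + 1 / ω b)) ≤
      ENNReal.ofReal (D' * ((1 - φ + ε) * (1 / ω b))) := by
    have h0 : 0 ≤ 1 - φ := by linarith
    refine (smooth (Ap := Fr (ω b) (ω b * e - φ + ω b * τ')
      (1 - φ + ω b * (e + (η b + e)) + 2 * ω b * τ'))
      hτ0' hD hG (fun x hx y hxy => fr_thick hωb
        (th_compl_fr hωb he (by linarith) hφ hφ1 hx) hxy) a (by positivity)).trans ?_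
    rw [ENNReal.ofReal_mul hD]
    refine mul_le_mul_right ?_ _
    refine (fr_period_add hωb _ (by positivity) a hτ0'.le).trans (ENNReal.ofReal_le_ofReal ?_)
    have h3 : (1 - φ + ω b * (e + (η b + e)) + 2 * ω b * τ') / ω b + τ' =
        (1 - φ + (ω b * (η b + 2 * e) + 3 * (ω b / ω (b + 1)))) * (1 / ω b) := by
      rw [hτ']
      field_simp
      ring
    rw [h3]
    exact mul_le_mul_of_nonneg_right (by linarith) (by positivity)
  have hε : 0 ≤ ε := le_trans (by positivity) h1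
  calc volume (Gs (fun b => {z | Int.fract (ω b * z) < φ}) Inn σ η e M b ∩ Ico a (a + 1 / ω b))
      ≤ volume ((Th A e (σ b + e) ∩ Inn b ∩ Ico a (a + 1 / ω b)) ∪
          (Th Aᶜ e (η b + e) ∩ G' ∩ Ico a (a + 1 / ω b))) := by
        refine measure_mono ?_
        rintro z ⟨hz1, hz2⟩
        rcases hsub hz1 with h | h
        · exact Or.inl ⟨h, hz2⟩
        · exact Or.inr ⟨h, hz2⟩
    _ ≤ volume (Th A e (σ b + e) ∩ Inn b ∩ Ico a (a + 1 / ω b)) +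
          volume (Th Aᶜ e (η b + e) ∩ G' ∩ Ico a (a + 1 / ω b)) := measure_union_le _ _
    _ ≤ ENNReal.ofReal (δ * ((φ + ε) * (1 / ω b))) +
          ENNReal.ofReal (D' * ((1 - φ + ε) * (1 / ω b))) := add_le_add e1 e2
    _ = ENNReal.ofReal ((δ * (φ + ε) + D' * (1 - φ + ε)) * (1 / ω b)) := by
        have h0 : 0 ≤ 1 - φ := by linarith
        rw [← ENNReal.ofReal_add (by positivity) (by positivity)]
        congr 1
        ring

theorem gs_density {ω : ℕ → ℝ} (hω : ∀ b, 0 < ω b) {φ : ℝ} (hφ : 0 ≤ φ) (hφ1 : φ ≤ 1)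
    {Inn : ℕ → Set ℝ} {σ η : ℕ → ℝ} (hσ : ∀ b, 0 ≤ σ b) (hη : ∀ b, 0 ≤ η b) {e : ℝ} (he : 0 ≤ e)
    {M q : ℕ} {δ ε : ℝ} (hδ : 0 ≤ δ) (hε : 0 ≤ ε)
    (hI : ∀ b < M, UD (Inn b) (1 / (2 ^ q * ω b)) δ)
    (h1 : ∀ b < M, ω b * (σ b + 2 * e) + 3 / 2 ^ q ≤ ε)
    (h2 : ∀ b < M, ω b * (η b + 2 * e) + 3 * (ω b / ω (b + 1)) ≤ ε) (hM : 3 * M * ε ≤ 1) :
    UD (Gs (fun b => {z | Int.fract (ω b * z) < φ}) Inn σ η e M 0) (1 / ω 0)
      (δ * (1 - (1 - φ) ^ M + 3 * M * ε)) := by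
  have key : ∀ j : ℕ, j ≤ M → UD (Gs (fun b => {z | Int.fract (ω b * z) < φ}) Inn σ η e M (M - j))
      (1 / ω (M - j)) (δ * (1 - (1 - φ) ^ j + 3 * j * ε)) := by
    intro j
    induction j with
    | zero =>
      intro _ a
      have h0 : Gs (fun b => {z | Int.fract (ω b * z) < φ}) Inn σ η e M (M - 0) = ∅ := by
        ext z
        refine ⟨?_, fun h => h.elim⟩
        rintro ⟨b, hb1, hb2, _⟩
        exfalso
        omega
      rw [h0, empty_inter, measure_empty]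
      exact bot_le
    | succ j ih =>
      intro hj
      have hj' : j ≤ M := by omega
      have hb : M - (j + 1) < M := by omega
      have hb1 : M - (j + 1) + 1 = M - j := by omega
      have ih' := ih hj'
      rw [← hb1] at ih'
      have hp0 : 0 ≤ (1 - φ) ^ j := pow_nonneg (by linarith) _
      have hp1 : (1 - φ) ^ j ≤ 1 := pow_le_one₀ (by linarith) (by linarith)
      have hjM : (j : ℝ) ≤ M := Nat.cast_le.2 hj'
      have hj0 : (0 : ℝ) ≤ j := Nat.cast_nonneg j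
      have hjε : 3 * (j : ℝ) * ε ≤ 1 := by
        refine le_trans ?_ hM
        gcongr
      have hjε0 : 0 ≤ 3 * (j : ℝ) * ε := by positivity
      have hD' : 0 ≤ δ * (1 - (1 - φ) ^ j + 3 * j * ε) := mul_nonneg hδ (by linarith)
      have h := gs_step hω hφ hφ1 hσ hη he hb hδ hD' (hI _ hb) (h1 _ hb) (h2 _ hb) ih'
      intro a
      refine (h a).trans (ENNReal.ofReal_le_ofReal ?_)
      refine mul_le_mul_of_nonneg_right ?_ (by have := hω (M - (j + 1)); positivity)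
      have e1 : δ * (φ + ε) + δ * (1 - (1 - φ) ^ j + 3 * j * ε) * (1 - φ + ε) =
          δ * (φ + ε + (1 - (1 - φ) ^ j + 3 * j * ε) * (1 - φ + ε)) := by ring
      rw [e1]
      refine mul_le_mul_of_nonneg_left ?_ hδ
      rw [pow_succ]
      push_cast
      nlinarith [mul_nonneg hjε0 hφ, mul_nonneg (by linarith : (0:ℝ) ≤ 2 - (1 - (1 - φ) ^ j + 3 * j * ε)) hε]
  have h := key M le_rfl
  rw [Nat.sub_self] at h
  exact h

end Pool.Agent.Helper69.GE
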