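import Mathlib

/-!
# GE-10 Choose: independent choices of the dilations

Union bound in the cube `[1, 2) ^ M`: the set of the `κ : Fin M → ℝ` in the cube with
`κ b ∈ Bad b i` for all `b` has measure `∏ |Bad b i ∩ [1, 2)| ≤ p ^ M`
(`MeasureTheory.Measure.pi_pi`, valid for all sets). The sum over `i ∈ T` is less than one, the
measure of the cube.
-/

set_option autoImplicit false

open MeasureTheory Set

namespace Pool.Agent.Helper69.GE

theorem choose_dilations {ι : Type*} (T : Finset ι) (M : ℕ) (Bad : ℕ → ι → Set ℝ) {p : ℝ}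
    (hp : 0 ≤ p) (h : ∀ b < M, ∀ i ∈ T, volume (Bad b i ∩ Ico 1 2) ≤ ENNReal.ofReal p)
    (hT : (T.card : ℝ) * p ^ M < 1) :
    ∃ κ : ℕ → ℝ, (∀ b, 1 ≤ κ b ∧ κ b ≤ 2) ∧ ∀ i ∈ T, ∃ b < M, κ b ∉ Bad b i := by
  classical
  set μ : Measure (Fin M → ℝ) := Measure.pi (fun _ : Fin M => (volume : Measure ℝ)) with hμ
  set Cu : Set (Fin M → ℝ) := Set.pi univ (fun _ : Fin M => Ico (1 : ℝ) 2) with hCu
  set Bd : ι → Set (Fin M → ℝ) := fun i => Set.pi univ (fun b : Fin M => Bad b i ∩ Ico 1 2) with hBd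
  have hC1 : μ Cu = 1 := by
    rw [hμ, hCu, Measure.pi_pi]
    refine Finset.prod_eq_one fun _ _ => ?_
    rw [Real.volume_Ico]
    norm_num
  have hB1 : ∀ i ∈ T, μ (Bd i) ≤ ENNReal.ofReal (p ^ M) := by
    intro i hi
    rw [hμ, hBd, Measure.pi_pi]
    calc ∏ b : Fin M, volume (Bad b i ∩ Ico 1 2) ≤ ∏ _b : Fin M, ENNReal.ofReal p :=
          Finset.prod_le_prod' fun b _ => h b b.2 i hi
      _ = ENNReal.ofReal (p ^ M) := by
          rw [Finset.prod_const, Finset.card_univ, Fintype.card_fin, ENNReal.ofReal_pow hp]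
  have hU : μ (⋃ i ∈ T, Bd i) < μ Cu := by
    rw [hC1]
    calc μ (⋃ i ∈ T, Bd i) ≤ ∑ i ∈ T, μ (Bd i) := measure_biUnion_finset_le _ _
      _ ≤ ∑ _i ∈ T, ENNReal.ofReal (p ^ M) := Finset.sum_le_sum hB1
      _ = ENNReal.ofReal ((T.card : ℝ) * p ^ M) := by
          rw [Finset.sum_const, nsmul_eq_mul, ENNReal.ofReal_mul (Nat.cast_nonneg _),
            ENNReal.ofReal_natCast]
      _ < 1 := by
          rw [← ENNReal.ofReal_one]
          exact (ENNReal.ofReal_lt_ofReal_iff one_pos).2 hT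
  have hex : ∃ κ ∈ Cu, κ ∉ ⋃ i ∈ T, Bd i := by
    by_contra hcon
    push Not at hcon
    exact absurd (measure_mono hcon) (not_le.2 hU)
  obtain ⟨κ, hκ, hκB⟩ := hex
  refine ⟨fun b => if hb : b < M then κ ⟨b, hb⟩ else 1, ?_, ?_⟩
  · intro b
    by_cases hb : b < M
    · simp only [dif_pos hb]
      have h1 := hκ ⟨b, hb⟩ (Set.mem_univ _)
      exact ⟨h1.1, h1.2.le⟩
    · simp only [dif_neg hb]
      norm_num
  · intro i hi
    have h1 : κ ∉ Bd i := fun h2 => hκB (Set.mem_iUnion₂.2 ⟨i, hi, h2⟩)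
    rw [hBd, Set.mem_pi] at h1
    push Not at h1
    obtain ⟨b, _, hb⟩ := h1
    refine ⟨b, b.2, ?_⟩
    simp only [dif_pos b.2]
    exact fun h3 => hb ⟨h3, hκ b (Set.mem_univ _)⟩

end Pool.Agent.Helper69.GE
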