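import Pool.Agent.Helper69.GE.Defs

/-!
# GE-22 CompactK: from the line to `ℝ ^ d`

Hypothesis `hU`: for every natural number `n` and every `δ > 0` there are an open set `U` of measure
at most `δ` in all intervals of length one, a point `p` and a vector `w` with `‖w‖ = 1` such that for
all `r` with `|rⱼ| ≤ n + 1`, `⟨r, w⟩ ≥ 1 / (n + 1)` and all `x` there is `v` with `p + v ∈ E` and
`x + ⟨r, v⟩ ∈ U`.
Let `δ n = η / (2 (d + 1) 2 ^ (n + 1))`, `U n` the corresponding sets and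
`K = [0, 1] ^ d \ ⋃ n, ⋃ l, {y | y l ∈ U n or -y l ∈ U n}`: closed in the compact cube, and the measure of
the removed part is at most `∑ n, d * 2 δ n ≤ η` (the set `{y ∈ [0, 1] ^ d | y l ∈ U}` is a product;
`-U` has measure at most `δ` in `[0, 1]` because `U` has in `[-1, 0]`).
Let `T` be an invertible linear map and `t` a vector. There is `σ > 0` with `‖T v‖ ≥ σ ‖v‖` for all `v`
(`T` is a linear equivalence of finite dimensional spaces). Take `n` with `n + 1 ≥ 1 / σ` and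
`n + 1 ≥ |T (e_j) l|` for all `j, l`. For the vector `w` of this `n`, `‖T w‖ ≥ σ ≥ 1 / (n + 1)`, so
`|(T w) l| ≥ 1 / (n + 1)` for one `l` (sup norm). Let `r j = ± T (e_j) l`, the sign such that
`⟨r, w⟩ = |(T w) l|`, and `x = ± (t + T p) l`. Then `x + ⟨r, v⟩ = ± (t + T (p + v)) l` is in `U n` for
some `v` with `p + v ∈ E`, so `t + T (p + v) ∉ K`.
-/

set_option autoImplicit false

open MeasureTheory Set

namespace Pool.Agent.Helper69.GE

private theorem vol_slab {d : ℕ} (l : Fin d) (V : Set ℝ) :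
    volume (Icc (0 : Fin d → ℝ) 1 ∩ {y | y l ∈ V}) ≤ volume (V ∩ Icc 0 1) := by
  have h1 : Icc (0 : Fin d → ℝ) 1 ∩ {y | y l ∈ V} ⊆
      Set.pi univ (fun i => if i = l then V ∩ Icc 0 1 else Icc 0 1) := by
    rintro y ⟨hy, hyV⟩ i _
    have hi : y i ∈ Icc (0 : ℝ) 1 := ⟨hy.1 i, hy.2 i⟩
    by_cases h : i = l
    · subst h
      simp only [if_true]
      exact ⟨hyV, hi⟩
    · simp only [if_neg h]
      exact hi
  refine (measure_mono h1).trans ?_
  rw [volume_pi_pi, Finset.prod_eq_single l]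
  · simp
  · intro i _ hi
    simp only [if_neg hi, Real.volume_Icc]
    simp
  · intro h
    exact absurd (Finset.mem_univ l) h

private theorem vol_neg (U : Set ℝ) :
    volume ({x : ℝ | -x ∈ U} ∩ Icc 0 1) = volume (U ∩ Icc (-1) (-1 + 1)) := by
  have h1 : {x : ℝ | -x ∈ U} ∩ Icc 0 1 = Neg.neg ⁻¹' (U ∩ Icc (-1) (-1 + 1)) := by
    ext x
    simp only [mem_inter_iff, mem_ofPred_eq, mem_Icc, mem_preimage]
    constructor
    · rintro ⟨h, h1, h2⟩
      exact ⟨h, by linarith, by linarith⟩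
    · rintro ⟨h, h1, h2⟩
      exact ⟨h, by linarith, by linarith⟩
  rw [h1]
  exact Measure.measure_preimage_neg volume _

private theorem lin_T {d : ℕ} (T : (Fin d → ℝ) ≃ₗ[ℝ] (Fin d → ℝ)) (l : Fin d) (s : ℝ) (v : Fin d → ℝ) :
    lin (fun j => s * T (Pi.single j 1) l) v = s * T v l := by
  have h1 : v = ∑ j, v j • (Pi.single j (1 : ℝ) : Fin d → ℝ) := by
    ext i
    simp [Finset.sum_apply, Pi.single_apply]
  have h2 : T v l = ∑ j, v j * T (Pi.single j 1) l := by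
    conv_lhs => rw [h1]
    rw [map_sum, Finset.sum_apply]
    refine Finset.sum_congr rfl fun j _ => ?_
    rw [map_smul]
    rfl
  rw [h2, lin, Finset.mul_sum]
  refine Finset.sum_congr rfl fun j _ => ?_
  ring

theorem compactK {d : ℕ} {E : Set (Fin d → ℝ)}
    (hU : ∀ n : ℕ, ∀ δ : ℝ, 0 < δ → ∃ (U : Set ℝ) (p w : Fin d → ℝ), IsOpen U ∧
      (∀ a : ℝ, volume (U ∩ Icc a (a + 1)) ≤ ENNReal.ofReal δ) ∧ ‖w‖ = 1 ∧
      ∀ r : Fin d → ℝ, (∀ j, |r j| ≤ n + 1) → 1 / ((n : ℝ) + 1) ≤ lin r w → ∀ x : ℝ,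
        ∃ v : Fin d → ℝ, p + v ∈ E ∧ x + lin r v ∈ U) {η : ℝ} (hη : 0 < η) :
    ∃ K : Set (Fin d → ℝ), K ⊆ Icc 0 1 ∧ IsCompact K ∧
      volume (Icc (0 : Fin d → ℝ) 1 \ K) ≤ ENNReal.ofReal η ∧
      ∀ (T : (Fin d → ℝ) ≃ₗ[ℝ] (Fin d → ℝ)) (t : Fin d → ℝ), ∃ v ∈ E, t + T v ∉ K := by
  obtain ⟨δ, hδ⟩ : ∃ δ : ℕ → ℝ, δ = fun n => η / 2 / 2 ^ n / (2 * (d + 1)) := ⟨_, rfl⟩
  have hδ0 : ∀ n, 0 < δ n := by
    intro n
    rw [hδ]
    positivity
  choose U p w hUo hUm hw hUx using fun n => hU n (δ n) (hδ0 n)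
  obtain ⟨V, hV⟩ : ∃ V : ℕ → Set ℝ, V = fun n => {x | x ∈ U n ∨ -x ∈ U n} := ⟨_, rfl⟩
  have hVo : ∀ n, IsOpen (V n) := by
    intro n
    rw [hV]
    exact (hUo n).union ((hUo n).preimage continuous_neg)
  have hVm : ∀ n, volume (V n ∩ Icc 0 1) ≤ ENNReal.ofReal (2 * δ n) := by
    intro n
    have h1 : V n ∩ Icc 0 1 = (U n ∩ Icc 0 1) ∪ ({x : ℝ | -x ∈ U n} ∩ Icc 0 1) := by
      rw [hV]
      ext x
      simp only [mem_inter_iff, mem_ofPred_eq, mem_union]
      tauto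
    rw [h1, two_mul, ENNReal.ofReal_add (hδ0 n).le (hδ0 n).le]
    refine (measure_union_le _ _).trans (add_le_add ?_ ?_)
    · have h2 := hUm n 0
      rwa [zero_add] at h2
    · rw [vol_neg]
      exact hUm n (-1)
  refine ⟨Icc 0 1 \ ⋃ n, ⋃ l, {y : Fin d → ℝ | y l ∈ V n}, sdiff_subset, ?_, ?_, ?_⟩
  · refine isCompact_Icc.diff (isOpen_iUnion fun n => isOpen_iUnion fun l => ?_)
    exact (hVo n).preimage (continuous_apply l)
  · rw [sdiff_sdiff_right_self, inter_iUnion]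
    have hs : HasSum (fun n : ℕ => η / 2 / 2 ^ n) η := hasSum_geometric_two' η
    have h1 : ∑' n : ℕ, ENNReal.ofReal (η / 2 / 2 ^ n) = ENNReal.ofReal η := by
      rw [← ENNReal.ofReal_tsum_of_nonneg (fun n => by positivity) hs.summable, hs.tsum_eq]
    rw [← h1]
    refine (measure_iUnion_le _).trans (ENNReal.tsum_le_tsum fun n => ?_)
    rw [inter_iUnion]
    refine (measure_iUnion_le _).trans ?_
    rw [tsum_fintype]
    refine (Finset.sum_le_sum fun l _ => (vol_slab l (V n)).trans (hVm n)).trans ?_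
    rw [Finset.sum_const, Finset.card_univ, Fintype.card_fin, nsmul_eq_mul, ← ENNReal.ofReal_natCast,
      ← ENNReal.ofReal_mul (Nat.cast_nonneg d)]
    apply ENNReal.ofReal_le_ofReal
    rw [hδ]
    have hd : (0 : ℝ) < (d : ℝ) + 1 := by positivity
    have e : (d : ℝ) * (2 * (η / 2 / 2 ^ n / (2 * ((d : ℝ) + 1)))) = (η / 2 / 2 ^ n) * ((d : ℝ) / (d + 1)) := by
      field_simp
    rw [e]
    refine mul_le_of_le_one_right (by positivity) ?_
    rw [div_le_one hd]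
    linarith
  · intro T t
    obtain ⟨C, hC⟩ : ∃ C : ℝ, ∀ y, ‖T.symm y‖ ≤ C * ‖y‖ :=
      ⟨_, (LinearMap.toContinuousLinearMap T.symm.toLinearMap).le_opNorm⟩
    obtain ⟨n, hn⟩ := exists_nat_ge (max C (∑ j, ∑ l, |T (Pi.single j 1) l|))
    have hn1 : C ≤ n + 1 := (le_max_left _ _).trans (hn.trans (by linarith))
    have hn2 : ∀ j l, |T (Pi.single j 1) l| ≤ n + 1 := by
      intro j l
      have h1 : |T (Pi.single j 1) l| ≤ ∑ l, |T (Pi.single j 1) l| :=
        Finset.single_le_sum (f := fun l => |T (Pi.single j 1) l|) (fun l _ => abs_nonneg _) (Finset.mem_univ l)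
      have h2 : ∑ l, |T (Pi.single j 1) l| ≤ ∑ j, ∑ l, |T (Pi.single j 1) l| :=
        Finset.single_le_sum (f := fun j => ∑ l, |T (Pi.single j 1) l|)
          (fun j _ => Finset.sum_nonneg fun l _ => abs_nonneg _) (Finset.mem_univ j)
      have h3 := le_max_right C (∑ j, ∑ l, |T (Pi.single j 1) l|)
      linarith
    have hnp : (0 : ℝ) < (n : ℝ) + 1 := by positivity
    obtain ⟨l, hl⟩ : ∃ l, 1 / ((n : ℝ) + 1) ≤ |T (w n) l| := by
      by_contra hcon
      push Not at hcon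
      have h1 : ‖T (w n)‖ < 1 / ((n : ℝ) + 1) :=
        (pi_norm_lt_iff (by positivity)).2 fun l => by rw [Real.norm_eq_abs]; exact hcon l
      have h2 := hC (T (w n))
      rw [LinearEquiv.symm_apply_apply, hw] at h2
      have h3 : C * ‖T (w n)‖ ≤ ((n : ℝ) + 1) * ‖T (w n)‖ := mul_le_mul_of_nonneg_right hn1 (norm_nonneg _)
      have h4 : ((n : ℝ) + 1) * ‖T (w n)‖ < ((n : ℝ) + 1) * (1 / ((n : ℝ) + 1)) := mul_lt_mul_of_pos_left h1 hnp
      rw [mul_one_div_cancel hnp.ne'] at h4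
      linarith
    obtain ⟨s, hs, hs2⟩ : ∃ s : ℝ, (s = 1 ∨ s = -1) ∧ s * T (w n) l = |T (w n) l| := by
      rcases le_total 0 (T (w n) l) with h | h
      · exact ⟨1, Or.inl rfl, by rw [one_mul, abs_of_nonneg h]⟩
      · exact ⟨-1, Or.inr rfl, by rw [abs_of_nonpos h]; ring⟩
    have hsa : |s| = 1 := by
      rcases hs with rfl | rfl
      · exact abs_one
      · rw [abs_neg, abs_one]
    obtain ⟨v, hv, hvU⟩ := hUx n (fun j => s * T (Pi.single j 1) l) (fun j => by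
      rw [abs_mul, hsa, one_mul]; exact hn2 j l) (by rw [lin_T, hs2]; exact hl) (s * (t + T (p n)) l)
    refine ⟨p n + v, hv, ?_⟩
    rintro ⟨-, hK⟩
    apply hK
    refine mem_iUnion.2 ⟨n, mem_iUnion.2 ⟨l, ?_⟩⟩
    have e : s * (t + T (p n)) l + lin (fun j => s * T (Pi.single j 1) l) v = s * (t + T (p n + v)) l := by
      rw [lin_T, map_add, Pi.add_apply, Pi.add_apply, Pi.add_apply]
      ring
    rw [e] at hvU
    change (t + T (p n + v)) l ∈ V n
    rw [hV]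
    rcases hs with rfl | rfl
    · left
      rwa [one_mul] at hvU
    · right
      rwa [neg_one_mul] at hvU

end Pool.Agent.Helper69.GE
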