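import Mathlib

/-!
# Project GE: sets with at most geometric decay are not measure universal. Definitions

`z ∈ H` is thought of as: `z` is a hole. `Th A a b` is the union of the intervals `[y - a, y + b]`,
`y ∈ A`; `Inr A e` is the set of points whose closed `e`-ball is contained in `A`.
-/

set_option autoImplicit false

open MeasureTheory Set

namespace Pool.Agent.Helper69.GE

/-- The union of the intervals `[y - a, y + b]`, `y ∈ A`. -/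
def Th (A : Set ℝ) (a b : ℝ) : Set ℝ := {z | ∃ y ∈ A, y - a ≤ z ∧ z ≤ y + b}

/-- The points whose closed `e`-neighbourhood is in `A`. -/
def Inr (A : Set ℝ) (e : ℝ) : Set ℝ := {z | ∀ y, |y - z| ≤ e → y ∈ A}

/-- `G` has density at most `σ` in every interval of length `τ`. -/
def UD (G : Set ℝ) (τ σ : ℝ) : Prop :=
  ∀ a : ℝ, volume (G ∩ Ico a (a + τ)) ≤ ENNReal.ofReal (σ * τ)

/-- `{z | fract (ω z + c) ≤ ψ}` -/
def Fr (ω c ψ : ℝ) : Set ℝ := {z | Int.fract (ω * z + c) ≤ ψ}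

/-- `H` is periodic with period one. -/
def Per (H : Set ℝ) : Prop := ∀ z : ℝ, z + 1 ∈ H ↔ z ∈ H

/-- `H` is a union of dyadic intervals of length `2 ^ (-m)`. -/
def Cell (m : ℕ) (H : Set ℝ) : Prop :=
  ∀ y z : ℝ, ⌊(2 : ℝ) ^ m * y⌋ = ⌊(2 : ℝ) ^ m * z⌋ → (y ∈ H ↔ z ∈ H)

/-- The pattern `[0, 2 ^ (-f)) ∩ 2 ^ (-q) H`, continued with period one. -/
def Pat (f q : ℕ) (H : Set ℝ) : Set ℝ := {z | Int.fract z < (1 / 2 : ℝ) ^ f ∧ (2 : ℝ) ^ q * z ∈ H}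

/-- `∑ rⱼ vⱼ` -/
def lin {D : ℕ} (r v : Fin D → ℝ) : ℝ := ∑ j, r j * v j

/-- The admissible parameters: `|rⱼ| ≤ R`, and `⟨r, uₙ⟩` is between `ρ 2 ^ (-n)` and `8 ρ 2 ^ (-n)`
for all `n ∈ S`, for one number `ρ` between `1 / R` and `R`. -/
structure Adm {D : ℕ} (S : Set ℕ) (u : ℕ → Fin D → ℝ) (R : ℝ) (r : Fin D → ℝ) : Prop where
  bd : ∀ j, |r j| ≤ R
  cmp : ∃ ρ : ℝ, R⁻¹ ≤ ρ ∧ ρ ≤ R ∧ ∀ n ∈ S,
    ρ * (1 / 2 : ℝ) ^ n ≤ lin r (u n) ∧ lin r (u n) ≤ 8 * ρ * (1 / 2 : ℝ) ^ n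

/-- Every interval of `C` integers in `[k, k + B)` contains an element of `S`. -/
def Block (S : Set ℕ) (C k B : ℕ) : Prop :=
  ∀ n : ℕ, k ≤ n → n + C ≤ k + B → ∃ n' ∈ S, n ≤ n' ∧ n' < n + C

/-- For every `x` and every admissible `r` some point `x + 2 ^ k ⟨r, uₙ⟩`, `n ∈ S`,
`k ≤ n < k + B`, is in `H`, together with its closed `e`-neighbourhood. -/
def Kills {D : ℕ} (S : Set ℕ) (u : ℕ → Fin D → ℝ) (R : ℝ) (k B : ℕ) (H : Set ℝ) (e : ℝ) : Prop :=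
  ∀ (x : ℝ) (r : Fin D → ℝ), Adm S u R r → ∃ n ∈ S, k ≤ n ∧ n < k + B ∧
    ∀ z : ℝ, |z - (x + 2 ^ k * lin r (u n))| ≤ e → z ∈ H

/-- Holes of density `δ` are sufficient, with a resolution `m` and a length `B` which depend on
`R` only. -/
def P (D C : ℕ) (δ : ℝ) : Prop :=
  ∀ R : ℝ, 1 ≤ R → ∃ m B : ℕ, ∀ (S : Set ℕ) (u : ℕ → Fin D → ℝ),
    (∀ n ∈ S, ∀ j, |u n j| ≤ (1 / 2 : ℝ) ^ n) → ∀ k : ℕ, Block S C k B →
      ∃ H : Set ℝ, Per H ∧ Cell m H ∧ volume (H ∩ Ico 0 1) ≤ ENNReal.ofReal δ ∧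
        Kills S u R k B H ((1 / 2 : ℝ) ^ m)

end Pool.Agent.Helper69.GE
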