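import Pool.Agent.Helper69.GE.BlockHit
import Pool.Agent.Helper69.GE.Basic

/-!
# GE-07 Escape: the set of `κ ∈ [1, 2)` which avoid the pattern at all points is exponentially small

`L = 2 ^ f`, blocks of `L` points separated by gaps of `G` points, `Nb` blocks, so
`N = Nb * (L + G)` points `w_0 < w_1 < ...`, `w_(j+1) ∈ [2 w_j, 2 ^ C' w_j]`, `w_0 ≥ 1`; `0 < e`,
`4 e ≤ 2 ^ (-(q+m+3))`, `2 ^ G e ≥ 1`.

Let `U_a = {κ ∈ [1, 2) | X + κ w_j ∉ Inr (Pat f q H) (3 e) for all j < a (L + G)}` and let `μ_0 = 0`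
and, for `a ≥ 1`, let `μ_a` be the least natural number with `2 ^ μ_a e ≥ w_l`, where
`l = (a - 1) (L + G) + L - 1` is the last point of the `a`-th block; so `2 ^ μ_a e ≤ 2 w_l` for
`a ≥ 1` (minimality: `2 ^ (μ_a - 1) e < w_l`, and `μ_a ≥ 1` as `w_l ≥ 1 > e`).
For a set `U` let `hull μ U` be the union of the dyadic intervals
`[k 2 ^ (-μ), (k + 1) 2 ^ (-μ))`, `k` an integer, which meet `U`, that is
`hull μ U = {z | ∃ y ∈ U, ⌊2 ^ μ y⌋ = ⌊2 ^ μ z⌋}`.
Claim: `|hull μ_a U_a| ≤ (1 - δ / 6000) ^ a` for `a ≤ Nb`. For `a = 0`: `hull 0 [1, 2) = [1, 2)`.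
Step: `μ_a ≤ μ_(a+1)` (`w` is increasing), so a cell of level `μ_(a+1)` which meets `U_(a+1) ⊆ U_a` is
contained in a cell of level `μ_a` which meets `U_a`. Let `κ` be in a cell of level `μ_(a+1)` with a
point `κ'` of `U_(a+1)`. For `j` in the block number `a + 1`, `|κ - κ'| w_j ≤ 2 ^ (-μ_(a+1)) w_l ≤ e`, so
`X + κ w_j ∉ Inr (Pat f q H) (4 e)` (`inr_near`: otherwise `X + κ' w_j ∈ Inr (Pat f q H) (3 e)`).
Hence `hull μ_(a+1) U_(a+1) ⊆ ⋃_Q (Q ∩ F)`, `Q` the cells of level `μ_a` which meet `U_a` (finitely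
many, `2 ^ μ_a ≤ k < 2 ^ (μ_a + 1)`), `F = {κ | X + κ w_j ∉ Inr (Pat f q H) (4 e), j in the block}`.
By `block_hit` (margin `4 e`, `h = 2 ^ (-μ_a)`, the sequence `j ↦ w (a (L + G) + j)`; its first element
times `h` is at least `1`: for `a ≥ 1` it is `≥ 2 ^ (G + 1) w_l` with `l` the last point of the
previous block, and `w_l 2 ^ (-μ_a) ≥ e / 2`; for `a = 0` it is `w_0 ≥ 1`)
`|Q ∩ F| ≤ (1 - δ / 6000) |Q|`. Sum over `Q`.
-/

set_option autoImplicit false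

open MeasureTheory Set

namespace Pool.Agent.Helper69.GE

private def hull (μ : ℕ) (U : Set ℝ) : Set ℝ :=
  {z | ∃ y ∈ U, ⌊(2 : ℝ) ^ μ * y⌋ = ⌊(2 : ℝ) ^ μ * z⌋}

private theorem floor_mono {μ μ' : ℕ} (h : μ ≤ μ') {y z : ℝ}
    (hyz : ⌊(2 : ℝ) ^ μ' * y⌋ = ⌊(2 : ℝ) ^ μ' * z⌋) :
    ⌊(2 : ℝ) ^ μ * y⌋ = ⌊(2 : ℝ) ^ μ * z⌋ := by
  obtain ⟨d, rfl⟩ := Nat.exists_eq_add_of_le h
  have key : ∀ y z : ℝ, ⌊(2 : ℝ) ^ (μ + d) * y⌋ = ⌊(2 : ℝ) ^ (μ + d) * z⌋ →
      ⌊(2 : ℝ) ^ μ * y⌋ ≤ ⌊(2 : ℝ) ^ μ * z⌋ := by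
    intro y z hyz
    rw [Int.le_floor]
    have h1 := Int.floor_le ((2 : ℝ) ^ μ * y)
    have hd : (0 : ℝ) < 2 ^ d := by positivity
    have h2 : ((⌊(2 : ℝ) ^ μ * y⌋ * 2 ^ d : ℤ) : ℝ) ≤ 2 ^ (μ + d) * y := by
      push_cast
      calc (⌊(2 : ℝ) ^ μ * y⌋ : ℝ) * 2 ^ d ≤ (2 ^ μ * y) * 2 ^ d :=
            mul_le_mul_of_nonneg_right h1 hd.le
        _ = 2 ^ (μ + d) * y := by rw [pow_add]; ring
    have h3 := Int.le_floor.2 h2
    rw [hyz] at h3
    have h4 := Int.le_floor.1 h3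
    push_cast at h4
    have h5 : (⌊(2 : ℝ) ^ μ * y⌋ : ℝ) * 2 ^ d ≤ (2 ^ μ * z) * 2 ^ d := by
      calc (⌊(2 : ℝ) ^ μ * y⌋ : ℝ) * 2 ^ d ≤ 2 ^ (μ + d) * z := h4
        _ = (2 ^ μ * z) * 2 ^ d := by rw [pow_add]; ring
    exact le_of_mul_le_mul_right h5 hd
  exact le_antisymm (key y z hyz) (key z y hyz.symm)

private theorem cell_eq (μ : ℕ) (k : ℤ) : {z : ℝ | ⌊(2 : ℝ) ^ μ * z⌋ = k} =
    Ico (k * (1 / 2 : ℝ) ^ μ) (k * (1 / 2 : ℝ) ^ μ + (1 / 2 : ℝ) ^ μ) := by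
  ext z
  rw [mem_setOf_eq, Int.floor_eq_iff, mem_Ico]
  have h2 : (0 : ℝ) < 2 ^ μ := by positivity
  have e1 : (1 / 2 : ℝ) ^ μ = (2 ^ μ)⁻¹ := by rw [one_div, inv_pow]
  have e2 : (k : ℝ) * (2 ^ μ)⁻¹ + (2 ^ μ)⁻¹ = (k + 1) / 2 ^ μ := by ring
  rw [e1, e2, ← div_eq_mul_inv, div_le_iff₀' h2, lt_div_iff₀' h2]

private theorem near {μ : ℕ} {y z : ℝ} (h : ⌊(2 : ℝ) ^ μ * y⌋ = ⌊(2 : ℝ) ^ μ * z⌋) :
    |y - z| * 2 ^ μ ≤ 1 := by
  have h1 := Int.floor_le ((2 : ℝ) ^ μ * y)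
  have h2 := Int.lt_floor_add_one ((2 : ℝ) ^ μ * y)
  have h3 := Int.floor_le ((2 : ℝ) ^ μ * z)
  have h4 := Int.lt_floor_add_one ((2 : ℝ) ^ μ * z)
  rw [← h] at h3 h4
  have e : |y - z| * 2 ^ μ = |2 ^ μ * y - 2 ^ μ * z| := by
    rw [← mul_sub, abs_mul, abs_of_pos (by positivity : (0 : ℝ) < 2 ^ μ), mul_comm]
  rw [e, abs_le]
  constructor <;> linarith

private theorem hull_step {U U' F : Set ℝ} {μ μ' : ℕ} {θ : ℝ} (hμ : μ ≤ μ')
    (hU : U' ⊆ U) (hF : hull μ' U' ⊆ F)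
    (hc : ∀ k : ℤ, volume (F ∩ {z : ℝ | ⌊(2 : ℝ) ^ μ * z⌋ = k}) ≤
      ENNReal.ofReal θ * volume {z : ℝ | ⌊(2 : ℝ) ^ μ * z⌋ = k}) :
    volume (hull μ' U') ≤ ENNReal.ofReal θ * volume (hull μ U) := by
  have h1 : hull μ' U' ⊆ F ∩ hull μ U := by
    intro z hz
    refine ⟨hF hz, ?_⟩
    obtain ⟨y, hy, hyz⟩ := hz
    exact ⟨y, hU hy, floor_mono hμ hyz⟩
  have h2 : hull μ U = ⋃ k : {k : ℤ // ∃ y ∈ U, ⌊(2 : ℝ) ^ μ * y⌋ = k},
      {z : ℝ | ⌊(2 : ℝ) ^ μ * z⌋ = (k : ℤ)} := by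
    ext z
    rw [mem_iUnion]
    constructor
    · rintro ⟨y, hy, hyz⟩
      exact ⟨⟨⌊(2 : ℝ) ^ μ * z⌋, y, hy, hyz⟩, rfl⟩
    · rintro ⟨⟨k, y, hy, hyk⟩, hz⟩
      exact ⟨y, hy, hyk.trans (show ⌊(2 : ℝ) ^ μ * z⌋ = k from hz).symm⟩
  have h3 : volume (hull μ U) = ∑' k : {k : ℤ // ∃ y ∈ U, ⌊(2 : ℝ) ^ μ * y⌋ = k},
      volume {z : ℝ | ⌊(2 : ℝ) ^ μ * z⌋ = (k : ℤ)} := by
    rw [h2]
    refine measure_iUnion ?_ ?_
    · intro k l hkl
      rw [Function.onFun, Set.disjoint_left]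
      intro z hz hz'
      apply hkl
      ext
      have e1 : ⌊(2 : ℝ) ^ μ * z⌋ = (k : ℤ) := hz
      have e2 : ⌊(2 : ℝ) ^ μ * z⌋ = (l : ℤ) := hz'
      rw [← e1, ← e2]
    · intro k
      rw [cell_eq]
      exact measurableSet_Ico
  refine (measure_mono h1).trans ?_
  rw [h3, h2, inter_iUnion, ← ENNReal.tsum_mul_left]
  refine (measure_iUnion_le _).trans ?_
  exact ENNReal.tsum_le_tsum fun k => hc k

theorem escape {f q m C' G Nb : ℕ} {H : Set ℝ} {δ e : ℝ} {w : ℕ → ℝ} (hδ : 0 < δ) (hδ1 : δ ≤ 1)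
    (hH : Per H) (hm : Cell m H)
    (hv : volume (H ∩ Ico 0 1) ≤ ENNReal.ofReal δ)
    (hv' : ENNReal.ofReal (δ / 4) ≤ volume (H ∩ Ico 0 1))
    (hq : C' * 2 ^ f + f + 1 ≤ q) (he0 : 0 < e) (he : 4 * e ≤ (1 / 2 : ℝ) ^ (q + m + 3))
    (hG : 1 ≤ 2 ^ G * e) (hw0 : 1 ≤ w 0)
    (hw : ∀ j, j + 1 < Nb * (2 ^ f + G) → 2 * w j ≤ w (j + 1) ∧ w (j + 1) ≤ 2 ^ C' * w j)
    (X : ℝ) :
    volume ({κ : ℝ | ∀ j, j < Nb * (2 ^ f + G) → X + κ * w j ∉ Inr (Pat f q H) (3 * e)} ∩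
      Ico 1 2) ≤ ENNReal.ofReal ((1 - δ / 6000) ^ Nb) := by
  obtain ⟨L, hL⟩ : ∃ L : ℕ, L = 2 ^ f := ⟨_, rfl⟩
  have hL1 : 1 ≤ L := by rw [hL]; exact Nat.one_le_two_pow
  have he1 : e ≤ 1 := by
    have h1 : (1 / 2 : ℝ) ^ (q + m + 3) ≤ 1 := pow_le_one₀ (by norm_num) (by norm_num)
    linarith
  rw [← hL] at hw ⊢
  -- growth of the sequence
  have hpos : ∀ j, j < Nb * (L + G) → 1 ≤ w j := by
    intro j
    induction j with
    | zero => intro _; exact hw0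
    | succ j ih =>
      intro hj
      have h1 := ih (by omega)
      have h2 := (hw j hj).1
      linarith
  have hgrow : ∀ k j, j + k < Nb * (L + G) → 2 ^ k * w j ≤ w (j + k) := by
    intro k
    induction k with
    | zero => intro j _; simp
    | succ k ih =>
      intro j hj
      have h1 := ih j (by omega)
      have h2 := (hw (j + k) (by omega)).1
      rw [← add_assoc, pow_succ]
      linarith
  have hmono : ∀ i j, i ≤ j → j < Nb * (L + G) → w i ≤ w j := by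
    intro i j hij hj
    obtain ⟨k, rfl⟩ := Nat.exists_eq_add_of_le hij
    have h1 := hgrow k i hj
    have h2 := hpos i (by omega)
    have h3 : (1 : ℝ) ≤ 2 ^ k := one_le_pow₀ (by norm_num)
    nlinarith
  have hθ0 : 0 ≤ 1 - δ / 6000 := by linarith
  obtain ⟨U, hUdef⟩ : ∃ U : ℕ → Set ℝ, U = fun a =>
      {κ : ℝ | ∀ j, j < a * (L + G) → X + κ * w j ∉ Inr (Pat f q H) (3 * e)} ∩ Ico 1 2 := ⟨_, rfl⟩
  have main : ∀ a, a ≤ Nb → ∃ μ : ℕ, (a < Nb → (2 : ℝ) ^ μ ≤ w (a * (L + G))) ∧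
      volume (hull μ (U a)) ≤ ENNReal.ofReal ((1 - δ / 6000) ^ a) := by
    intro a
    induction a with
    | zero =>
      intro _
      refine ⟨0, fun _ => ?_, ?_⟩
      · rw [zero_mul, pow_zero]
        exact hw0
      · have h1 : hull 0 (U 0) ⊆ Ico 1 2 := by
          rintro z ⟨y, hy, hyz⟩
          rw [hUdef] at hy
          obtain ⟨h2, h3⟩ := hy.2
          rw [pow_zero, one_mul, one_mul] at hyz
          have h4 : ⌊y⌋ = 1 := by
            rw [Int.floor_eq_iff]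
            constructor <;> push_cast <;> linarith
          rw [h4] at hyz
          have h5 := Int.floor_eq_iff.1 hyz.symm
          push_cast at h5
          exact ⟨h5.1, by linarith [h5.2]⟩
        refine (measure_mono h1).trans ?_
        rw [Real.volume_Ico, pow_zero]
        norm_num
    | succ a ih =>
      intro ha
      obtain ⟨μ, hμ1, hμ2⟩ := ih (by omega)
      have hμ1 := hμ1 (by omega)
      -- the last point of the block
      obtain ⟨l, hl⟩ : ∃ l : ℕ, l = a * (L + G) + (L - 1) := ⟨_, rfl⟩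
      have hmul : (a + 1) * (L + G) ≤ Nb * (L + G) := Nat.mul_le_mul_right _ ha
      have hmul' : (a + 1) * (L + G) = a * (L + G) + (L + G) := by ring
      have hlN : l < Nb * (L + G) := by omega
      have hwl := hpos l hlN
      obtain ⟨n, hn1, hn2⟩ := exists_nat_pow_near (x := w l / e) (y := (2 : ℝ))
        (by rw [le_div_iff₀ he0]; linarith) (by norm_num)
      rw [le_div_iff₀ he0] at hn1
      rw [div_lt_iff₀ he0] at hn2
      have hwal : w (a * (L + G)) ≤ w l := hmono _ _ (by omega) hlN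
      have hle : μ ≤ n + 1 := by
        have h1 : (2 : ℝ) ^ μ ≤ 2 ^ (n + 1) := by
          calc (2 : ℝ) ^ μ ≤ w l := hμ1.trans hwal
            _ ≤ 2 ^ (n + 1) * e := hn2.le
            _ ≤ 2 ^ (n + 1) * 1 := mul_le_mul_of_nonneg_left he1 (by positivity)
            _ = 2 ^ (n + 1) := mul_one _
        exact (pow_le_pow_iff_right₀ (by norm_num : (1 : ℝ) < 2)).1 h1
      refine ⟨n + 1, fun ha' => ?_, ?_⟩
      · have h1 : (a + 1 + 1) * (L + G) ≤ Nb * (L + G) := Nat.mul_le_mul_right _ ha'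
        have h2 : (a + 1 + 1) * (L + G) = a * (L + G) + (L + G) + (L + G) := by ring
        have h3 : (a + 1) * (L + G) = l + (G + 1) := by omega
        have h4 := hgrow (G + 1) l (by omega)
        rw [h3]
        refine le_trans ?_ h4
        calc (2 : ℝ) ^ (n + 1) = 2 * (2 ^ n * 1) := by ring
          _ ≤ 2 * (2 ^ n * (2 ^ G * e)) := by gcongr
          _ = 2 ^ (G + 1) * (2 ^ n * e) := by ring
          _ ≤ 2 ^ (G + 1) * w l := by gcongr
      · have hw' : ∀ j, j + 1 < 2 ^ f → 2 * w (a * (L + G) + j) ≤ w (a * (L + G) + (j + 1)) ∧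
            w (a * (L + G) + (j + 1)) ≤ 2 ^ C' * w (a * (L + G) + j) := by
          intro j hj
          rw [← hL] at hj
          exact hw (a * (L + G) + j) (by omega)
        have hbh := fun α => block_hit (e := 4 * e) (h := (1 / 2 : ℝ) ^ μ)
          (w := fun j => w (a * (L + G) + j)) hδ hδ1 hH hm hv hv' hq he
          (show 0 < w (a * (L + G) + 0) by
            have := hpos (a * (L + G) + 0) (by omega)
            linarith) hw'
          (show 1 ≤ w (a * (L + G) + 0) * (1 / 2 : ℝ) ^ μ by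
            rw [add_zero, one_div, inv_pow, ← div_eq_mul_inv, le_div_iff₀ (by positivity), one_mul]
            exact hμ1) X α
        have hst := hull_step (U := U a) (U' := U (a + 1))
          (F := {κ : ℝ | ∀ j, j < 2 ^ f → X + κ * w (a * (L + G) + j) ∉ Inr (Pat f q H) (4 * e)})
          (μ := μ) (μ' := n + 1) (θ := 1 - δ / 6000) hle ?_ ?_ ?_
        · refine hst.trans ?_
          calc ENNReal.ofReal (1 - δ / 6000) * volume (hull μ (U a)) ≤
              ENNReal.ofReal (1 - δ / 6000) * ENNReal.ofReal ((1 - δ / 6000) ^ a) := by gcongr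
            _ = ENNReal.ofReal ((1 - δ / 6000) ^ (a + 1)) := by
              rw [← ENNReal.ofReal_mul hθ0, pow_succ, mul_comm]
        · intro κ hκ
          rw [hUdef] at hκ ⊢
          exact ⟨fun j hj => hκ.1 j (by omega), hκ.2⟩
        · rintro z ⟨y, hy, hyz⟩
          rw [hUdef] at hy
          intro j hj hmem
          rw [← hL] at hj
          have hjN : a * (L + G) + j < Nb * (L + G) := by omega
          have h1 := hmono (a * (L + G) + j) l (by omega) hlN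
          have h2 := near hyz
          have h3 := hpos _ hjN
          have h4 : |X + y * w (a * (L + G) + j) - (X + z * w (a * (L + G) + j))| ≤ e := by
            have e1 : X + y * w (a * (L + G) + j) - (X + z * w (a * (L + G) + j)) =
                (y - z) * w (a * (L + G) + j) := by ring
            rw [e1, abs_mul, abs_of_nonneg (by linarith : (0 : ℝ) ≤ w (a * (L + G) + j))]
            calc |y - z| * w (a * (L + G) + j) ≤ |y - z| * (2 ^ (n + 1) * e) := by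
                  refine mul_le_mul_of_nonneg_left ?_ (abs_nonneg _)
                  linarith
              _ = (|y - z| * 2 ^ (n + 1)) * e := by ring
              _ ≤ 1 * e := mul_le_mul_of_nonneg_right h2 he0.le
              _ = e := one_mul e
          have e3 : 4 * e = 3 * e + e := by ring
          rw [e3] at hmem
          exact hy.1 _ (by omega) (inr_near hmem h4)
        · intro k
          have h1 := hbh (k * (1 / 2 : ℝ) ^ μ)
          rw [cell_eq]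
          refine h1.trans (le_of_eq ?_)
          rw [Real.volume_Ico, add_sub_cancel_left, ENNReal.ofReal_mul hθ0]
  obtain ⟨μ, -, h⟩ := main Nb le_rfl
  refine le_trans (measure_mono ?_) h
  intro κ hκ
  refine ⟨κ, ?_, rfl⟩
  rw [hUdef]
  exact hκ

end Pool.Agent.Helper69.GE
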