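import Pool.Agent.Helper69.GE.Escape

/-!
# GE-08 EscapeSup: all starting points `X` at the same time

If for some real `X` all points `X + κ w_j` are outside `Inr (Pat f q H) (2 e)`, let
`i = ⌊fract X / e⌋`, a natural number `≤ 1 / e`; then `|fract X - i e| ≤ e`, and by periodicity
(`pat_per`; `Inr` of a periodic set is periodic) and `inr_near` the points `i e + κ w_j` are outside
`Inr (Pat f q H) (3 e)`. So the set is contained in a union of `⌊1 / e⌋ + 1` sets of `escape`.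
-/

set_option autoImplicit false

open MeasureTheory Set

namespace Pool.Agent.Helper69.GE

private theorem es_per_int {A : Set ℝ} (h : Per A) (n : ℤ) (z : ℝ) : z + n ∈ A ↔ z ∈ A := by
  induction n using Int.induction_on with
  | zero => simp
  | succ i hi =>
    rw [← hi, ← h (z + (i : ℤ))]
    push_cast
    rw [add_assoc]
  | pred i hi =>
    rw [← hi, ← h (z + ((-(i : ℤ) - 1 : ℤ) : ℝ))]
    push_cast
    rw [show z + (-(i : ℝ) - 1) + 1 = z + -(i : ℝ) by ring]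

private theorem es_inr_per {A : Set ℝ} (h : Per A) {e : ℝ} {z : ℝ} (n : ℤ)
    (hz : z ∈ Inr A e) : z + n ∈ Inr A e := by
  intro y hy
  have h1 : y - n ∈ A := hz (y - n) (by rw [sub_sub, add_comm (n : ℝ) z]; exact hy)
  have h2 := (es_per_int h n (y - n)).2 h1
  rwa [sub_add_cancel] at h2

theorem escape_sup {f q m C' G Nb : ℕ} {H : Set ℝ} {δ e : ℝ} {w : ℕ → ℝ} (hδ : 0 < δ)
    (hδ1 : δ ≤ 1) (hH : Per H) (hm : Cell m H)
    (hv : volume (H ∩ Ico 0 1) ≤ ENNReal.ofReal δ)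
    (hv' : ENNReal.ofReal (δ / 4) ≤ volume (H ∩ Ico 0 1))
    (hq : C' * 2 ^ f + f + 1 ≤ q) (he0 : 0 < e) (he : 4 * e ≤ (1 / 2 : ℝ) ^ (q + m + 3))
    (hG : 1 ≤ 2 ^ G * e) (hw0 : 1 ≤ w 0)
    (hw : ∀ j, j + 1 < Nb * (2 ^ f + G) → 2 * w j ≤ w (j + 1) ∧ w (j + 1) ≤ 2 ^ C' * w j) :
    volume ({κ : ℝ | ∃ X : ℝ, ∀ j, j < Nb * (2 ^ f + G) →
      X + κ * w j ∉ Inr (Pat f q H) (2 * e)} ∩ Ico 1 2) ≤
        ENNReal.ofReal ((1 / e + 1) * (1 - δ / 6000) ^ Nb) := by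
  have hsub : {κ : ℝ | ∃ X : ℝ, ∀ j, j < Nb * (2 ^ f + G) →
      X + κ * w j ∉ Inr (Pat f q H) (2 * e)} ∩ Ico 1 2 ⊆
      ⋃ i ∈ Finset.range (⌊1 / e⌋₊ + 1),
        ({κ : ℝ | ∀ j, j < Nb * (2 ^ f + G) →
          ((i : ℝ) * e) + κ * w j ∉ Inr (Pat f q H) (3 * e)} ∩ Ico 1 2) := by
    rintro κ ⟨⟨X, hX⟩, hκ⟩
    have hy0 := Int.fract_nonneg X
    have hy1 := Int.fract_lt_one X
    have hd0 : 0 ≤ Int.fract X / e := div_nonneg hy0 he0.le
    have hi1 : (⌊Int.fract X / e⌋₊ : ℝ) ≤ Int.fract X / e := Nat.floor_le hd0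
    have hi2 : Int.fract X / e < (⌊Int.fract X / e⌋₊ : ℝ) + 1 := Nat.lt_floor_add_one _
    have hi3 : (⌊Int.fract X / e⌋₊ : ℝ) * e ≤ Int.fract X := by
      rwa [le_div_iff₀ he0] at hi1
    have hi4 : Int.fract X < ((⌊Int.fract X / e⌋₊ : ℝ) + 1) * e := by
      rwa [div_lt_iff₀ he0] at hi2
    refine Set.mem_biUnion (x := ⌊Int.fract X / e⌋₊) ?_ ⟨fun j hj hcon => hX j hj ?_, hκ⟩
    · rw [Finset.mem_coe, Finset.mem_range, Nat.lt_succ_iff]
      exact Nat.floor_le_floor (div_le_div_of_nonneg_right hy1.le he0.le)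
    · have h1 : Int.fract X + κ * w j ∈ Inr (Pat f q H) (2 * e) := by
        apply inr_near (s := e) (z := (⌊Int.fract X / e⌋₊ : ℝ) * e + κ * w j)
        · rw [show 2 * e + e = 3 * e by ring]
          exact hcon
        · rw [abs_le]
          constructor <;> nlinarith
      have h2 := es_inr_per (pat_per (f := f) (q := q) hH) ⌊X⌋ h1
      have h3 : Int.fract X + κ * w j + (⌊X⌋ : ℝ) = X + κ * w j := by
        have := Int.fract_add_floor X
        linarith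
      rwa [h3] at h2
  have hp : (0 : ℝ) ≤ (1 - δ / 6000) ^ Nb := pow_nonneg (by linarith) _
  refine (measure_mono hsub).trans ((measure_biUnion_finset_le _ _).trans ?_)
  have hsum : ∀ i ∈ Finset.range (⌊1 / e⌋₊ + 1),
      volume ({κ : ℝ | ∀ j, j < Nb * (2 ^ f + G) →
        (((i : ℕ) : ℝ) * e) + κ * w j ∉ Inr (Pat f q H) (3 * e)} ∩ Ico 1 2) ≤
          ENNReal.ofReal ((1 - δ / 6000) ^ Nb) := fun i _ =>
    escape hδ hδ1 hH hm hv hv' hq he0 he hG hw0 hw (((i : ℕ) : ℝ) * e)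
  refine (Finset.sum_le_sum hsum).trans ?_
  rw [Finset.sum_const, Finset.card_range, nsmul_eq_mul]
  have h4 : ((⌊1 / e⌋₊ + 1 : ℕ) : ENNReal) = ENNReal.ofReal ((⌊1 / e⌋₊ + 1 : ℕ) : ℝ) := by
    rw [ENNReal.ofReal_natCast]
  rw [h4, ← ENNReal.ofReal_mul (by positivity)]
  apply ENNReal.ofReal_le_ofReal
  apply mul_le_mul_of_nonneg_right _ hp
  push_cast
  have h5 : (⌊1 / e⌋₊ : ℝ) ≤ 1 / e := Nat.floor_le (by positivity)
  linarith

end Pool.Agent.Helper69.GE
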