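import Pool.Agent.Helper69.GE.Scale

/-!
# GE-15 Fill: holes of density between `δ / 4` and `δ`

If `|H ∩ [0, 1)| ≥ δ / 4` take `H' = H`. Otherwise let `j = ⌈δ 2 ^ m / 4⌉` and
`H' = H ∪ {z | fract z < j / 2 ^ m}`: `δ / 4 ≤ j / 2 ^ m ≤ δ / 4 + 2 ^ (-m) ≤ δ / 2 < 1`, so
`δ / 4 ≤ |H' ∩ [0, 1)| ≤ δ / 4 + δ / 2`. The added set is periodic and a union of cells of level
`m` (`fract z < j / 2 ^ m` iff `⌊2 ^ m z⌋ < 2 ^ m ⌊z⌋ + j`, and `⌊z⌋ = ⌊⌊2 ^ m z⌋ / 2 ^ m⌋`).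
-/

set_option autoImplicit false

open MeasureTheory Set

namespace Pool.Agent.Helper69.GE

private lemma floor_le_of_floor_eq {m : ℕ} {y z : ℝ}
    (h : ⌊(2 : ℝ) ^ m * y⌋ = ⌊(2 : ℝ) ^ m * z⌋) : ⌊y⌋ ≤ ⌊z⌋ := by
  have hM : (0 : ℝ) < 2 ^ m := by positivity
  rw [Int.le_floor]
  have h1 : ((2 ^ m * ⌊y⌋ : ℤ) : ℝ) ≤ 2 ^ m * y := by
    push_cast
    exact mul_le_mul_of_nonneg_left (Int.floor_le y) hM.le
  have h2 : (2 ^ m * ⌊y⌋ : ℤ) ≤ ⌊(2 : ℝ) ^ m * z⌋ := by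
    rw [← h]
    exact Int.le_floor.2 h1
  have h3 := Int.le_floor.1 h2
  push_cast at h3
  exact le_of_mul_le_mul_left h3 hM

private lemma floor_eq_of_floor_eq {m : ℕ} {y z : ℝ}
    (h : ⌊(2 : ℝ) ^ m * y⌋ = ⌊(2 : ℝ) ^ m * z⌋) : ⌊y⌋ = ⌊z⌋ :=
  le_antisymm (floor_le_of_floor_eq h) (floor_le_of_floor_eq h.symm)

private lemma fract_lt_iff {m j : ℕ} (y : ℝ) :
    Int.fract y < j / 2 ^ m ↔ ⌊(2 : ℝ) ^ m * y⌋ < 2 ^ m * ⌊y⌋ + j := by
  have hM : (0 : ℝ) < 2 ^ m := by positivity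
  rw [Int.floor_lt, lt_div_iff₀ hM]
  push_cast
  have h : Int.fract y = y - ⌊y⌋ := rfl
  rw [h]
  constructor
  · intro h1
    linarith
  · intro h1
    linarith

theorem fill {m : ℕ} {H : Set ℝ} {δ : ℝ} (hδ : 0 < δ) (hδ1 : δ ≤ 1) (hH : Per H) (hm : Cell m H)
    (hv : volume (H ∩ Ico 0 1) ≤ ENNReal.ofReal δ) (hm2 : (1 / 2 : ℝ) ^ m ≤ δ / 4) :
    ∃ H' : Set ℝ, H ⊆ H' ∧ Per H' ∧ Cell m H' ∧ volume (H' ∩ Ico 0 1) ≤ ENNReal.ofReal δ ∧
      ENNReal.ofReal (δ / 4) ≤ volume (H' ∩ Ico 0 1) := by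
  by_cases hc : ENNReal.ofReal (δ / 4) ≤ volume (H ∩ Ico 0 1)
  · exact ⟨H, Subset.rfl, hH, hm, hv, hc⟩
  · have hc' : volume (H ∩ Ico 0 1) ≤ ENNReal.ofReal (δ / 4) := le_of_lt (not_le.1 hc)
    have hM : (0 : ℝ) < 2 ^ m := by positivity
    have hM2 : (1 : ℝ) / 2 ^ m ≤ δ / 4 := by
      rw [one_div_pow] at hm2
      exact hm2
    obtain ⟨j, hj⟩ : ∃ j : ℕ, j = ⌈δ * 2 ^ m / 4⌉₊ := ⟨_, rfl⟩
    have hj1 : δ * 2 ^ m / 4 ≤ j := by rw [hj]; exact Nat.le_ceil _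
    have hj2 : (j : ℝ) < δ * 2 ^ m / 4 + 1 := by
      rw [hj]
      exact Nat.ceil_lt_add_one (by positivity)
    obtain ⟨t, ht⟩ : ∃ t : ℝ, t = j / 2 ^ m := ⟨_, rfl⟩
    have ht1 : δ / 4 ≤ t := by
      rw [ht, le_div_iff₀ hM]
      linarith
    have ht2 : t ≤ δ / 2 := by
      rw [ht, div_le_iff₀ hM]
      rw [div_le_iff₀ hM] at hM2
      linarith
    have hG : {z : ℝ | Int.fract z < j / 2 ^ m} ∩ Ico 0 1 = Ico 0 t := by
      ext z
      constructor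
      · rintro ⟨h1, h2⟩
        have h3 : Int.fract z = z := Int.fract_eq_self.2 ⟨h2.1, h2.2⟩
        have h4 : Int.fract z < j / 2 ^ m := h1
        rw [h3, ← ht] at h4
        exact ⟨h2.1, h4⟩
      · rintro ⟨h1, h2⟩
        have h5 : z < 1 := by linarith
        have h3 : Int.fract z = z := Int.fract_eq_self.2 ⟨h1, h5⟩
        refine ⟨?_, h1, h5⟩
        show Int.fract z < j / 2 ^ m
        rw [h3, ← ht]
        exact h2
    refine ⟨H ∪ {z : ℝ | Int.fract z < j / 2 ^ m}, subset_union_left, ?_, ?_, ?_, ?_⟩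
    · intro z
      have h1 := hH z
      have h2 : Int.fract (z + 1) = Int.fract z := Int.fract_add_one z
      constructor
      · rintro (h | h)
        · exact Or.inl (h1.1 h)
        · refine Or.inr ?_
          have h3 : Int.fract (z + 1) < j / 2 ^ m := h
          rw [h2] at h3
          exact h3
      · rintro (h | h)
        · exact Or.inl (h1.2 h)
        · refine Or.inr ?_
          show Int.fract (z + 1) < j / 2 ^ m
          rw [h2]
          exact h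
    · intro y z hyz
      have h1 := hm y z hyz
      have h2 := floor_eq_of_floor_eq hyz
      have h3 : Int.fract y < j / 2 ^ m ↔ Int.fract z < j / 2 ^ m := by
        rw [fract_lt_iff, fract_lt_iff, hyz, h2]
      constructor
      · rintro (h | h)
        · exact Or.inl (h1.1 h)
        · exact Or.inr (h3.1 h)
      · rintro (h | h)
        · exact Or.inl (h1.2 h)
        · exact Or.inr (h3.2 h)
    · rw [union_inter_distrib_right, hG]
      refine (measure_union_le _ _).trans ?_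
      rw [Real.volume_Ico, sub_zero]
      refine (add_le_add hc' le_rfl).trans ?_
      rw [← ENNReal.ofReal_add (by linarith) (by linarith)]
      exact ENNReal.ofReal_le_ofReal (by linarith)
    · rw [union_inter_distrib_right, hG]
      refine le_trans ?_ (measure_mono subset_union_right)
      rw [Real.volume_Ico, sub_zero]
      exact ENNReal.ofReal_le_ofReal ht1

end Pool.Agent.Helper69.GE
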