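import Pool.Agent.Helper69.GE.Basic
import Pool.Agent.Helper69.GE.Scale

/-!
# GE-21 Hole: an open set of holes for one class of linear forms

Let `P d C δ` for all `δ > 0`, `‖w‖ = 1`, `1 ≤ A`, `d A ε ≤ 1 / (3 A)`, and suppose that for every `B`
there are `p, S, u, k` as in `runs_class`. Then for every `δ > 0` there are an open set `U` with
`|U ∩ [a, a + 1]| ≤ δ` for all `a` and a point `p` such that for all `r` with `|rⱼ| ≤ A` and
`⟨r, w⟩ ≥ 1 / A` and all `x` there is `v` with `p + v ∈ E` and `x + ⟨r, v⟩ ∈ U`.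
Proof. `R = 3 A (d + 1)`. For `n ∈ S` let `w' = u n / ‖u n‖`; `|⟨r, w'⟩ - ⟨r, w⟩| ≤ d A ε ≤ a / 3`,
`a = ⟨r, w⟩ ∈ [1 / A, d A]`, so `⟨r, u n⟩ = ‖u n‖ ⟨r, w'⟩` is between `(a / 3) 2 ^ (-n)` and
`(4 a / 3) 2 ^ (-n)`, and `r` is admissible with `ρ = a / 3`. Take `m`, `B` from `P d C (δ / 2)` for `R`,
the data for `B`, and the killer `H` for the block `[k, k + B)`. Let `U` be the preimage of the interior
of `H` under `z ↦ 2 ^ k z`. Its density is at most `δ / 2` at scale `2 ^ (-k)` (`per_scale_ud`), so its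
measure in an interval of length one is at most `(δ / 2) (1 + 2 ^ (-k)) ≤ δ` (`ud_length`).
`2 ^ k (x + ⟨r, u n⟩)` is in the interior of `H` for one `n`, because its `2 ^ (-m)`-neighbourhood
is in `H`.
-/

set_option autoImplicit false

open MeasureTheory Set

namespace Pool.Agent.Helper69.GE

private theorem lin_sub_le {d : ℕ} {r v w : Fin d → ℝ} {A ε : ℝ} (hA : 0 ≤ A)
    (hr : ∀ j, |r j| ≤ A) (h : ‖v - w‖ ≤ ε) : |lin r v - lin r w| ≤ d * A * ε := by
  unfold lin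
  rw [← Finset.sum_sub_distrib]
  refine (Finset.abs_sum_le_sum_abs _ _).trans ?_
  have h1 : ∀ j ∈ (Finset.univ : Finset (Fin d)), |r j * v j - r j * w j| ≤ A * ε := by
    intro j _
    rw [← mul_sub, abs_mul]
    have h2 : |v j - w j| ≤ ε := (norm_le_pi_norm (v - w) j).trans h
    exact mul_le_mul (hr j) h2 (abs_nonneg _) hA
  refine (Finset.sum_le_sum h1).trans (le_of_eq ?_)
  rw [Finset.sum_const, Finset.card_univ, Fintype.card_fin, nsmul_eq_mul]
  ring

private theorem lin_smul {d : ℕ} (r v : Fin d → ℝ) (c : ℝ) : lin r (c • v) = c * lin r v := by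
  unfold lin
  rw [Finset.mul_sum]
  refine Finset.sum_congr rfl fun j _ => ?_
  rw [Pi.smul_apply, smul_eq_mul]
  ring

theorem hole {d C : ℕ} {E : Set (Fin d → ℝ)} {w : Fin d → ℝ} {A ε : ℝ}
    (hP : ∀ δ : ℝ, 0 < δ → P d C δ) (hw : ‖w‖ = 1) (hA : 1 ≤ A) (hε : d * A * ε ≤ 1 / (3 * A))
    (hE : ∀ B : ℕ, ∃ (p : Fin d → ℝ) (S : Set ℕ) (u : ℕ → Fin d → ℝ) (k : ℕ),
      Block S C k B ∧ ∀ n ∈ S, p + u n ∈ E ∧ (1 / 2 : ℝ) ^ (n + 1) < ‖u n‖ ∧
        ‖u n‖ ≤ (1 / 2 : ℝ) ^ n ∧ ‖(‖u n‖⁻¹) • u n - w‖ ≤ ε) {δ : ℝ} (hδ : 0 < δ) :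
    ∃ (U : Set ℝ) (p : Fin d → ℝ), IsOpen U ∧
      (∀ a : ℝ, volume (U ∩ Icc a (a + 1)) ≤ ENNReal.ofReal δ) ∧
      ∀ r : Fin d → ℝ, (∀ j, |r j| ≤ A) → 1 / A ≤ lin r w → ∀ x : ℝ, ∃ v : Fin d → ℝ,
        p + v ∈ E ∧ x + lin r v ∈ U := by
  have hA0 : 0 < A := lt_of_lt_of_le one_pos hA
  have hd0 : (0 : ℝ) ≤ d := Nat.cast_nonneg d
  set R : ℝ := 3 * A * (d + 1) with hR
  have hAR : 3 * A ≤ R := by
    rw [hR]
    nlinarith
  have hR1 : 1 ≤ R := by linarith
  obtain ⟨m, B, hmB⟩ := hP (δ / 2) (half_pos hδ) R hR1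
  obtain ⟨p, S, u, k, hblock, hS⟩ := hE B
  obtain ⟨H, hper, hcell, hvol, hkill⟩ := hmB S u
    (fun n hn j => (norm_le_pi_norm (u n) j).trans (hS n hn).2.2.1) k hblock
  have hmeas := cell_measurable hcell
  have hk0 : (0 : ℝ) < 2 ^ k := by positivity
  have hk1 : (1 : ℝ) ≤ 2 ^ k := one_le_pow₀ (by norm_num)
  refine ⟨(fun z : ℝ => 2 ^ k * z) ⁻¹' interior H, p,
    isOpen_interior.preimage (continuous_const.mul continuous_id), ?_, ?_⟩
  · intro a
    have hud := per_scale_ud hper hmeas (half_pos hδ).le hvol hk0 0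
    have hlen := ud_length (one_div_pos.2 hk0) (half_pos hδ).le hud a (l := 1) one_pos.le
    have hsub : (fun z : ℝ => 2 ^ k * z) ⁻¹' interior H ∩ Icc a (a + 1) ⊆
        ({z : ℝ | 2 ^ k * z + 0 ∈ H} ∩ Ico a (a + 1)) ∪ {a + 1} := by
      rintro z ⟨hz1, hz2⟩
      have hz3 : 2 ^ k * z ∈ H := interior_subset hz1
      rcases lt_or_eq_of_le hz2.2 with h | h
      · left
        exact ⟨by rw [mem_setOf_eq, add_zero]; exact hz3, hz2.1, h⟩
      · right
        exact h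
    calc volume ((fun z : ℝ => 2 ^ k * z) ⁻¹' interior H ∩ Icc a (a + 1))
        ≤ volume (({z : ℝ | 2 ^ k * z + 0 ∈ H} ∩ Ico a (a + 1)) ∪ {a + 1}) :=
          measure_mono hsub
      _ ≤ volume ({z : ℝ | 2 ^ k * z + 0 ∈ H} ∩ Ico a (a + 1)) + volume {a + 1} :=
          measure_union_le _ _
      _ = volume ({z : ℝ | 2 ^ k * z + 0 ∈ H} ∩ Ico a (a + 1)) := by
          rw [Real.volume_singleton, add_zero]
      _ ≤ ENNReal.ofReal (δ / 2 * (1 + 1 / 2 ^ k)) := hlen
      _ ≤ ENNReal.ofReal δ := by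
          refine ENNReal.ofReal_le_ofReal ?_
          have h1 : (1 : ℝ) / 2 ^ k ≤ 1 := by
            rw [div_le_one hk0]
            exact hk1
          nlinarith
  · intro r hr hrw x
    set a : ℝ := lin r w with ha
    have ha0 : 0 < a := lt_of_lt_of_le (one_div_pos.2 hA0) hrw
    have haup : a ≤ d * A := by
      have h1 : ‖w - 0‖ ≤ 1 := by rw [sub_zero, hw]
      have h2 := lin_sub_le hA0.le hr h1
      have h3 : lin r (0 : Fin d → ℝ) = 0 := by
        unfold lin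
        simp
      rw [h3, sub_zero, mul_one] at h2
      exact (le_abs_self _).trans h2
    have hadm : Adm S u R r := by
      refine ⟨fun j => (hr j).trans (by linarith), a / 3, ?_, ?_, ?_⟩
      · have h1 : R⁻¹ ≤ (3 * A)⁻¹ := inv_anti₀ (by linarith) hAR
        have h2 : (3 * A)⁻¹ = 1 / A / 3 := by
          field_simp
        rw [h2] at h1
        linarith
      · rw [hR]
        nlinarith
      · intro n hn
        obtain ⟨-, h1, h2, h3⟩ := hS n hn
        have hun : 0 < ‖u n‖ := lt_trans (by positivity) h1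
        have h4 := lin_sub_le hA0.le hr h3
        rw [lin_smul] at h4
        have h5 : d * A * ε ≤ a / 3 := by
          refine hε.trans ?_
          have h6 : 1 / (3 * A) = 1 / A / 3 := by
            field_simp
          rw [h6]
          linarith
        have h7 := abs_le.1 (h4.trans h5)
        have h8 : lin r (u n) = ‖u n‖ * (‖u n‖⁻¹ * lin r (u n)) := by
          rw [← mul_assoc, mul_inv_cancel₀ hun.ne', one_mul]
        have h9 : (1 / 2 : ℝ) ^ (n + 1) = (1 / 2 : ℝ) ^ n / 2 := by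
          rw [pow_succ]
          ring
        rw [h9] at h1
        have h10 : 0 < (1 / 2 : ℝ) ^ n := by positivity
        rw [h8]
        constructor
        · have h11 : ‖u n‖ * (2 * a / 3) ≤ ‖u n‖ * (‖u n‖⁻¹ * lin r (u n)) :=
            mul_le_mul_of_nonneg_left (by linarith [h7.1]) hun.le
          nlinarith
        · have h11 : ‖u n‖ * (‖u n‖⁻¹ * lin r (u n)) ≤ ‖u n‖ * (4 * a / 3) :=
            mul_le_mul_of_nonneg_left (by linarith [h7.2]) hun.le
          nlinarith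
    obtain ⟨n, hn, -, -, hz⟩ := hkill (2 ^ k * x) r hadm
    refine ⟨u n, (hS n hn).1, ?_⟩
    show 2 ^ k * (x + lin r (u n)) ∈ interior H
    rw [mem_interior]
    refine ⟨Metric.ball (2 ^ k * (x + lin r (u n))) ((1 / 2 : ℝ) ^ m), ?_, Metric.isOpen_ball,
      Metric.mem_ball_self (by positivity)⟩
    intro z hzb
    rw [Metric.mem_ball, Real.dist_eq] at hzb
    refine hz z ?_
    rw [← mul_add]
    exact hzb.le

end Pool.Agent.Helper69.GE
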