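import Pool.Agent.Helper69.GE.Rich

/-!
# GE-20 Runs: sets with long runs; the directions

`Runs E c`: for every `N` there are a point `p` and vectors `v 0, ..., v N`, `p + v i ∈ E`, `v i ≠ 0`,
`‖v 0‖ ≤ 1`, `c ‖v i‖ ≤ ‖v (i + 1)‖ ≤ ‖v i‖ / 2`.

`runs_seq`: a sequence `e n → p`, `e n ≠ p`, `‖e (n + 1) - p‖ ≥ c ‖e n - p‖` has `Runs (range e) (c / 2)`:
choose `i 0` with `‖e (i 0) - p‖ ≤ 1` and `i (j + 1)` the least index `> i j` with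
`‖e (i (j + 1)) - p‖ ≤ ‖e (i j) - p‖ / 2`; for the index before it the norm is larger than
`‖e (i j) - p‖ / 2` or it is `i j` itself, so `‖e (i (j + 1)) - p‖ ≥ (c / 2) ‖e (i j) - p‖`.

`runs_class`: for every `ε > 0` there are a gap `C` and a vector `ŵ` with `‖ŵ‖ = 1` such that for every
length `B` there are `p`, a set `S` of natural numbers, vectors `u n` and `k` with `Block S C k B` and,
for all `n ∈ S`, `p + u n ∈ E`, `2 ^ (-(n+1)) < ‖u n‖ ≤ 2 ^ (-n)` and `‖u n / ‖u n‖ - ŵ‖ ≤ ε`.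
Proof. For the run with index `N` let `S N` be the set of the `n` such that
`2 ^ (-(n+1)) < ‖v i‖ ≤ 2 ^ (-n)` for some `i ≤ N`, and `u N n = v i` for such an `i`. Let `n_i` be the
scale of `v i`; `n_(i+1) ≥ n_i + 1`, and `n_(i+1) ≤ n_i + C₀` if `c ≥ 2 ^ (-(C₀ - 1))`. So
`Block (S N) C₀ n_0 N`: given `n ≥ n_0` with `n + C₀ ≤ n_0 + N` take the least `i` with `n_i ≥ n`
(`i ≤ N` as `n_N ≥ n_0 + N`); then `n_i < n + C₀`. So the family `S` is rich. Colour `n ∈ S N` by the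
function `l ↦ ⌊(u N n / ‖u N n‖) l / ε⌋`, which takes finitely many values (`Fin d → Finset.Icc`). By
`rich_finite` one colour class `T a` is rich; let `ŵ` be the direction of one of its elements.
Directions of the same colour differ by at most `ε` in every coordinate.
-/

set_option autoImplicit false

open Filter Topology

namespace Pool.Agent.Helper69.GE

/-- `E` has long runs. -/
def Runs {d : ℕ} (E : Set (Fin d → ℝ)) (c : ℝ) : Prop :=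
  ∀ N : ℕ, ∃ (p : Fin d → ℝ) (v : ℕ → Fin d → ℝ), ‖v 0‖ ≤ 1 ∧ ∀ i ≤ N, v i ≠ 0 ∧ p + v i ∈ E ∧
    (i < N → c * ‖v i‖ ≤ ‖v (i + 1)‖ ∧ ‖v (i + 1)‖ ≤ ‖v i‖ / 2)

theorem runs_seq {d : ℕ} {e : ℕ → Fin d → ℝ} {p : Fin d → ℝ} {c : ℝ} (hc : 0 < c)
    (hne : ∀ n, e n ≠ p) (hlim : Tendsto e atTop (𝓝 p))
    (h : ∀ n, c * ‖e n - p‖ ≤ ‖e (n + 1) - p‖) : Runs (Set.range e) (c / 2) := by
  classical
  have hpos : ∀ n, 0 < ‖e n - p‖ := fun n => norm_pos_iff.mpr (sub_ne_zero.mpr (hne n))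
  have hlim' : Tendsto (fun n => ‖e n - p‖) atTop (𝓝 0) := by
    have h1 := (hlim.sub_const p).norm
    rwa [sub_self, norm_zero] at h1
  have step : ∀ n, ∃ m, ‖e m - p‖ ≤ ‖e n - p‖ / 2 ∧ c / 2 * ‖e n - p‖ ≤ ‖e m - p‖ := by
    intro n
    have hex : ∃ m, n < m ∧ ‖e m - p‖ ≤ ‖e n - p‖ / 2 := by
      have h1 : ∀ᶠ m in atTop, ‖e m - p‖ < ‖e n - p‖ / 2 :=
        hlim'.eventually (gt_mem_nhds (half_pos (hpos n)))
      obtain ⟨m, hm1, hm2⟩ := (h1.and (eventually_gt_atTop n)).exists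
      exact ⟨m, hm2, hm1.le⟩
    obtain ⟨h1, h2⟩ := Nat.find_spec hex
    refine ⟨Nat.find hex, h2, ?_⟩
    obtain ⟨m', hm'⟩ : ∃ m', Nat.find hex = m' + 1 := ⟨Nat.find hex - 1, by omega⟩
    have h3 := h m'
    rw [← hm'] at h3
    refine le_trans ?_ h3
    have h4 : ‖e n - p‖ / 2 ≤ ‖e m' - p‖ := by
      rcases Nat.lt_or_ge n m' with h5 | h5
      · have h6 := Nat.find_min hex (m := m') (by omega)
        push Not at h6
        exact (h6 h5).le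
      · have h6 : m' = n := by omega
        rw [h6]
        have := hpos n
        linarith
    calc c / 2 * ‖e n - p‖ = c * (‖e n - p‖ / 2) := by ring
      _ ≤ c * ‖e m' - p‖ := mul_le_mul_of_nonneg_left h4 hc.le
  choose f hf1 hf2 using step
  obtain ⟨i0, hi0⟩ : ∃ i0, ‖e i0 - p‖ ≤ 1 := by
    have h1 : ∀ᶠ m in atTop, ‖e m - p‖ < 1 := hlim'.eventually (gt_mem_nhds one_pos)
    obtain ⟨m, hm⟩ := h1.exists
    exact ⟨m, hm.le⟩
  intro N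
  refine ⟨p, fun j => e (f^[j] i0) - p, hi0, fun j _ => ⟨sub_ne_zero.mpr (hne _), ?_, fun _ => ?_⟩⟩
  · refine ⟨f^[j] i0, ?_⟩
    rw [add_sub_cancel]
  · simp only [Function.iterate_succ_apply']
    exact ⟨hf2 _, hf1 _⟩

/-- the scales of one run form a block -/
private theorem run_block {C₀ N : ℕ} {sc : ℕ → ℕ} (hC₀ : 1 ≤ C₀)
    (h1 : ∀ i < N, sc i + 1 ≤ sc (i + 1) ∧ sc (i + 1) < sc i + C₀) (n : ℕ) (hn : sc 0 ≤ n)
    (hn' : n + C₀ ≤ sc 0 + N) : ∃ i ≤ N, n ≤ sc i ∧ sc i < n + C₀ := by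
  have key : ∀ i ≤ N, n ≤ sc i → ∃ j ≤ i, n ≤ sc j ∧ sc j < n + C₀ := by
    intro i
    induction i with
    | zero =>
      intro _ h2
      exact ⟨0, le_rfl, h2, by omega⟩
    | succ i ih =>
      intro hi h2
      by_cases h3 : n ≤ sc i
      · obtain ⟨j, hj, h4⟩ := ih (by omega) h3
        exact ⟨j, by omega, h4⟩
      · have h4 := (h1 i (by omega)).2
        exact ⟨i + 1, le_rfl, h2, by omega⟩
  have grow : ∀ i ≤ N, sc 0 + i ≤ sc i := by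
    intro i
    induction i with
    | zero => intro _; exact le_rfl
    | succ i ih =>
      intro hi
      have h2 := ih (by omega)
      have h3 := (h1 i (by omega)).1
      omega
  have h2 := grow N le_rfl
  exact key N le_rfl (by omega)

theorem runs_class {d : ℕ} {E : Set (Fin d → ℝ)} {c : ℝ} (hc : 0 < c) (h : Runs E c) {ε : ℝ}
    (hε : 0 < ε) :
    ∃ (C : ℕ) (w : Fin d → ℝ), ‖w‖ = 1 ∧ ∀ B : ℕ, ∃ (p : Fin d → ℝ) (S : Set ℕ)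
      (u : ℕ → Fin d → ℝ) (k : ℕ), Block S C k B ∧ ∀ n ∈ S, p + u n ∈ E ∧
        (1 / 2 : ℝ) ^ (n + 1) < ‖u n‖ ∧ ‖u n‖ ≤ (1 / 2 : ℝ) ^ n ∧ ‖(‖u n‖⁻¹) • u n - w‖ ≤ ε := by
  classical
  choose p v hv0 hv using h
  have hhalf : (0 : ℝ) < 1 / 2 := by norm_num
  have hhalf1 : (1 / 2 : ℝ) < 1 := by norm_num
  -- the norms are at most one
  have hle : ∀ N, ∀ i ≤ N, ‖v N i‖ ≤ 1 := by
    intro N i
    induction i with
    | zero => intro _; exact hv0 N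
    | succ i ih =>
      intro hi
      have h1 := ih (by omega)
      have h2 := ((hv N i (by omega)).2.2 (by omega)).2
      have h3 := norm_nonneg (v N i)
      linarith
  have hsc : ∀ N i, ∃ n : ℕ, i ≤ N → (1 / 2 : ℝ) ^ (n + 1) < ‖v N i‖ ∧
      ‖v N i‖ ≤ (1 / 2 : ℝ) ^ n := by
    intro N i
    by_cases hi : i ≤ N
    · obtain ⟨n, hn⟩ := exists_nat_pow_near_of_lt_one (norm_pos_iff.mpr (hv N i hi).1) (hle N i hi)
        hhalf hhalf1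
      exact ⟨n, fun _ => hn⟩
    · exact ⟨0, fun h => absurd h hi⟩
  choose sc hsc using hsc
  obtain ⟨M, hM⟩ := exists_pow_lt_of_lt_one hc hhalf1
  have hstep : ∀ N, ∀ i < N, sc N i + 1 ≤ sc N (i + 1) ∧ sc N (i + 1) < sc N i + (M + 1) := by
    intro N i hi
    obtain ⟨a1, a2⟩ := hsc N i hi.le
    obtain ⟨b1, b2⟩ := hsc N (i + 1) hi
    obtain ⟨c1, c2⟩ := (hv N i hi.le).2.2 hi
    constructor
    · have h1 : (1 / 2 : ℝ) ^ (sc N (i + 1) + 1) < (1 / 2 : ℝ) ^ (sc N i + 1) := by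
        calc (1 / 2 : ℝ) ^ (sc N (i + 1) + 1) < ‖v N (i + 1)‖ := b1
          _ ≤ ‖v N i‖ / 2 := c2
          _ ≤ (1 / 2 : ℝ) ^ (sc N i) / 2 := div_le_div_of_nonneg_right a2 (by norm_num)
          _ = (1 / 2 : ℝ) ^ (sc N i + 1) := by
              rw [pow_succ]
              ring
      have h2 := (pow_lt_pow_iff_right_of_lt_one₀ hhalf hhalf1).mp h1
      omega
    · have h1 : (1 / 2 : ℝ) ^ (sc N i + (M + 1)) < (1 / 2 : ℝ) ^ (sc N (i + 1)) := by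
        calc (1 / 2 : ℝ) ^ (sc N i + (M + 1)) = (1 / 2 : ℝ) ^ M * (1 / 2 : ℝ) ^ (sc N i + 1) := by
              rw [← pow_add]
              congr 1
              ring
          _ < c * ‖v N i‖ := mul_lt_mul'' hM a1 (by positivity) (by positivity)
          _ ≤ ‖v N (i + 1)‖ := c1
          _ ≤ (1 / 2 : ℝ) ^ (sc N (i + 1)) := b2
      exact (pow_lt_pow_iff_right_of_lt_one₀ hhalf hhalf1).mp h1
  -- the sets of scales
  have hu : ∀ N n, ∃ i : ℕ, (∃ i ≤ N, (1 / 2 : ℝ) ^ (n + 1) < ‖v N i‖ ∧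
      ‖v N i‖ ≤ (1 / 2 : ℝ) ^ n) → i ≤ N ∧ (1 / 2 : ℝ) ^ (n + 1) < ‖v N i‖ ∧
      ‖v N i‖ ≤ (1 / 2 : ℝ) ^ n := by
    intro N n
    by_cases hex : ∃ i ≤ N, (1 / 2 : ℝ) ^ (n + 1) < ‖v N i‖ ∧ ‖v N i‖ ≤ (1 / 2 : ℝ) ^ n
    · obtain ⟨i, hi⟩ := hex
      exact ⟨i, fun _ => hi⟩
    · exact ⟨0, fun h => absurd h hex⟩
  choose ix hix using hu
  obtain ⟨S, hS⟩ : ∃ S : ℕ → Set ℕ, S = fun N => {n | ∃ i ≤ N, (1 / 2 : ℝ) ^ (n + 1) < ‖v N i‖ ∧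
      ‖v N i‖ ≤ (1 / 2 : ℝ) ^ n} := ⟨_, rfl⟩
  have hSm : ∀ N n, n ∈ S N ↔ ∃ i ≤ N, (1 / 2 : ℝ) ^ (n + 1) < ‖v N i‖ ∧
      ‖v N i‖ ≤ (1 / 2 : ℝ) ^ n := by
    intro N n
    rw [hS]
    rfl
  have hrich : Rich S := by
    refine ⟨M + 1, fun B => ⟨B, sc B 0, fun n h1 h2 => ?_⟩⟩
    obtain ⟨i, hi, h3, h4⟩ := run_block (by omega) (hstep B) n h1 h2
    exact ⟨sc B i, (hSm B _).mpr ⟨i, hi, hsc B i hi⟩, h3, h4⟩
  -- the colours
  obtain ⟨K, hK⟩ : ∃ K : ℕ, K = ⌊2 / ε⌋₊ + 1 := ⟨_, rfl⟩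
  obtain ⟨dir, hdir⟩ : ∃ dir : ℕ → ℕ → Fin d → ℝ,
      dir = fun N n => ‖v N (ix N n)‖⁻¹ • v N (ix N n) := ⟨_, rfl⟩
  obtain ⟨T, hT⟩ : ∃ T : (Fin d → Fin K) → ℕ → Set ℕ,
      T = fun a N => {n | n ∈ S N ∧ ∀ l, ⌊(dir N n l + 1) / ε⌋₊ = (a l : ℕ)} := ⟨_, rfl⟩
  have hTm : ∀ a N n, n ∈ T a N ↔ n ∈ S N ∧ ∀ l, ⌊(dir N n l + 1) / ε⌋₊ = (a l : ℕ) := by
    intro a N n
    rw [hT]
    rfl
  have hdn : ∀ N n, n ∈ S N → ‖dir N n‖ = 1 := by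
    intro N n hn
    obtain ⟨h1, h2, -⟩ := hix N n ((hSm N n).mp hn)
    have h3 : 0 < ‖v N (ix N n)‖ := lt_trans (by positivity) h2
    rw [hdir]
    simp only
    rw [norm_smul, norm_inv, norm_norm, inv_mul_cancel₀ h3.ne']
  have hdl : ∀ N n, n ∈ S N → ∀ l, -1 ≤ dir N n l ∧ dir N n l ≤ 1 := by
    intro N n hn l
    have h1 := norm_le_pi_norm (dir N n) l
    rw [hdn N n hn, Real.norm_eq_abs, abs_le] at h1
    exact h1
  obtain ⟨a, ha⟩ := rich_finite T (rich_mono (S := S) (fun N n hn => by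
    have h1 : ∀ l, ⌊(dir N n l + 1) / ε⌋₊ < K := by
      intro l
      rw [hK, Nat.lt_succ_iff]
      refine Nat.floor_le_floor ?_
      refine div_le_div_of_nonneg_right ?_ hε.le
      have := (hdl N n hn l).2
      linarith
    exact ⟨fun l => ⟨⌊(dir N n l + 1) / ε⌋₊, h1 l⟩, (hTm _ N n).mpr ⟨hn, fun l => rfl⟩⟩) hrich)
  obtain ⟨C, hC⟩ := ha
  obtain ⟨N₀, k₀, hb₀⟩ := hC C
  obtain ⟨n₀, hn₀, -⟩ := hb₀ k₀ le_rfl le_rfl
  obtain ⟨hn₁, hn₂⟩ := (hTm _ _ _).mp hn₀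
  refine ⟨C, dir N₀ n₀, hdn _ _ hn₁, fun B => ?_⟩
  obtain ⟨N, k, hb⟩ := hC B
  refine ⟨p N, T a N, fun n => v N (ix N n), k, hb, fun n hn => ?_⟩
  obtain ⟨h1, h2⟩ := (hTm _ _ _).mp hn
  obtain ⟨h3, h4, h5⟩ := hix N n ((hSm N n).mp h1)
  refine ⟨(hv N _ h3).2.1, h4, h5, ?_⟩
  have h6 : (‖v N (ix N n)‖⁻¹) • v N (ix N n) = dir N n := by rw [hdir]
  rw [h6, pi_norm_le_iff_of_nonneg hε.le]
  intro l
  rw [Pi.sub_apply, Real.norm_eq_abs]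
  have e1 := h2 l
  have e2 := hn₂ l
  have p1 : 0 ≤ (dir N n l + 1) / ε := by
    have := (hdl N n h1 l).1
    exact div_nonneg (by linarith) hε.le
  have p2 : 0 ≤ (dir N₀ n₀ l + 1) / ε := by
    have := (hdl N₀ n₀ hn₁ l).1
    exact div_nonneg (by linarith) hε.le
  have q1 := Nat.floor_le p1
  have q2 := Nat.lt_floor_add_one ((dir N n l + 1) / ε)
  have q3 := Nat.floor_le p2
  have q4 := Nat.lt_floor_add_one ((dir N₀ n₀ l + 1) / ε)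
  rw [e1] at q1 q2
  rw [e2] at q3 q4
  rw [le_div_iff₀ hε] at q1 q3
  rw [div_lt_iff₀ hε] at q2 q4
  rw [abs_le]
  constructor <;> linarith

end Pool.Agent.Helper69.GE
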