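import Pool.Agent.Helper69.GE.AllP
import Pool.Agent.Helper69.GE.Runs
import Pool.Agent.Helper69.GE.Hole
import Pool.Agent.Helper69.GE.CompactK

/-!
# GE-25 Main: sets with long runs are avoided by large compact sets
-/

set_option autoImplicit false

open MeasureTheory Set

namespace Pool.Agent.Helper69.GE

theorem main {d : ℕ} {E : Set (Fin d → ℝ)} {c : ℝ} (hc : 0 < c) (h : Runs E c) {η : ℝ}
    (hη : 0 < η) :
    ∃ K : Set (Fin d → ℝ), K ⊆ Icc 0 1 ∧ IsCompact K ∧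
      volume (Icc (0 : Fin d → ℝ) 1 \ K) ≤ ENNReal.ofReal η ∧
      ∀ (T : (Fin d → ℝ) ≃ₗ[ℝ] (Fin d → ℝ)) (t : Fin d → ℝ), ∃ v ∈ E, t + T v ∉ K := by
  refine compactK (fun n δ hδ => ?_) hη
  set A : ℝ := n + 1 with hAdef
  have hA : 1 ≤ A := by
    have : (0 : ℝ) ≤ n := Nat.cast_nonneg n
    linarith
  have hA0 : 0 < A := by linarith
  set ε : ℝ := 1 / (3 * A * (d * A + 1)) with hεdef
  have hdA : 0 < (d : ℝ) * A + 1 := by positivity
  have hε : 0 < ε := by positivity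
  have hε2 : d * A * ε ≤ 1 / (3 * A) := by
    rw [hεdef, mul_one_div, div_le_div_iff₀ (by positivity) (by positivity)]
    nlinarith [mul_nonneg (Nat.cast_nonneg (α := ℝ) d) hA0.le]
  obtain ⟨C, w, hw, hB⟩ := runs_class hc h hε
  obtain ⟨U, p, hUo, hUv, hUk⟩ := hole (E := E) (fun δ' hδ' => all_p d C δ' hδ') hw hA hε2 hB hδ
  exact ⟨U, p, w, hUo, hUv, hw, hUk⟩

end Pool.Agent.Helper69.GE
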