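import Pool.Agent.Helper69.GE.Main

/-!
# GE-26 Main2: the first vector of a run need not be short
-/

set_option autoImplicit false

open MeasureTheory Set

namespace Pool.Agent.Helper69.GE

/-- For every `N` there are `v 0, …, v N ≠ 0` with `p + v i ∈ E` and
`c ‖v i‖ ≤ ‖v (i + 1)‖ ≤ ‖v i‖ / 2`. -/
def LongRuns {d : ℕ} (E : Set (Fin d → ℝ)) (c : ℝ) : Prop :=
  ∀ N : ℕ, ∃ (p : Fin d → ℝ) (v : ℕ → Fin d → ℝ), ∀ i ≤ N, v i ≠ 0 ∧ p + v i ∈ E ∧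
    (i < N → c * ‖v i‖ ≤ ‖v (i + 1)‖ ∧ ‖v (i + 1)‖ ≤ ‖v i‖ / 2)

theorem runs_smul {d : ℕ} {E : Set (Fin d → ℝ)} {c R : ℝ} (hR : 0 < R) (hE : ∀ x ∈ E, ‖x‖ ≤ R)
    (h : LongRuns E c) : Runs ((fun x => (4 * R)⁻¹ • x) '' E) c := by
  intro N
  obtain ⟨p, v, hv⟩ := h (N + 1)
  have hs : (0 : ℝ) < (4 * R)⁻¹ := by positivity
  refine ⟨(4 * R)⁻¹ • p, fun i => (4 * R)⁻¹ • v i, ?_, ?_⟩
  · have h0 := hv 0 (Nat.zero_le _)
    have h1 := hv 1 (by omega)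
    have h2 := (h0.2.2 (by omega)).2
    simp only [zero_add] at h2
    have h3 : ‖v 0 - v 1‖ ≤ 2 * R := by
      have e : v 0 - v 1 = (p + v 0) - (p + v 1) := by abel
      rw [e]
      calc _ ≤ ‖p + v 0‖ + ‖p + v 1‖ := norm_sub_le _ _
        _ ≤ R + R := add_le_add (hE _ h0.2.1) (hE _ h1.2.1)
        _ = 2 * R := by ring
    have h4 : ‖v 0‖ - ‖v 1‖ ≤ ‖v 0 - v 1‖ := norm_sub_norm_le _ _
    have h5 : ‖v 0‖ ≤ 4 * R := by linarith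
    show ‖(4 * R)⁻¹ • v 0‖ ≤ 1
    rw [norm_smul, Real.norm_eq_abs, abs_of_pos hs, inv_mul_le_iff₀ (by positivity)]
    linarith
  · intro i hi
    obtain ⟨a, b, e⟩ := hv i (by omega)
    refine ⟨smul_ne_zero hs.ne' a, ⟨p + v i, b, by simp [smul_add]⟩, fun hiN => ?_⟩
    obtain ⟨e1, e2⟩ := e (by omega)
    simp only [norm_smul, Real.norm_eq_abs, abs_of_pos hs]
    constructor
    · calc c * ((4 * R)⁻¹ * ‖v i‖) = (4 * R)⁻¹ * (c * ‖v i‖) := by ring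
        _ ≤ _ := mul_le_mul_of_nonneg_left e1 hs.le
    · calc (4 * R)⁻¹ * ‖v (i + 1)‖ ≤ (4 * R)⁻¹ * (‖v i‖ / 2) := mul_le_mul_of_nonneg_left e2 hs.le
        _ = _ := by ring

theorem main2 {d : ℕ} {E : Set (Fin d → ℝ)} {c : ℝ} (hc : 0 < c) (h : LongRuns E c) {η : ℝ}
    (hη : 0 < η) :
    ∃ K : Set (Fin d → ℝ), K ⊆ Icc 0 1 ∧ IsCompact K ∧
      volume (Icc (0 : Fin d → ℝ) 1 \ K) ≤ ENNReal.ofReal η ∧
      ∀ (t : Fin d → ℝ) (T : (Fin d → ℝ) ≃ₗ[ℝ] (Fin d → ℝ)), ∃ v ∈ E, t + T v ∉ K := by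
  by_cases hb : Bornology.IsBounded E
  · obtain ⟨R, hR0, hR⟩ := hb.exists_pos_norm_le
    obtain ⟨K, hK, hKc, hKv, hKE⟩ := main hc (runs_smul hR0 hR h) hη
    refine ⟨K, hK, hKc, hKv, fun t T => ?_⟩
    obtain ⟨w, ⟨v, hv, rfl⟩, hw⟩ := hKE
      ((LinearEquiv.smulOfNeZero ℝ (Fin d → ℝ) (4 * R) (by positivity)).trans T) t
    refine ⟨v, hv, ?_⟩
    have hs : 4 * R ≠ 0 := by positivity
    have e : ((LinearEquiv.smulOfNeZero ℝ (Fin d → ℝ) (4 * R) (by positivity)).trans T)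
        ((4 * R)⁻¹ • v) = T v := by
      show T ((4 * R) • (4 * R)⁻¹ • v) = T v
      rw [smul_smul, mul_inv_cancel₀ hs, one_smul]
    rw [← e]
    exact hw
  · refine ⟨Icc 0 1, subset_rfl, isCompact_Icc, by simp, fun t T => ?_⟩
    by_contra hcon
    push Not at hcon
    apply hb
    have h1 : E ⊆ T.symm '' ((fun x => -t + x) '' Icc (0 : Fin d → ℝ) 1) := by
      intro v hv
      exact ⟨T v, ⟨t + T v, hcon v hv, by simp⟩, by simp⟩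
    have h2 : IsCompact (T.symm '' ((fun x => -t + x) '' Icc (0 : Fin d → ℝ) 1)) := by
      refine IsCompact.image (IsCompact.image isCompact_Icc (by fun_prop)) ?_
      exact T.symm.toLinearMap.continuous_of_finiteDimensional
    exact h2.isBounded.subset h1

end Pool.Agent.Helper69.GE
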