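import Pool.Agent.Helper69.GE.Defs

/-!
# GE-09 Net: a finite net of admissible parameters

Map `r` to the integers `⌊r j / θ⌋`, `j : Fin D`; for admissible `r` each of them is one of at most
`2 R / θ + 2` integers (those in `[-R / θ - 1, R / θ]`). Choose one admissible `r` for each
`D`-tuple which occurs.
`lin_sub_le`: `|∑ (rⱼ - r'ⱼ) uⱼ| ≤ D θ 2 ^ (-n)` if `|rⱼ - r'ⱼ| ≤ θ` and `|uⱼ| ≤ 2 ^ (-n)`.
-/

set_option autoImplicit false

open MeasureTheory Set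

namespace Pool.Agent.Helper69.GE

theorem net {D : ℕ} (S : Set ℕ) (u : ℕ → Fin D → ℝ) {R θ : ℝ} (hR : 1 ≤ R) (hθ : 0 < θ) :
    ∃ T : Finset (Fin D → ℝ), (T.card : ℝ) ≤ (2 * R / θ + 2) ^ D ∧ (∀ r ∈ T, Adm S u R r) ∧
      ∀ r, Adm S u R r → ∃ r' ∈ T, ∀ j, |r j - r' j| ≤ θ := by
  classical
  have hR0 : 0 < R := by linarith
  obtain ⟨I, hI⟩ : ∃ I : Finset ℤ, I = Finset.Icc ⌊-(R / θ)⌋ ⌊R / θ⌋ := ⟨_, rfl⟩
  have hIcard : (I.card : ℝ) ≤ 2 * R / θ + 2 := by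
    rw [hI, Int.card_Icc]
    have h1 : ⌊-(R / θ)⌋ ≤ ⌊R / θ⌋ := by
      apply Int.floor_le_floor
      have : 0 < R / θ := by positivity
      linarith
    have h2 : (((⌊R / θ⌋ + 1 - ⌊-(R / θ)⌋).toNat : ℤ) : ℝ) =
        ((⌊R / θ⌋ + 1 - ⌊-(R / θ)⌋ : ℤ) : ℝ) := by
      rw [Int.toNat_of_nonneg (by omega)]
    rw [Int.cast_natCast] at h2
    rw [h2]
    push_cast
    have h3 := Int.floor_le (R / θ)
    have h4 := Int.lt_floor_add_one (-(R / θ))
    have h5 : 2 * R / θ = 2 * (R / θ) := by ring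
    rw [h5]
    linarith
  obtain ⟨K, hK⟩ : ∃ K : Finset (Fin D → ℤ), ∀ k, k ∈ K ↔ (∀ j, k j ∈ I) ∧
      ∃ r, Adm S u R r ∧ (fun j => ⌊r j / θ⌋) = k := by
    refine ⟨(Fintype.piFinset fun _ => I).filter
      (fun k => ∃ r, Adm S u R r ∧ (fun j => ⌊r j / θ⌋) = k), fun k => ?_⟩
    rw [Finset.mem_filter, Fintype.mem_piFinset]
  have hKcard : (K.card : ℝ) ≤ (2 * R / θ + 2) ^ D := by
    have h1 : K ⊆ Fintype.piFinset fun _ : Fin D => I := by
      intro k hk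
      rw [Fintype.mem_piFinset]
      exact ((hK k).mp hk).1
    have h2 := Finset.card_le_card h1
    rw [Fintype.card_piFinset, Finset.prod_const, Finset.card_univ, Fintype.card_fin] at h2
    have h3 : (K.card : ℝ) ≤ (I.card : ℝ) ^ D := by exact_mod_cast h2
    exact h3.trans (pow_le_pow_left₀ (Nat.cast_nonneg _) hIcard D)
  have hex : ∀ k, ∃ r, k ∈ K → Adm S u R r ∧ (fun j => ⌊r j / θ⌋) = k := by
    intro k
    by_cases hk : k ∈ K
    · obtain ⟨r, hr⟩ := ((hK k).mp hk).2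
      exact ⟨r, fun _ => hr⟩
    · exact ⟨0, fun h => absurd h hk⟩
  choose F hF using hex
  refine ⟨K.image F, ?_, ?_, ?_⟩
  · have h1 : ((K.image F).card : ℝ) ≤ K.card := by exact_mod_cast Finset.card_image_le
    exact h1.trans hKcard
  · intro r hr
    obtain ⟨k, hk, rfl⟩ := Finset.mem_image.mp hr
    exact (hF k hk).1
  · intro r hr
    have hk : (fun j => ⌊r j / θ⌋) ∈ K := by
      rw [hK]
      refine ⟨fun j => ?_, r, hr, rfl⟩
      rw [hI, Finset.mem_Icc]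
      have h1 := abs_le.mp (hr.bd j)
      constructor
      · apply Int.floor_le_floor
        rw [← neg_div]
        exact div_le_div_of_nonneg_right h1.1 hθ.le
      · apply Int.floor_le_floor
        exact div_le_div_of_nonneg_right h1.2 hθ.le
    refine ⟨F _, Finset.mem_image_of_mem F hk, fun j => ?_⟩
    have h2 := (hF _ hk).2
    have h3 := congrFun h2 j
    have h4 : ⌊r j / θ⌋ = ⌊F (fun j => ⌊r j / θ⌋) j / θ⌋ := h3.symm
    have h5 := Int.abs_sub_lt_one_of_floor_eq_floor h4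
    rw [← sub_div, abs_div, abs_of_pos hθ, div_lt_one hθ] at h5
    exact h5.le

theorem lin_sub_le {D : ℕ} {r r' v : Fin D → ℝ} {θ a : ℝ} (h : ∀ j, |r j - r' j| ≤ θ)
    (hv : ∀ j, |v j| ≤ a) : |lin r v - lin r' v| ≤ D * θ * a := by
  unfold lin
  rw [← Finset.sum_sub_distrib]
  have h1 : ∀ j ∈ Finset.univ, |r j * v j - r' j * v j| ≤ θ * a := by
    intro j _
    rw [← sub_mul, abs_mul]
    exact mul_le_mul (h j) (hv j) (abs_nonneg _) ((abs_nonneg _).trans (h j))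
  refine (Finset.abs_sum_le_sum_abs _ _).trans ((Finset.sum_le_sum h1).trans (le_of_eq ?_))
  rw [Finset.sum_const, Finset.card_univ, Fintype.card_fin, nsmul_eq_mul, mul_assoc]

theorem lin_smul {D : ℕ} (κ : ℝ) (r v : Fin D → ℝ) : lin (fun j => κ * r j) v = κ * lin r v := by
  unfold lin
  rw [Finset.mul_sum]
  exact Finset.sum_congr rfl fun j _ => by ring

theorem adm_smul {D : ℕ} {S : Set ℕ} {u : ℕ → Fin D → ℝ} {R κ : ℝ} {r : Fin D → ℝ} (hR : 1 ≤ R)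
    (h : Adm S u R r) (h1 : 1 ≤ κ) (h2 : κ ≤ 2) : Adm S u (2 * R) (fun j => κ * r j) := by
  have hκ : 0 ≤ κ := by linarith
  obtain ⟨ρ, h3, h4, h5⟩ := h.cmp
  have hR0 : 0 < R := by linarith
  have hρ0 : 0 < ρ := lt_of_lt_of_le (inv_pos.mpr hR0) h3
  refine ⟨fun j => ?_, κ * ρ, ?_, ?_, fun n hn => ?_⟩
  · rw [abs_mul, abs_of_nonneg hκ]
    exact mul_le_mul h2 (h.bd j) (abs_nonneg _) (by norm_num)
  · have h6 : (2 * R)⁻¹ ≤ R⁻¹ := inv_anti₀ hR0 (by linarith)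
    have h7 : ρ ≤ κ * ρ := le_mul_of_one_le_left hρ0.le h1
    exact h6.trans (h3.trans h7)
  · exact mul_le_mul h2 h4 hρ0.le (by norm_num)
  · rw [lin_smul]
    obtain ⟨h6, h7⟩ := h5 n hn
    constructor
    · rw [mul_assoc]
      exact mul_le_mul_of_nonneg_left h6 hκ
    · have h8 := mul_le_mul_of_nonneg_left h7 hκ
      have e : 8 * (κ * ρ) * (1 / 2 : ℝ) ^ n = κ * (8 * ρ * (1 / 2 : ℝ) ^ n) := by ring
      rw [e]
      exact h8

end Pool.Agent.Helper69.GE
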