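import Pool.Agent.Helper69.GE.Scale

/-!
# GE-04 PatLow: the measure of the pattern and of its central part

`Pat f q H = {z | fract z < 2 ^ (-f), 2 ^ q z ∈ H}` with `f ≤ q`, `H` periodic and a union of cells
of level `m`. `Cen f q m H` is the part of `Pat` in the middle three quarters of the cells of level
`q + m`.

* `pat_per`, `pat_cell`: `Pat` is periodic (`2 ^ q` is an integer, `per_int`) and a union of cells
  of level `q + m`: if `⌊2 ^ (q + m) y⌋ = ⌊2 ^ (q + m) z⌋` then `⌊2 ^ m (2 ^ q y)⌋` and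
  `⌊2 ^ m (2 ^ q z)⌋` agree; and `fract y < 2 ^ (-f)` iff `⌊2 ^ f y⌋ = 2 ^ f ⌊y⌋`, where `⌊2 ^ f y⌋`
  and `⌊y⌋` are determined by `⌊2 ^ (q + m) y⌋` (`⌊⌊2 ^ (a + b) y⌋ / 2 ^ b⌋ = ⌊2 ^ a y⌋`).
* `pat_volume`: `[0, 1) ∩ Pat` is the disjoint union of the sets
  `{z ∈ [j 2 ^ (-q), (j + 1) 2 ^ (-q)) | 2 ^ q z ∈ H}`, `j < 2 ^ (q - f)`, each of measure
  `2 ^ (-q) |H ∩ [0, 1)|` (`per_scale`).
* `cen_volume`: each cell `[i 2 ^ (-(q+m)), (i + 1) 2 ^ (-(q+m)))`, `i < 2 ^ (q + m)`, is contained in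
  `Pat` or disjoint from it, and in the first case it meets `Cen` in an interval of length
  `3 / 4 * 2 ^ (-(q+m))`. Sum over `i`.
* `cen_subset`: if `z ∈ Cen` and `|y - z| ≤ 2 ^ (-(q+m+3))` then `2 ^ (q + m) y` and `2 ^ (q + m) z`
  differ by at most `1 / 8`, and `fract (2 ^ (q + m) z) ∈ [1 / 8, 7 / 8)`, so they have the same floor
  (note `<`: the upper end is open).
* `cen_per`: `Cen` is periodic.
-/

set_option autoImplicit false

open MeasureTheory Set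

namespace Pool.Agent.Helper69.GE

/-- The part of `Pat f q H` in the middle of the cells of level `q + m`. -/
def Cen (f q m : ℕ) (H : Set ℝ) : Set ℝ :=
  {z | z ∈ Pat f q H ∧ 1 / 8 ≤ Int.fract ((2 : ℝ) ^ (q + m) * z) ∧
    Int.fract ((2 : ℝ) ^ (q + m) * z) < 7 / 8}

private theorem floor_coarse {a d : ℕ} {y z : ℝ}
    (h : ⌊(2 : ℝ) ^ (a + d) * y⌋ = ⌊(2 : ℝ) ^ (a + d) * z⌋) :
    ⌊(2 : ℝ) ^ a * y⌋ = ⌊(2 : ℝ) ^ a * z⌋ := by
  have h2 : (0 : ℝ) < 2 ^ d := by positivity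
  have key : ∀ x : ℝ, ∀ k : ℤ, k ≤ ⌊(2 : ℝ) ^ a * x⌋ ↔ 2 ^ d * k ≤ ⌊(2 : ℝ) ^ (a + d) * x⌋ := by
    intro x k
    rw [Int.le_floor, Int.le_floor]
    push_cast
    rw [pow_add, mul_comm ((2 : ℝ) ^ a) (2 ^ d), mul_assoc]
    exact (mul_le_mul_iff_right₀ h2).symm
  apply le_antisymm
  · rw [key, ← h, ← key]
  · rw [key, h, ← key]

private theorem fract_lt_iff (f : ℕ) (y : ℝ) :
    Int.fract y < (1 / 2 : ℝ) ^ f ↔ ⌊(2 : ℝ) ^ f * y⌋ < 2 ^ f * ⌊y⌋ + 1 := by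
  have h2 : (0 : ℝ) < 2 ^ f := by positivity
  have h3 : (2 : ℝ) ^ f * (1 / 2) ^ f = 1 := by
    rw [← mul_pow]
    norm_num
  rw [Int.floor_lt, ← mul_lt_mul_iff_right₀ h2, h3]
  push_cast
  have h4 : (2 : ℝ) ^ f * Int.fract y = 2 ^ f * y - 2 ^ f * ⌊y⌋ := by
    rw [Int.fract]
    ring
  rw [h4]
  constructor <;> intro h <;> linarith

theorem pat_per {f q : ℕ} {H : Set ℝ} (h : Per H) : Per (Pat f q H) := by
  intro z
  have h1 : (2 : ℝ) ^ q * (z + 1) = 2 ^ q * z + ((2 ^ q : ℤ) : ℝ) := by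
    push_cast
    ring
  change (Int.fract (z + 1) < (1 / 2 : ℝ) ^ f ∧ (2 : ℝ) ^ q * (z + 1) ∈ H) ↔
    (Int.fract z < (1 / 2 : ℝ) ^ f ∧ (2 : ℝ) ^ q * z ∈ H)
  rw [Int.fract_add_one, h1, per_int h]

theorem pat_cell {f q m : ℕ} (hfq : f ≤ q) {H : Set ℝ} (h : Cell m H) :
    Cell (q + m) (Pat f q H) := by
  intro y z hyz
  have h1 : ⌊(2 : ℝ) ^ f * y⌋ = ⌊(2 : ℝ) ^ f * z⌋ := by
    obtain ⟨d, rfl⟩ := Nat.exists_eq_add_of_le hfq
    rw [add_assoc] at hyz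
    exact floor_coarse hyz
  have h2 : ⌊y⌋ = ⌊z⌋ := by
    have h3 : ⌊(2 : ℝ) ^ 0 * y⌋ = ⌊(2 : ℝ) ^ 0 * z⌋ := by
      apply floor_coarse (d := q + m)
      rw [zero_add]
      exact hyz
    rwa [pow_zero, one_mul, one_mul] at h3
  have h3 : (2 : ℝ) ^ q * y ∈ H ↔ (2 : ℝ) ^ q * z ∈ H := by
    apply h
    rw [← mul_assoc, ← mul_assoc, ← pow_add, add_comm m q]
    exact hyz
  change (Int.fract y < (1 / 2 : ℝ) ^ f ∧ (2 : ℝ) ^ q * y ∈ H) ↔
    (Int.fract z < (1 / 2 : ℝ) ^ f ∧ (2 : ℝ) ^ q * z ∈ H)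
  rw [fract_lt_iff, fract_lt_iff, h1, h2, h3]

theorem pat_volume {f q m : ℕ} (hfq : f ≤ q) {H : Set ℝ} (h : Per H) (hc : Cell m H) :
    volume (Pat f q H ∩ Ico 0 1) = ENNReal.ofReal ((1 / 2 : ℝ) ^ f) * volume (H ∩ Ico 0 1) := by
  have h1 : (((2 ^ (q - f) : ℕ) : ℝ)) / 2 ^ q = (1 / 2 : ℝ) ^ f := by
    obtain ⟨d, rfl⟩ := Nat.exists_eq_add_of_le hfq
    rw [Nat.add_sub_cancel_left]
    push_cast
    rw [pow_add, one_div, inv_pow]
    field_simp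
  have h2 := per_scale_nat h (cell_measurable hc) (ω := (2 : ℝ) ^ q) (by positivity) 0 0
    (2 ^ (q - f))
  rw [h1] at h2
  rw [h2]
  congr 1
  ext z
  have h5 : (1 / 2 : ℝ) ^ f ≤ 1 := pow_le_one₀ (by norm_num) (by norm_num)
  constructor
  · rintro ⟨⟨g1, g2⟩, g3, g4⟩
    rw [Int.fract_eq_self.2 ⟨g3, g4⟩] at g1
    refine ⟨?_, g3, by rw [zero_add]; exact g1⟩
    change (2 : ℝ) ^ q * z + 0 ∈ H
    rw [add_zero]
    exact g2
  · rintro ⟨g2, g3, g4⟩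
    rw [zero_add] at g4
    have g2' : (2 : ℝ) ^ q * z + 0 ∈ H := g2
    rw [add_zero] at g2'
    have g5 : z < 1 := lt_of_lt_of_le g4 h5
    refine ⟨⟨?_, g2'⟩, g3, g5⟩
    rw [Int.fract_eq_self.2 ⟨g3, g5⟩]
    exact g4

theorem cen_per {f q m : ℕ} {H : Set ℝ} (h : Per H) : Per (Cen f q m H) := by
  intro z
  have h1 : (2 : ℝ) ^ (q + m) * (z + 1) = 2 ^ (q + m) * z + ((2 ^ (q + m) : ℤ) : ℝ) := by
    push_cast
    ring
  change (z + 1 ∈ Pat f q H ∧ 1 / 8 ≤ Int.fract ((2 : ℝ) ^ (q + m) * (z + 1)) ∧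
    Int.fract ((2 : ℝ) ^ (q + m) * (z + 1)) < 7 / 8) ↔
    (z ∈ Pat f q H ∧ 1 / 8 ≤ Int.fract ((2 : ℝ) ^ (q + m) * z) ∧
    Int.fract ((2 : ℝ) ^ (q + m) * z) < 7 / 8)
  rw [h1, Int.fract_add_intCast, pat_per h]

theorem cen_measurable {f q m : ℕ} {H : Set ℝ} (hc : Cell m H) :
    MeasurableSet (Cen f q m H) := by
  have h1 : Measurable (fun z : ℝ => Int.fract z) := measurable_fract
  have h2 : Measurable (fun z : ℝ => Int.fract ((2 : ℝ) ^ (q + m) * z)) :=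
    measurable_fract.comp (measurable_const_mul _)
  have h3 : MeasurableSet (Pat f q H) :=
    (measurableSet_lt h1 measurable_const).inter
      ((measurable_const_mul ((2 : ℝ) ^ q)) (cell_measurable hc))
  exact h3.inter ((measurableSet_le measurable_const h2).inter
    (measurableSet_lt h2 measurable_const))

private theorem mid_volume {M : ℕ} {P : Set ℝ} (hP : Cell M P) (n : ℕ) :
    volume (P ∩ {z : ℝ | 1 / 8 ≤ Int.fract ((2 : ℝ) ^ M * z) ∧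
      Int.fract ((2 : ℝ) ^ M * z) < 7 / 8} ∩ Ico 0 (n / (2 : ℝ) ^ M)) =
      ENNReal.ofReal (3 / 4) * volume (P ∩ Ico 0 (n / (2 : ℝ) ^ M)) := by
  have hω : (0 : ℝ) < 2 ^ M := by positivity
  have hPm := cell_measurable hP
  have hMm : MeasurableSet {z : ℝ | 1 / 8 ≤ Int.fract ((2 : ℝ) ^ M * z) ∧
      Int.fract ((2 : ℝ) ^ M * z) < 7 / 8} := by
    have h2 : Measurable (fun z : ℝ => Int.fract ((2 : ℝ) ^ M * z)) :=
      measurable_fract.comp (measurable_const_mul _)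
    exact (measurableSet_le measurable_const h2).inter (measurableSet_lt h2 measurable_const)
  induction n with
  | zero =>
    rw [Nat.cast_zero, zero_div, Ico_self, inter_empty, inter_empty, measure_empty, mul_zero]
  | succ n ih =>
    have e1 : (0 : ℝ) ≤ n / 2 ^ M := by positivity
    have e2 : (n : ℝ) / 2 ^ M ≤ ((n + 1 : ℕ) : ℝ) / 2 ^ M := by
      gcongr
      exact_mod_cast Nat.le_succ n
    have e4 : Ico (0 : ℝ) (((n + 1 : ℕ) : ℝ) / 2 ^ M) =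
        Ico 0 ((n : ℝ) / 2 ^ M) ∪ Ico ((n : ℝ) / 2 ^ M) (((n + 1 : ℕ) : ℝ) / 2 ^ M) := by
      rw [Ico_union_Ico_eq_Ico e1 e2]
    rw [e4, inter_union_distrib_left, inter_union_distrib_left,
      measure_union ((Ico_disjoint_Ico_same).mono inter_subset_right inter_subset_right)
        ((hPm.inter hMm).inter measurableSet_Ico),
      measure_union ((Ico_disjoint_Ico_same).mono inter_subset_right inter_subset_right)
        (hPm.inter measurableSet_Ico), ih, mul_add]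
    congr 1
    -- one cell
    have hfl : ∀ z ∈ Ico ((n : ℝ) / 2 ^ M) (((n + 1 : ℕ) : ℝ) / 2 ^ M), ⌊(2 : ℝ) ^ M * z⌋ = n := by
      rintro z ⟨g1, g2⟩
      rw [Int.floor_eq_iff]
      rw [div_le_iff₀ hω] at g1
      rw [lt_div_iff₀ hω] at g2
      push_cast at g2 ⊢
      constructor <;> linarith
    have hmem : ∀ z ∈ Ico ((n : ℝ) / 2 ^ M) (((n + 1 : ℕ) : ℝ) / 2 ^ M),
        (z ∈ P ↔ (n : ℝ) / 2 ^ M ∈ P) := by
      intro z hz
      apply hP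
      rw [hfl z hz, hfl _ ⟨le_rfl, by
        rw [div_lt_div_iff_of_pos_right hω]
        exact_mod_cast Nat.lt_succ_self n⟩]
    by_cases hn : (n : ℝ) / 2 ^ M ∈ P
    · have h1 : P ∩ Ico ((n : ℝ) / 2 ^ M) (((n + 1 : ℕ) : ℝ) / 2 ^ M) =
          Ico ((n : ℝ) / 2 ^ M) (((n + 1 : ℕ) : ℝ) / 2 ^ M) := by
        ext z
        constructor
        · intro hz
          exact hz.2
        · intro hz
          exact ⟨(hmem z hz).2 hn, hz⟩
      have h2 : P ∩ {z : ℝ | 1 / 8 ≤ Int.fract ((2 : ℝ) ^ M * z) ∧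
          Int.fract ((2 : ℝ) ^ M * z) < 7 / 8} ∩
          Ico ((n : ℝ) / 2 ^ M) (((n + 1 : ℕ) : ℝ) / 2 ^ M) =
          Ico (((n : ℝ) + 1 / 8) / 2 ^ M) (((n : ℝ) + 7 / 8) / 2 ^ M) := by
        ext z
        constructor
        · rintro ⟨⟨_, g1, g2⟩, hz⟩
          have g3 := hfl z hz
          rw [Int.fract, g3] at g1 g2
          rw [mem_Ico, div_le_iff₀ hω, lt_div_iff₀ hω]
          push_cast at g1 g2
          constructor <;> linarith
        · intro hz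
          rw [mem_Ico, div_le_iff₀ hω, lt_div_iff₀ hω] at hz
          have hz' : z ∈ Ico ((n : ℝ) / 2 ^ M) (((n + 1 : ℕ) : ℝ) / 2 ^ M) := by
            rw [mem_Ico, div_le_iff₀ hω, lt_div_iff₀ hω]
            push_cast
            constructor <;> linarith [hz.1, hz.2]
          have g3 := hfl z hz'
          refine ⟨⟨(hmem z hz').2 hn, ?_, ?_⟩, hz'⟩
          · rw [Int.fract, g3]
            push_cast
            linarith [hz.1]
          · rw [Int.fract, g3]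
            push_cast
            linarith [hz.2]
      rw [h1, h2, Real.volume_Ico, Real.volume_Ico, ← ENNReal.ofReal_mul (by norm_num)]
      congr 1
      push_cast
      field_simp
      ring
    · have h1 : P ∩ Ico ((n : ℝ) / 2 ^ M) (((n + 1 : ℕ) : ℝ) / 2 ^ M) = ∅ := by
        rw [eq_empty_iff_forall_notMem]
        rintro z ⟨g1, g2⟩
        exact hn ((hmem z g2).1 g1)
      have h2 : P ∩ {z : ℝ | 1 / 8 ≤ Int.fract ((2 : ℝ) ^ M * z) ∧
          Int.fract ((2 : ℝ) ^ M * z) < 7 / 8} ∩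
          Ico ((n : ℝ) / 2 ^ M) (((n + 1 : ℕ) : ℝ) / 2 ^ M) = ∅ := by
        rw [eq_empty_iff_forall_notMem]
        rintro z ⟨⟨g1, _⟩, g2⟩
        exact hn ((hmem z g2).1 g1)
      rw [h1, h2, measure_empty, mul_zero]

theorem cen_volume {f q m : ℕ} (hfq : f ≤ q) {H : Set ℝ} (h : Per H) (hc : Cell m H) :
    volume (Cen f q m H ∩ Ico 0 1) =
      ENNReal.ofReal (3 / 4 * (1 / 2 : ℝ) ^ f) * volume (H ∩ Ico 0 1) := by
  have h1 := mid_volume (pat_cell hfq hc) (2 ^ (q + m))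
  have h2 : ((2 ^ (q + m) : ℕ) : ℝ) / (2 : ℝ) ^ (q + m) = 1 := by
    push_cast
    exact div_self (by positivity)
  rw [h2, pat_volume hfq h hc, ← mul_assoc, ← ENNReal.ofReal_mul (by norm_num)] at h1
  rw [← h1]
  rfl

theorem cen_subset {f q m : ℕ} (hfq : f ≤ q) {H : Set ℝ} (hc : Cell m H) {e : ℝ}
    (he : e ≤ (1 / 2 : ℝ) ^ (q + m + 3)) : Cen f q m H ⊆ Inr (Pat f q H) e := by
  rintro z ⟨hz, h1, h2⟩ y hy
  have hω : (0 : ℝ) < 2 ^ (q + m) := by positivity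
  have h3 : |y - z| ≤ (1 / 2 : ℝ) ^ (q + m + 3) := hy.trans he
  have h4 : (2 : ℝ) ^ (q + m) * (1 / 2) ^ (q + m + 3) = 1 / 8 := by
    rw [pow_add (1 / 2 : ℝ) (q + m) 3, ← mul_assoc, ← mul_pow]
    norm_num
  have h5 : |(2 : ℝ) ^ (q + m) * y - 2 ^ (q + m) * z| ≤ 1 / 8 := by
    rw [← mul_sub, abs_mul, abs_of_pos hω, ← h4]
    exact mul_le_mul_of_nonneg_left h3 hω.le
  have h6 := abs_le.1 h5
  refine (pat_cell hfq hc y z ?_).2 hz
  rw [Int.floor_eq_iff]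
  rw [Int.fract] at h1 h2
  constructor <;> linarith [h6.1, h6.2]

end Pool.Agent.Helper69.GE
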