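import Pool.Agent.Helper69.GE.Basic

/-!
# GE-14 Periodize: periodic sets of holes made of cells

Given `G` of density at most `σ` at scale `ρ`; `4 e ≤ η`, `η ≤ 1 / 8`. The set `Hp` depends on `G` and
`η` only, and serves all `N`, `s` such that `0 ≤ s n ≤ η` for `n ∈ N` and for every `x` some `n ∈ N` has
the `e`-neighbourhood of `x + s n` in `G`.
Let `Hp = {z | fract z ∈ G or fract z ≤ 2 η or 1 - 2 η ≤ fract z}`; it is periodic, and
`|Hp ∩ [0, 1)| ≤ |G ∩ [0, 1)| + 4 η ≤ σ (1 + ρ) + 4 η` (`ud_length`).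
For every `x` some `n ∈ N` has the `e`-neighbourhood of `x + s n` in `Hp`: let `x₀ = fract x`,
`j = ⌊x⌋`. If `e ≤ x₀ < 1 - η - e` take the `n` for `x₀`: for `|z - (x + s n)| ≤ e` the number `z - j` is
in `[x₀ - e, x₀ + η + e] ⊆ [0, 1)` and in `G`, so `fract z = z - j ∈ G`. Otherwise take any `n ∈ N`:
`z - j` is in `[-e, η + 2 e]` or in `[1 - η - 2 e, 1 + η + e]`, so `fract z ≤ 2 η` or
`fract z ≥ 1 - 2 η`.
Let `H` be the union of the cells of level `m` contained in `Hp`,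
`H = {z | ∀ y, ⌊2 ^ m y⌋ = ⌊2 ^ m z⌋ → y ∈ Hp}`, where `2 * 2 ^ (-m) ≤ e`. It is periodic, a union of
cells, contained in `Hp`, and the `2 ^ (-m)`-neighbourhood of `x + s n` is in `H`: for such a point `z`
and `y` in the same cell, `|y - (x + s n)| ≤ 2 * 2 ^ (-m) ≤ e`.
-/

set_option autoImplicit false

open MeasureTheory Set

namespace Pool.Agent.Helper69.GE

private theorem pz_fract {z t : ℝ} {j : ℤ} (h0 : 0 ≤ t) (h1 : t < 1) (h : z = t + j) :
    Int.fract z = t := by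
  rw [Int.fract_eq_iff]
  exact ⟨h0, h1, j, by rw [h]; ring⟩

theorem periodize {G : Set ℝ} {ρ σ η e : ℝ} (hρ : 0 < ρ) (hσ : 0 ≤ σ) (hG : UD G ρ σ) (he : 0 < e)
    (heη : 4 * e ≤ η) (hη : η ≤ 1 / 8) :
    ∃ Hp : Set ℝ, Per Hp ∧
      volume (Hp ∩ Ico 0 1) ≤ ENNReal.ofReal (σ * (1 + ρ) + 4 * η) ∧
      ∀ (N : Set ℕ) (s : ℕ → ℝ), (∀ n ∈ N, 0 ≤ s n ∧ s n ≤ η) →
        (∀ x : ℝ, ∃ n ∈ N, ∀ z : ℝ, |z - (x + s n)| ≤ e → z ∈ G) →
        ∀ x : ℝ, ∃ n ∈ N, ∀ z : ℝ, |z - (x + s n)| ≤ e → z ∈ Hp := by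
  refine ⟨{z | Int.fract z ∈ G ∨ Int.fract z ≤ 2 * η ∨ 1 - 2 * η ≤ Int.fract z}, ?_, ?_, ?_⟩
  · intro z
    simp only [mem_setOf_eq, Int.fract_add_one]
  · have hsub : {z | Int.fract z ∈ G ∨ Int.fract z ≤ 2 * η ∨ 1 - 2 * η ≤ Int.fract z} ∩ Ico 0 1 ⊆
        (G ∩ Ico 0 (0 + 1)) ∪ (Icc 0 (2 * η) ∪ Icc (1 - 2 * η) 1) := by
      rintro z ⟨hz, hz0, hz1⟩
      have hf : Int.fract z = z := Int.fract_eq_self.2 ⟨hz0, hz1⟩
      simp only [mem_setOf_eq, hf] at hz
      rcases hz with h | h | h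
      · exact Or.inl ⟨h, hz0, by simpa using hz1⟩
      · exact Or.inr (Or.inl ⟨hz0, h⟩)
      · exact Or.inr (Or.inr ⟨h, hz1.le⟩)
    have h1 := ud_length hρ hσ hG 0 (l := 1) zero_le_one
    have h2 : volume (Icc (0:ℝ) (2 * η)) = ENNReal.ofReal (2 * η) := by
      rw [Real.volume_Icc, sub_zero]
    have h3 : volume (Icc (1 - 2 * η) (1:ℝ)) = ENNReal.ofReal (2 * η) := by
      rw [Real.volume_Icc]
      congr 1
      ring
    calc volume ({z | Int.fract z ∈ G ∨ Int.fract z ≤ 2 * η ∨ 1 - 2 * η ≤ Int.fract z} ∩ Ico 0 1)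
        ≤ volume ((G ∩ Ico 0 (0 + 1)) ∪ (Icc 0 (2 * η) ∪ Icc (1 - 2 * η) 1)) := measure_mono hsub
      _ ≤ volume (G ∩ Ico 0 (0 + 1)) + volume (Icc 0 (2 * η) ∪ Icc (1 - 2 * η) 1) :=
          measure_union_le _ _
      _ ≤ volume (G ∩ Ico 0 (0 + 1)) + (volume (Icc 0 (2 * η)) + volume (Icc (1 - 2 * η) 1)) := by
          gcongr
          exact measure_union_le _ _
      _ ≤ ENNReal.ofReal (σ * (1 + ρ)) + (ENNReal.ofReal (2 * η) + ENNReal.ofReal (2 * η)) := by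
          rw [h2, h3]
          gcongr
      _ = ENNReal.ofReal (σ * (1 + ρ) + 4 * η) := by
          rw [← ENNReal.ofReal_add (by linarith) (by linarith),
            ← ENNReal.ofReal_add (by positivity) (by linarith)]
          congr 1
          ring
  · intro N s hs hk x
    have hx0 := Int.fract_nonneg x
    have hx1 := Int.fract_lt_one x
    have hxj : x = Int.fract x + (⌊x⌋ : ℝ) := (Int.fract_add_floor x).symm
    by_cases hc : e ≤ Int.fract x ∧ Int.fract x < 1 - η - e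
    · obtain ⟨n, hn, hz⟩ := hk (Int.fract x)
      refine ⟨n, hn, fun z hzx => ?_⟩
      obtain ⟨hs0, hs1⟩ := hs n hn
      have h1 : |z - (⌊x⌋ : ℝ) - (Int.fract x + s n)| ≤ e := by
        have : z - (⌊x⌋ : ℝ) - (Int.fract x + s n) = z - (x + s n) := by
          rw [show x + s n = Int.fract x + (⌊x⌋ : ℝ) + s n by rw [← hxj]]
          ring
        rw [this]
        exact hzx
      have h2 := abs_le.1 h1
      have h3 : Int.fract z = z - (⌊x⌋ : ℝ) :=
        pz_fract (j := ⌊x⌋) (by linarith [h2.1]) (by linarith [h2.2]) (by ring)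
      left
      rw [h3]
      exact hz _ h1
    · obtain ⟨n, hn, _⟩ := hk x
      refine ⟨n, hn, fun z hzx => ?_⟩
      obtain ⟨hs0, hs1⟩ := hs n hn
      have h1 : |z - (⌊x⌋ : ℝ) - (Int.fract x + s n)| ≤ e := by
        have : z - (⌊x⌋ : ℝ) - (Int.fract x + s n) = z - (x + s n) := by
          rw [show x + s n = Int.fract x + (⌊x⌋ : ℝ) + s n by rw [← hxj]]
          ring
        rw [this]
        exact hzx
      have h2 := abs_le.1 h1
      right
      by_cases hc1 : e ≤ Int.fract x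
      · have hc2 : 1 - η - e ≤ Int.fract x := by
          by_contra h
          exact hc ⟨hc1, lt_of_not_ge h⟩
        rcases lt_or_ge (z - (⌊x⌋ : ℝ)) 1 with h4 | h4
        · have h3 : Int.fract z = z - (⌊x⌋ : ℝ) :=
            pz_fract (j := ⌊x⌋) (by linarith [h2.1]) h4 (by ring)
          right
          rw [h3]
          linarith [h2.1]
        · have h3 : Int.fract z = z - (⌊x⌋ : ℝ) - 1 :=
            pz_fract (j := ⌊x⌋ + 1) (by linarith) (by linarith [h2.2]) (by push_cast; ring)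
          left
          rw [h3]
          linarith [h2.2]
      · have hc2 : Int.fract x < e := lt_of_not_ge hc1
        rcases lt_or_ge (z - (⌊x⌋ : ℝ)) 0 with h4 | h4
        · have h3 : Int.fract z = z - (⌊x⌋ : ℝ) + 1 :=
            pz_fract (j := ⌊x⌋ - 1) (by linarith [h2.1]) (by linarith) (by push_cast; ring)
          right
          rw [h3]
          linarith [h2.1]
        · have h3 : Int.fract z = z - (⌊x⌋ : ℝ) :=
            pz_fract (j := ⌊x⌋) h4 (by linarith [h2.2]) (by ring)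
          left
          rw [h3]
          linarith [h2.2]

/-- The union of the cells of level `m` contained in a set. -/
theorem cellize {Hp : Set ℝ} (hp : Per Hp) {m : ℕ} {e : ℝ} (he : 2 * (1 / 2 : ℝ) ^ m ≤ e) :
    ∃ H : Set ℝ, Per H ∧ Cell m H ∧ H ⊆ Hp ∧
      ∀ y : ℝ, (∀ z : ℝ, |z - y| ≤ e → z ∈ Hp) → ∀ z : ℝ, |z - y| ≤ (1 / 2 : ℝ) ^ m → z ∈ H := by
  have hfl : ∀ z : ℝ, ⌊(2 : ℝ) ^ m * (z + 1)⌋ = ⌊(2 : ℝ) ^ m * z⌋ + 2 ^ m := by
    intro z
    have h1 : (2 : ℝ) ^ m * (z + 1) = (2 : ℝ) ^ m * z + ((2 ^ m : ℤ) : ℝ) := by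
      push_cast
      ring
    rw [h1, Int.floor_add_intCast]
  refine ⟨{z | ∀ y : ℝ, ⌊(2 : ℝ) ^ m * y⌋ = ⌊(2 : ℝ) ^ m * z⌋ → y ∈ Hp}, ?_, ?_, ?_, ?_⟩
  · intro z
    simp only [mem_setOf_eq]
    constructor
    · intro h y hy
      rw [← hp y]
      apply h
      rw [hfl, hfl, hy]
    · intro h y hy
      have h2 : y - 1 ∈ Hp := by
        apply h
        have h3 := hfl (y - 1)
        rw [sub_add_cancel, hy, hfl] at h3
        linarith
      rw [← hp (y - 1), sub_add_cancel] at h2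
      exact h2
  · intro y z hyz
    simp only [mem_setOf_eq]
    rw [hyz]
  · intro z hz
    exact hz z rfl
  · intro y hy z hz y' hy'
    apply hy
    have h1 := Int.abs_sub_lt_one_of_floor_eq_floor hy'
    have h2 : (0:ℝ) < (2:ℝ) ^ m := by positivity
    have h3 : (2:ℝ) ^ m * (1 / 2 : ℝ) ^ m = 1 := by
      rw [← mul_pow]
      norm_num
    have h4 : |y' - z| < (1 / 2 : ℝ) ^ m := by
      have h5 : (2:ℝ) ^ m * y' - (2:ℝ) ^ m * z = (2:ℝ) ^ m * (y' - z) := by ring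
      rw [h5, abs_mul, abs_of_pos h2, ← h3] at h1
      exact lt_of_mul_lt_mul_left h1 h2.le
    have h6 : |y' - y| ≤ |y' - z| + |z - y| := abs_sub_le _ _ _
    linarith

end Pool.Agent.Helper69.GE
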