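import Pool.Agent.Helper69.GE.Defs

/-!
# GE-11 Points: a lacunary sequence of points in a window

From `Block S C (p - J) J`, `J ≤ p`, `J0 + N (C + 4) ≤ J`: for `j < N` let
`a_j = p - J0 - (j + 1) (C + 4)` (natural numbers, `a_j ≥ p - J`, `a_j + C ≤ p`), and choose
`ν j ∈ S` with `a_j ≤ ν j < a_j + C`. Then `ν (j + 1) + 5 ≤ ν j ≤ ν (j + 1) + 2 C + 3`, as
`a_j = a_(j+1) + C + 4`. For an admissible `r` and `w_j = 2 ^ p ⟨r, u (ν j)⟩`: with `ρ` from `Adm`,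
`w_j ≥ ρ 2 ^ (p - ν j) ≥ R⁻¹ 2 ^ J0 ≥ 1`, and
`w_(j+1) ≥ ρ 2 ^ (p - ν (j+1)) ≥ 2 ^ 5 ρ 2 ^ (p - ν j) ≥ 4 w_j`, and
`w_(j+1) ≤ 8 ρ 2 ^ (p - ν (j+1)) ≤ 8 * 2 ^ (2 C + 3) ρ 2 ^ (p - ν j) ≤ 2 ^ (2 C + 6) w_j`.
-/

set_option autoImplicit false

open MeasureTheory Set

namespace Pool.Agent.Helper69.GE

theorem block_sub {S : Set ℕ} {C k B k' B' : ℕ} (h : Block S C k B) (h1 : k ≤ k')
    (h2 : k' + B' ≤ k + B) : Block S C k' B' := by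
  intro n hn hn'
  exact h n (h1.trans hn) (hn'.trans h2)

private theorem half_pow {m n : ℕ} (h : m ≤ n) : (1 / 2 : ℝ) ^ m = 2 ^ (n - m) * (1 / 2 : ℝ) ^ n := by
  obtain ⟨d, rfl⟩ := Nat.exists_eq_add_of_le h
  rw [Nat.add_sub_cancel_left, pow_add, mul_left_comm, ← mul_pow]
  norm_num

theorem points {D : ℕ} {S : Set ℕ} {u : ℕ → Fin D → ℝ} {C p J J0 N : ℕ} {R : ℝ} (hR : 1 ≤ R)
    (hJp : J ≤ p) (hb : Block S C (p - J) J) (hJ : J0 + N * (C + 4) ≤ J) (hJ0 : R ≤ 2 ^ J0) :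
    ∃ ν : ℕ → ℕ, (∀ j < N, ν j ∈ S ∧ p - J ≤ ν j ∧ ν j < p) ∧
      ∀ r, Adm S u R r →
        (0 < N → 1 ≤ 2 ^ p * lin r (u (ν 0))) ∧
        ∀ j, j + 1 < N →
          2 * (2 ^ p * lin r (u (ν j))) ≤ 2 ^ p * lin r (u (ν (j + 1))) ∧
          2 ^ p * lin r (u (ν (j + 1))) ≤ 2 ^ (2 * C + 6) * (2 ^ p * lin r (u (ν j))) := by
  have hmono : ∀ j < N, J0 + (j + 1) * (C + 4) ≤ J := by
    intro j hj
    have : (j + 1) * (C + 4) ≤ N * (C + 4) := Nat.mul_le_mul_right _ hj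
    omega
  have hex : ∀ j, j < N → ∃ n, n ∈ S ∧ p - J0 - (j + 1) * (C + 4) ≤ n ∧
      n < p - J0 - (j + 1) * (C + 4) + C := by
    intro j hj
    have h1 := hmono j hj
    have h2 : C ≤ (j + 1) * (C + 4) := by nlinarith
    obtain ⟨n, hn, hn1, hn2⟩ := hb (p - J0 - (j + 1) * (C + 4)) (by omega) (by omega)
    exact ⟨n, hn, hn1, hn2⟩
  choose! ν hν using hex
  have h0 : ∀ j < N, ν j ∈ S ∧ p - J ≤ ν j ∧ ν j + J0 < p := by
    intro j hj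
    obtain ⟨a1, a2, a3⟩ := hν j hj
    have h1 := hmono j hj
    have h2 : C ≤ (j + 1) * (C + 4) := by nlinarith
    exact ⟨a1, by omega, by omega⟩
  refine ⟨ν, fun j hj => ⟨(h0 j hj).1, (h0 j hj).2.1, by have := (h0 j hj).2.2; omega⟩, ?_⟩
  intro r hr
  obtain ⟨ρ, hρ1, hρ2, hρ⟩ := hr.cmp
  have hRpos : 0 < R := by linarith
  have hρ0 : 0 < ρ := lt_of_lt_of_le (inv_pos.2 hRpos) hρ1
  refine ⟨?_, ?_⟩
  · intro hN
    obtain ⟨a1, a2, a3⟩ := h0 0 hN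
    have h3 := (hρ (ν 0) a1).1
    have h4 : (2 : ℝ) ^ p * (1 / 2 : ℝ) ^ (ν 0) = 2 ^ (p - ν 0) := by
      rw [half_pow (show ν 0 ≤ p by omega), mul_left_comm, ← mul_pow]
      norm_num
    have h5 : (2 : ℝ) ^ J0 ≤ 2 ^ (p - ν 0) :=
      pow_le_pow_right₀ (by norm_num) (by omega)
    have h6 : 1 ≤ ρ * 2 ^ (p - ν 0) := by
      calc (1 : ℝ) = R⁻¹ * R := (inv_mul_cancel₀ hRpos.ne').symm
        _ ≤ ρ * 2 ^ (p - ν 0) := mul_le_mul hρ1 (hJ0.trans h5) hRpos.le hρ0.le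
    calc (1 : ℝ) ≤ ρ * 2 ^ (p - ν 0) := h6
      _ = 2 ^ p * (ρ * (1 / 2 : ℝ) ^ (ν 0)) := by rw [← h4]; ring
      _ ≤ _ := mul_le_mul_of_nonneg_left h3 (by positivity)
  · intro j hj
    obtain ⟨a1, a2, a3⟩ := hν j (by omega)
    obtain ⟨b1, b2, b3⟩ := hν (j + 1) hj
    have h1 := hmono (j + 1) hj
    have h2 : (j + 1 + 1) * (C + 4) = (j + 1) * (C + 4) + (C + 4) := by ring
    rw [h2] at b2 b3 h1
    have e1 : ν (j + 1) + 5 ≤ ν j := by omega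
    have e2 : ν j ≤ ν (j + 1) + (2 * C + 3) := by omega
    have c1 := hρ (ν j) a1
    have c2 := hρ (ν (j + 1)) b1
    have d1 : (2 : ℝ) ^ 5 * (1 / 2 : ℝ) ^ (ν j) ≤ (1 / 2 : ℝ) ^ (ν (j + 1)) := by
      rw [half_pow (show ν (j + 1) ≤ ν j by omega)]
      exact mul_le_mul_of_nonneg_right (pow_le_pow_right₀ (by norm_num) (by omega)) (by positivity)
    have d2 : (1 / 2 : ℝ) ^ (ν (j + 1)) ≤ 2 ^ (2 * C + 3) * (1 / 2 : ℝ) ^ (ν j) := by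
      rw [half_pow (show ν (j + 1) ≤ ν j by omega)]
      exact mul_le_mul_of_nonneg_right (pow_le_pow_right₀ (by norm_num) (by omega)) (by positivity)
    have hx : 0 < (1 / 2 : ℝ) ^ (ν j) := by positivity
    have hp : 0 < (2 : ℝ) ^ p := by positivity
    constructor
    · have : 2 * lin r (u (ν j)) ≤ lin r (u (ν (j + 1))) := by
        calc 2 * lin r (u (ν j)) ≤ 2 * (8 * ρ * (1 / 2 : ℝ) ^ (ν j)) := by linarith [c1.2]
          _ ≤ ρ * ((2 : ℝ) ^ 5 * (1 / 2 : ℝ) ^ (ν j)) := by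
            have : 0 < ρ * (1 / 2 : ℝ) ^ (ν j) := by positivity
            nlinarith
          _ ≤ ρ * (1 / 2 : ℝ) ^ (ν (j + 1)) := mul_le_mul_of_nonneg_left d1 hρ0.le
          _ ≤ _ := c2.1
      nlinarith
    · have : lin r (u (ν (j + 1))) ≤ 2 ^ (2 * C + 6) * lin r (u (ν j)) := by
        calc lin r (u (ν (j + 1))) ≤ 8 * ρ * (1 / 2 : ℝ) ^ (ν (j + 1)) := c2.2
          _ ≤ 8 * ρ * (2 ^ (2 * C + 3) * (1 / 2 : ℝ) ^ (ν j)) :=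
            mul_le_mul_of_nonneg_left d2 (by positivity)
          _ = 2 ^ (2 * C + 6) * (ρ * (1 / 2 : ℝ) ^ (ν j)) := by
            rw [show 2 * C + 6 = (2 * C + 3) + 3 by ring, pow_add (2 : ℝ) (2 * C + 3) 3]
            ring
          _ ≤ _ := mul_le_mul_of_nonneg_left c1.1 (by positivity)
      calc (2 : ℝ) ^ p * lin r (u (ν (j + 1))) ≤ 2 ^ p * (2 ^ (2 * C + 6) * lin r (u (ν j))) :=
            mul_le_mul_of_nonneg_left this hp.le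
        _ = _ := by ring

end Pool.Agent.Helper69.GE
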