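import Pool.Agent.Helper69.GE.Defs

/-!
# GE-19 Rich: partition regularity (Brown's lemma for families)

`Rich S`: for some gap `C` there are blocks of every length `B` in some member `S i` of the family.

`rich_union`. Let `C` be the gap for `S i ∪ S' i` and suppose that `S'` is not rich: for every gap
there is a length `B₁` without blocks. Given `B`, use this for the gap `B' = max B 1`, and take
`i`, `k` with `Block (S i ∪ S' i) C k B₁`. As `¬ Block (S' i) B' k B₁` there is `n` with `k ≤ n`,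
`n + B' ≤ k + B₁` and no element of `S' i` in `[n, n + B')`. Then `Block (S i) C n B`.
`rich_finite` by induction on the number of colours.
-/

set_option autoImplicit false

namespace Pool.Agent.Helper69.GE

/-- Blocks of every length with a fixed gap. -/
def Rich {ι : Type*} (S : ι → Set ℕ) : Prop := ∃ C : ℕ, ∀ B : ℕ, ∃ i k, Block (S i) C k B

theorem rich_mono {ι : Type*} {S S' : ι → Set ℕ} (h : ∀ i, S i ⊆ S' i) (hS : Rich S) :
    Rich S' := by
  obtain ⟨C, hC⟩ := hS
  refine ⟨C, fun B => ?_⟩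
  obtain ⟨i, k, hb⟩ := hC B
  refine ⟨i, k, fun n h1 h2 => ?_⟩
  obtain ⟨n', h3, h4⟩ := hb n h1 h2
  exact ⟨n', h i h3, h4⟩

theorem rich_union {ι : Type*} {S S' : ι → Set ℕ} (h : Rich (fun i => S i ∪ S' i)) :
    Rich S ∨ Rich S' := by
  by_cases hS' : Rich S'
  · exact Or.inr hS'
  left
  obtain ⟨C, hC⟩ := h
  refine ⟨C, fun B => ?_⟩
  have h1 : ∃ B₁ : ℕ, ∀ i k, ¬ Block (S' i) (max B 1) k B₁ := by
    by_contra hcon
    push Not at hcon
    exact hS' ⟨max B 1, hcon⟩
  obtain ⟨B₁, h1⟩ := h1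
  obtain ⟨i, k, hb⟩ := hC B₁
  have h2 := h1 i k
  unfold Block at h2
  push Not at h2
  obtain ⟨n, h3, h4, h5⟩ := h2
  refine ⟨i, n, fun m h6 h7 => ?_⟩
  have h8 : B ≤ max B 1 := le_max_left _ _
  obtain ⟨n', h9, h10, h11⟩ := hb m (h3.trans h6) (by omega)
  rcases h9 with h9 | h9
  · exact ⟨n', h9, h10, h11⟩
  · have h12 := h5 n' h9 (h6.trans h10)
    omega

theorem rich_finite {ι α : Type*} [Finite α] (T : α → ι → Set ℕ)
    (h : Rich (fun i => {n | ∃ a, n ∈ T a i})) : ∃ a, Rich (T a) := by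
  classical
  have := Fintype.ofFinite α
  have key : ∀ s : Finset α, Rich (fun i => {n | ∃ a ∈ s, n ∈ T a i}) → ∃ a, Rich (T a) := by
    intro s
    induction s using Finset.induction_on with
    | empty =>
      intro h
      exfalso
      obtain ⟨C, hC⟩ := h
      obtain ⟨i, k, hb⟩ := hC C
      obtain ⟨n', h1, -⟩ := hb k le_rfl le_rfl
      obtain ⟨a, h2, -⟩ := h1
      exact absurd h2 (Finset.notMem_empty a)
    | insert a s _ ih =>
      intro h
      have h1 : Rich (fun i => T a i ∪ {n | ∃ a ∈ s, n ∈ T a i}) := by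
        refine rich_mono (fun i n hn => ?_) h
        obtain ⟨b, h2, h3⟩ := hn
        rcases Finset.mem_insert.1 h2 with h4 | h4
        · subst h4
          exact Or.inl h3
        · exact Or.inr ⟨b, h4, h3⟩
      rcases rich_union (S := T a) (S' := fun i => {n | ∃ a ∈ s, n ∈ T a i}) h1 with h2 | h2
      · exact ⟨a, h2⟩
      · exact ih h2
  refine key Finset.univ (rich_mono (fun i n hn => ?_) h)
  obtain ⟨a, ha⟩ := hn
  exact ⟨a, Finset.mem_univ a, ha⟩

end Pool.Agent.Helper69.GE
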