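import Pool.Agent.Helper69.GE.EscapeSup
import Pool.Agent.Helper69.GE.Net
import Pool.Agent.Helper69.GE.Choose
import Pool.Agent.Helper69.GE.Points

/-!
# GE-12 Select: for every admissible parameter one of the batches kills all starting points

`N = Nb (2 ^ f + G)`, `e` as in `escape`, `C' = 2 C + 6`. Let `θ = e / ((2 D + 2) 2 ^ J)` and let `T`
be the net of `net` for `θ`; `card T ≤ (2 R (2 D + 2) 2 ^ J / e + 2) ^ D ≤ (8 R (D + 1) 2 ^ J / e) ^ D`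
(as `2 ≤ 4 R (D + 1) 2 ^ J / e`). For `b < M` let `ν_b` be the points of the window
`[p b - J, p b)` (`points`). For `r ∈ T` let
`Bad b r = {κ | ∃ X, ∀ j < N, X + κ (2 ^ (p b) ⟨r, u (ν_b j)⟩) ∉ Inr (Pat f q (H b)) (2 e)}`,
of measure at most `(1 / e + 1) (1 - δ / 6000) ^ Nb` in `[1, 2)` (`escape_sup`). By
`choose_dilations` there are `κ b` such that every `r' ∈ T` has a `b < M` with `κ b ∉ Bad b r'`.
For an admissible `r` take `r' ∈ T` with `|rⱼ - r'ⱼ| ≤ θ` and this `b`: for every `X` there is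
`j < N` with `X + κ b 2 ^ (p b) ⟨r', uₙ⟩ ∈ Inr (Pat f q (H b)) (2 e)`, `n = ν_b j`, and
`κ b 2 ^ (p b) |⟨r - r', uₙ⟩| ≤ 2 * 2 ^ (p b) D θ 2 ^ (-n) ≤ 2 D θ 2 ^ J ≤ e` as `n ≥ p b - J`
(`lin_sub_le`), so all `z` with `|z - (X + κ b 2 ^ (p b) ⟨r, uₙ⟩)| ≤ e` are in `Pat f q (H b)`
(`inr_near`).
-/

set_option autoImplicit false

open MeasureTheory Set

namespace Pool.Agent.Helper69.GE

theorem select {D C f q m G Nb M J J0 : ℕ} {δ e R : ℝ} (hδ : 0 < δ) (hδ1 : δ ≤ 1)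
    (hR : 1 ≤ R) (hq : (2 * C + 6) * 2 ^ f + f + 1 ≤ q) (he0 : 0 < e)
    (he : 4 * e ≤ (1 / 2 : ℝ) ^ (q + m + 3)) (hG : 1 ≤ 2 ^ G * e) (hNb : 0 < Nb)
    (hJ0 : R ≤ 2 ^ J0) (hJ : J0 + Nb * (2 ^ f + G) * (C + 4) ≤ J)
    (hnum : (8 * R * (D + 1) * 2 ^ J / e) ^ D * ((1 / e + 1) * (1 - δ / 6000) ^ Nb) ^ M < 1)
    (S : Set ℕ) (u : ℕ → Fin D → ℝ) (hu : ∀ n ∈ S, ∀ j, |u n j| ≤ (1 / 2 : ℝ) ^ n)
    (p : ℕ → ℕ) (hp : ∀ b < M, J ≤ p b) (hb : ∀ b < M, Block S C (p b - J) J)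
    (H : ℕ → Set ℝ) (hH : ∀ b < M, Per (H b) ∧ Cell m (H b) ∧
      volume (H b ∩ Ico 0 1) ≤ ENNReal.ofReal δ ∧
      ENNReal.ofReal (δ / 4) ≤ volume (H b ∩ Ico 0 1)) :
    ∃ κ : ℕ → ℝ, (∀ b, 1 ≤ κ b ∧ κ b ≤ 2) ∧ ∀ r, Adm S u R r → ∃ b < M, ∀ X : ℝ, ∃ n ∈ S,
      p b - J ≤ n ∧ n < p b ∧
        ∀ z : ℝ, |z - (X + κ b * (2 ^ p b * lin r (u n)))| ≤ e → z ∈ Pat f q (H b) := by
  set N : ℕ := Nb * (2 ^ f + G) with hN
  have hN0 : 0 < N := Nat.mul_pos hNb (by positivity)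
  have hpts : ∀ b, ∃ ν : ℕ → ℕ, b < M → (∀ j < N, ν j ∈ S ∧ p b - J ≤ ν j ∧ ν j < p b) ∧
      ∀ r, Adm S u R r →
        (0 < N → 1 ≤ 2 ^ p b * lin r (u (ν 0))) ∧
        ∀ j, j + 1 < N →
          2 * (2 ^ p b * lin r (u (ν j))) ≤ 2 ^ p b * lin r (u (ν (j + 1))) ∧
          2 ^ p b * lin r (u (ν (j + 1))) ≤
            2 ^ (2 * C + 6) * (2 ^ p b * lin r (u (ν j))) := by
    intro b
    by_cases h : b < M
    · obtain ⟨ν, hν⟩ := points (D := D) (S := S) (u := u) (C := C) (p := p b) (J := J)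
        (J0 := J0) (N := N) (R := R) hR (hp b h) (hb b h) hJ hJ0
      exact ⟨ν, fun _ => hν⟩
    · exact ⟨fun _ => 0, fun h' => absurd h' h⟩
  choose ν hν using hpts
  have hD : (0 : ℝ) < 2 * D + 2 := by positivity
  have h2J : (0 : ℝ) < 2 ^ J := by positivity
  set θ : ℝ := e / ((2 * D + 2) * 2 ^ J) with hθ
  have hθ0 : 0 < θ := by positivity
  have he1 : e ≤ 1 / 4 := by
    have h1 : (1 / 2 : ℝ) ^ (q + m + 3) ≤ 1 := pow_le_one₀ (by norm_num) (by norm_num)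
    linarith
  obtain ⟨T, hT1, hT2, hT3⟩ := net S u hR hθ0
  set P : ℝ := (1 / e + 1) * (1 - δ / 6000) ^ Nb with hP
  have hP0 : 0 ≤ P := by
    have h1 : 0 ≤ 1 - δ / 6000 := by linarith
    positivity
  have hcard : (T.card : ℝ) ≤ (8 * R * (D + 1) * 2 ^ J / e) ^ D := by
    refine hT1.trans (pow_le_pow_left₀ (by positivity) ?_ D)
    have h1 : 2 * R / θ = 4 * R * (D + 1) * 2 ^ J / e := by
      rw [hθ]
      field_simp
      ring
    have h2 : (2 : ℝ) ≤ 4 * R * (D + 1) * 2 ^ J / e := by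
      rw [le_div_iff₀ he0]
      have h3 : (1 : ℝ) ≤ 2 ^ J := one_le_pow₀ (by norm_num)
      have h4 : (0 : ℝ) ≤ D := by positivity
      have h5 : (1 : ℝ) ≤ R * (D + 1) * 2 ^ J := by
        have h6 : (1 : ℝ) ≤ R * (D + 1) := by nlinarith
        nlinarith
      nlinarith
    have h3 : 8 * R * (D + 1) * 2 ^ J / e = 4 * R * (D + 1) * 2 ^ J / e +
        4 * R * (D + 1) * 2 ^ J / e := by ring
    rw [h1, h3]
    linarith
  let Bad : ℕ → (Fin D → ℝ) → Set ℝ := fun b r => {κ : ℝ | ∃ X : ℝ, ∀ j, j < N →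
      X + κ * (2 ^ p b * lin r (u (ν b j))) ∉ Inr (Pat f q (H b)) (2 * e)}
  have hBad : ∀ b < M, ∀ r ∈ T, volume (Bad b r ∩ Ico 1 2) ≤ ENNReal.ofReal P := by
    intro b hbM r hr
    obtain ⟨h1, h2, h3, h4⟩ := hH b hbM
    obtain ⟨h5, h6⟩ := (hν b hbM).2 r (hT2 r hr)
    exact escape_sup (w := fun j => 2 ^ p b * lin r (u (ν b j))) hδ hδ1 h1 h2 h3 h4 hq he0 he hG
      (h5 hN0) h6
  obtain ⟨κ, hκ1, hκ2⟩ := choose_dilations T M Bad hP0 hBad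
    ((mul_le_mul_of_nonneg_right hcard (pow_nonneg hP0 M)).trans_lt hnum)
  refine ⟨κ, hκ1, ?_⟩
  intro r hr
  obtain ⟨r', hr'T, hr'⟩ := hT3 r hr
  obtain ⟨b, hbM, hb2⟩ := hκ2 r' hr'T
  refine ⟨b, hbM, ?_⟩
  intro X
  have h1 : ∃ j, j < N ∧
      X + κ b * (2 ^ p b * lin r' (u (ν b j))) ∈ Inr (Pat f q (H b)) (2 * e) := by
    by_contra hcon
    apply hb2
    refine ⟨X, fun j hj hmem => hcon ⟨j, hj, hmem⟩⟩
  obtain ⟨j, hj, hmem⟩ := h1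
  obtain ⟨h2, h3, h4⟩ := (hν b hbM).1 j hj
  refine ⟨ν b j, h2, h3, h4, ?_⟩
  intro z hz
  apply hmem
  have h5 : |lin r (u (ν b j)) - lin r' (u (ν b j))| ≤ D * θ * (1 / 2 : ℝ) ^ (ν b j) :=
    lin_sub_le hr' (hu _ h2)
  have h6 : (2 : ℝ) ^ p b * (1 / 2 : ℝ) ^ (ν b j) ≤ 2 ^ J := by
    rw [one_div, inv_pow, ← div_eq_mul_inv, div_le_iff₀ (by positivity), ← pow_add]
    exact pow_le_pow_right₀ (by norm_num) (by have := hp b hbM; omega)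
  have h7 : |(X + κ b * (2 ^ p b * lin r (u (ν b j)))) -
      (X + κ b * (2 ^ p b * lin r' (u (ν b j))))| ≤ e := by
    have h8 : (X + κ b * (2 ^ p b * lin r (u (ν b j)))) -
        (X + κ b * (2 ^ p b * lin r' (u (ν b j)))) =
        κ b * 2 ^ p b * (lin r (u (ν b j)) - lin r' (u (ν b j))) := by ring
    obtain ⟨hk1, hk2⟩ := hκ1 b
    rw [h8, abs_mul, abs_of_nonneg (by positivity : (0 : ℝ) ≤ κ b * 2 ^ p b)]
    calc κ b * 2 ^ p b * |lin r (u (ν b j)) - lin r' (u (ν b j))|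
        ≤ 2 * 2 ^ p b * (D * θ * (1 / 2 : ℝ) ^ (ν b j)) := by
          refine mul_le_mul ?_ h5 (abs_nonneg _) (by positivity)
          exact mul_le_mul_of_nonneg_right hk2 (by positivity)
      _ = 2 * D * θ * (2 ^ p b * (1 / 2 : ℝ) ^ (ν b j)) := by ring
      _ ≤ 2 * D * θ * 2 ^ J := mul_le_mul_of_nonneg_left h6 (by positivity)
      _ = e * (2 * D / (2 * D + 2)) := by
          rw [hθ]
          field_simp
      _ ≤ e * 1 := by
          refine mul_le_mul_of_nonneg_left ?_ he0.le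
          rw [div_le_one hD]
          linarith
      _ = e := mul_one e
  calc |z - (X + κ b * (2 ^ p b * lin r' (u (ν b j))))|
      = |(z - (X + κ b * (2 ^ p b * lin r (u (ν b j))))) +
          ((X + κ b * (2 ^ p b * lin r (u (ν b j)))) -
            (X + κ b * (2 ^ p b * lin r' (u (ν b j)))))| := by congr 1; ring
    _ ≤ e + e := (abs_add_le _ _).trans (add_le_add hz h7)
    _ = 2 * e := by ring

end Pool.Agent.Helper69.GE
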