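import Pool.Agent.Helper69.GE.Select
import Pool.Agent.Helper69.GE.Build
import Pool.Agent.Helper69.GE.Periodize
import Pool.Agent.Helper69.GE.Fill
import Pool.Agent.Helper69.GE.Params

/-!
# GE-18 Step: the recursion

`P D C δ` implies `P D C (δ (1 - exp (-2 lam / δ) / 2))`.

Given `R`, let `m₁, B₁` be from `P D C δ` for `2 R`, `m ≥ m₁` with `2 ^ (-m) ≤ δ / 4` (`Cell` and the
margin are monotone), the numbers `f, q, G, Nb, M, J0, J, Z` from `params`, `φ = 2 ^ (-f)`,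
`e = 2 ^ (-(q+m+5))`, `Δ = J + q + B₁ + Z + 3`, `B = (M + 1) Δ`, `p b = k + (b + 1) Δ`,
`e' = 2 ^ (-(M Δ + q + m + 6))`, `m₂ = M Δ + q + m + 7`.
For `b < M` the killer `H b` for the block `[p b + q, p b + q + B₁)` with parameters `2 R`, filled by
`fill`. `select` gives `κ b ∈ [1, 2]`. Let `ω b = κ b 2 ^ ((b + 1) Δ)`,
`A b = {z | fract (ω b z) < φ}`, `Inn b = {z | 2 ^ q (ω b z) ∈ H b}`, `s n = 2 ^ k ⟨r, uₙ⟩`,
`σ b = 8 R 2 ^ (-((b + 1) Δ + q))`, `η b = 8 R 2 ^ J 2 ^ (-(b + 2) Δ)`.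
For `n ∈ S`, `s n ≤ 8 R 2 ^ k 2 ^ (-n)`.
Then `gs_kills`, `gs_density` (`ε = (16 R + 8) / 2 ^ q`), `periodize` (`η₀ = 8 R 2 ^ (-Z)`), `cellize`.
-/

set_option autoImplicit false

open MeasureTheory Set

namespace Pool.Agent.Helper69.GE

private lemma adm_le {D : ℕ} {S : Set ℕ} {u : ℕ → Fin D → ℝ} {R : ℝ} {r : Fin D → ℝ}
    (hR : 1 ≤ R) (h : Adm S u R r) {n : ℕ} (hn : n ∈ S) :
    0 ≤ lin r (u n) ∧ lin r (u n) ≤ 8 * R * (1 / 2 : ℝ) ^ n := by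
  obtain ⟨ρ, h1, h2, h3⟩ := h.cmp
  have hρ : 0 < ρ := lt_of_lt_of_le (inv_pos.mpr (by linarith)) h1
  obtain ⟨h4, h5⟩ := h3 n hn
  have hp : (0 : ℝ) < (1 / 2) ^ n := by positivity
  constructor
  · exact le_trans (by positivity) h4
  · refine h5.trans ?_
    have : 8 * ρ ≤ 8 * R := by linarith
    exact mul_le_mul_of_nonneg_right this hp.le

private lemma two_half (k : ℕ) : (2 : ℝ) ^ k * (1 / 2) ^ k = 1 := by
  rw [← mul_pow]; norm_num

private lemma half_le {a b : ℕ} (h : a ≤ b) : (1 / 2 : ℝ) ^ b ≤ (1 / 2) ^ a :=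
  pow_le_pow_of_le_one (by norm_num) (by norm_num) h

private lemma s_le {R l : ℝ} {k a n : ℕ} (hR : 1 ≤ R) (h : k + a ≤ n)
    (hl : l ≤ 8 * R * (1 / 2 : ℝ) ^ n) : 2 ^ k * l ≤ 8 * R * (1 / 2 : ℝ) ^ a := by
  have h0 : (0 : ℝ) < 2 ^ k := by positivity
  have h1 : (1 / 2 : ℝ) ^ n ≤ (1 / 2) ^ (k + a) := half_le h
  calc 2 ^ k * l ≤ 2 ^ k * (8 * R * (1 / 2 : ℝ) ^ (k + a)) := by
        refine mul_le_mul_of_nonneg_left (hl.trans ?_) h0.le
        exact mul_le_mul_of_nonneg_left h1 (by linarith)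
    _ = (2 ^ k * (1 / 2 : ℝ) ^ k) * (8 * R * (1 / 2 : ℝ) ^ a) := by rw [pow_add]; ring
    _ = 8 * R * (1 / 2 : ℝ) ^ a := by rw [two_half]; ring

/-- `2 ^ a * 2 ^ (-b)` for `a + c ≤ b`. -/
private lemma two_half_le {a b c : ℕ} (h : a + c ≤ b) :
    (2 : ℝ) ^ a * (1 / 2) ^ b ≤ (1 / 2) ^ c := by
  have h1 : (1 / 2 : ℝ) ^ b ≤ (1 / 2) ^ (a + c) := half_le h
  have h0 : (0 : ℝ) < 2 ^ a := by positivity
  calc (2 : ℝ) ^ a * (1 / 2) ^ b ≤ 2 ^ a * (1 / 2) ^ (a + c) :=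
        mul_le_mul_of_nonneg_left h1 h0.le
    _ = (2 ^ a * (1 / 2 : ℝ) ^ a) * (1 / 2 : ℝ) ^ c := by rw [pow_add]; ring
    _ = (1 / 2 : ℝ) ^ c := by rw [two_half]; ring

private lemma half_eq (a : ℕ) : (1 / 2 : ℝ) ^ a = 1 / 2 ^ a := by
  rw [div_pow, one_pow]

theorem step (D C : ℕ) : ∃ lam : ℝ, 0 < lam ∧ ∀ δ : ℝ, 0 < δ → δ ≤ 1 → P D C δ →
    P D C (δ * (1 - Real.exp (-2 * lam / δ) / 2)) := by
  classical
  obtain ⟨lam, hlam, hpar⟩ := params D C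
  refine ⟨lam, hlam, fun δ hδ hδ1 hP R hR => ?_⟩
  obtain ⟨m1, B1, hkill⟩ := hP (2 * R) (by linarith)
  obtain ⟨m0, hm0⟩ : ∃ m0 : ℕ, (1 / 2 : ℝ) ^ m0 < δ / 4 :=
    exists_pow_lt_of_lt_one (by positivity) (by norm_num)
  obtain ⟨m, hmdef⟩ : ∃ m, m = max m1 m0 := ⟨_, rfl⟩
  have hm1 : m1 ≤ m := hmdef ▸ le_max_left _ _
  have hm4 : (1 / 2 : ℝ) ^ m ≤ δ / 4 := (half_le (hmdef ▸ le_max_right m1 m0)).trans hm0.le
  obtain ⟨f, q, G, Nb, M, J0, J, Z, hf, hq, hG, hNb, hM, hJ0, hJ, hnum, hεx, hexp, hZ⟩ :=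
    hpar δ hδ hδ1 R hR m
  obtain ⟨Δ, hΔ⟩ : ∃ Δ, Δ = J + q + B1 + Z + 3 := ⟨_, rfl⟩
  obtain ⟨x, hx⟩ : ∃ x, x = Real.exp (-2 * lam / δ) := ⟨_, rfl⟩
  rw [← hx] at hεx hexp hZ ⊢
  have hx0 : 0 < x := hx ▸ Real.exp_pos _
  have hx1 : x ≤ 1 := by
    rw [hx, Real.exp_le_one_iff]
    have : 0 ≤ 2 * lam / δ := by positivity
    have e1 : -2 * lam / δ = -(2 * lam / δ) := by ring
    linarith
  refine ⟨M * Δ + q + m + 7, (M + 1) * Δ, fun S u hu k hblk => ?_⟩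
  -- positions
  have hpM : ∀ b, b < M → (b + 1) * Δ ≤ M * Δ := fun b hb => Nat.mul_le_mul_right _ (by omega)
  have hB : (M + 1) * Δ = M * Δ + Δ := by ring
  have hb1 : ∀ b : ℕ, Δ ≤ (b + 1) * Δ := fun b => Nat.le_mul_of_pos_left _ (by omega)
  have hb2 : ∀ b : ℕ, (b + 2) * Δ = (b + 1) * Δ + Δ := fun b => by ring
  -- inner killers
  have hH : ∀ b : ℕ, ∃ H : Set ℝ, b < M → Per H ∧ Cell m H ∧
      volume (H ∩ Ico 0 1) ≤ ENNReal.ofReal δ ∧ ENNReal.ofReal (δ / 4) ≤ volume (H ∩ Ico 0 1) ∧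
      Kills S u (2 * R) (k + (b + 1) * Δ + q) B1 H ((1 / 2 : ℝ) ^ m) := by
    intro b
    by_cases hb : b < M
    · have hbl : Block S C (k + (b + 1) * Δ + q) B1 := by
        refine block_sub hblk (by omega) ?_
        have := hpM b hb
        omega
      obtain ⟨H, h1, h2, h3, h4⟩ := hkill S u hu _ hbl
      obtain ⟨H', g1, g2, g3, g4, g5⟩ := fill hδ hδ1 h1 (cell_mono hm1 h2) h3 hm4
      refine ⟨H', fun _ => ⟨g2, g3, g4, g5, fun y r hr => ?_⟩⟩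
      obtain ⟨n, hn, h5, h6, h7⟩ := h4 y r hr
      exact ⟨n, hn, h5, h6, fun z hz => g1 (h7 z (hz.trans (half_le hm1)))⟩
    · exact ⟨∅, fun h => absurd h hb⟩
  choose H hH using hH
  -- the dilations
  have he1 : (0 : ℝ) < (1 / 2) ^ (q + m + 5) := by positivity
  have hsel := select (D := D) (C := C) (f := f) (q := q) (m := m) (G := G) (Nb := Nb) (M := M)
    (J := J) (J0 := J0) (δ := δ) (e := (1 / 2 : ℝ) ^ (q + m + 5)) (R := R) hδ hδ1 hR hq he1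
    (by
      have : (1 / 2 : ℝ) ^ (q + m + 5) = (1 / 2) ^ (q + m + 3) * (1 / 4) := by
        rw [show q + m + 5 = (q + m + 3) + 2 by omega, pow_add]; norm_num
      rw [this]; apply le_of_eq; ring)
    (by
      have h1 : (2 : ℝ) ^ (q + m + 5) ≤ 2 ^ G := pow_le_pow_right₀ (by norm_num) hG
      calc (1 : ℝ) = 2 ^ (q + m + 5) * (1 / 2) ^ (q + m + 5) := (two_half _).symm
        _ ≤ 2 ^ G * (1 / 2) ^ (q + m + 5) := mul_le_mul_of_nonneg_right h1 he1.le)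
    hNb hJ0 hJ hnum S u hu (fun b => k + (b + 1) * Δ)
    (fun b _ => by have := hb1 b; omega)
    (fun b hb => by
      refine block_sub hblk ?_ ?_
      · have := hb1 b; omega
      · have := hb1 b; have := hpM b hb; omega)
    H (fun b hb => ⟨(hH b hb).1, (hH b hb).2.1, (hH b hb).2.2.1, (hH b hb).2.2.2.1⟩)
  obtain ⟨κ, hκ, hsel⟩ := hsel
  -- notation
  obtain ⟨ω, hω⟩ : ∃ ω : ℕ → ℝ, ∀ b, ω b = κ b * 2 ^ ((b + 1) * Δ) := ⟨_, fun _ => rfl⟩
  obtain ⟨σ, hσ⟩ : ∃ σ : ℕ → ℝ, ∀ b, σ b = 8 * R * (1 / 2 : ℝ) ^ ((b + 1) * Δ + q) :=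
    ⟨_, fun _ => rfl⟩
  obtain ⟨η, hη⟩ : ∃ η : ℕ → ℝ, ∀ b, η b = 8 * R * (1 / 2 : ℝ) ^ ((b + 2) * Δ - J) :=
    ⟨_, fun _ => rfl⟩
  obtain ⟨e, he⟩ : ∃ e : ℝ, e = (1 / 2 : ℝ) ^ (M * Δ + q + m + 6) := ⟨_, rfl⟩
  obtain ⟨φ, hφ⟩ : ∃ φ : ℝ, φ = (1 / 2 : ℝ) ^ f := ⟨_, rfl⟩
  obtain ⟨ε, hε⟩ : ∃ ε : ℝ, ε = (16 * R + 8) / 2 ^ q := ⟨_, rfl⟩
  rw [← hε] at hεx
  rw [← hφ] at hexp
  have he0 : 0 < e := by rw [he]; positivity
  have hφ0 : 0 ≤ φ := by rw [hφ]; positivity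
  have hφ1 : φ ≤ 1 := by rw [hφ]; exact pow_le_one₀ (by norm_num) (by norm_num)
  have hε0 : 0 ≤ ε := by rw [hε]; positivity
  have hω0 : ∀ b, 0 < ω b := fun b => by
    rw [hω]; have := (hκ b).1; positivity
  have hωle : ∀ b, ω b ≤ 2 * 2 ^ ((b + 1) * Δ) := fun b => by
    rw [hω]; exact mul_le_mul_of_nonneg_right (hκ b).2 (by positivity)
  have hωge : ∀ b, 2 ^ ((b + 1) * Δ) ≤ ω b := fun b => by
    rw [hω]; exact le_mul_of_one_le_left (by positivity) (hκ b).1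
  have hσ0 : ∀ b, 0 ≤ σ b := fun b => by rw [hσ]; positivity
  have hη0 : ∀ b, 0 ≤ η b := fun b => by rw [hη]; positivity
  have hMΔ : Δ ≤ M * Δ := Nat.le_mul_of_pos_left _ hM
  have hq2 : (1 / 2 : ℝ) ^ q = 1 / 2 ^ q := half_eq q
  have hqp : (0 : ℝ) < 1 / 2 ^ q := by positivity
  -- `ω b * e` is small
  have hωe : ∀ b, b < M → ω b * e ≤ (1 / 2 : ℝ) ^ (q + m + 5) := fun b hb => by
    calc ω b * e ≤ (2 * 2 ^ ((b + 1) * Δ)) * e := mul_le_mul_of_nonneg_right (hωle b) he0.le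
      _ = 2 ^ ((b + 1) * Δ + 1) * (1 / 2 : ℝ) ^ (M * Δ + q + m + 6) := by rw [he, pow_succ]; ring
      _ ≤ (1 / 2 : ℝ) ^ (q + m + 5) := two_half_le (by have := hpM b hb; omega)
  -- density
  obtain ⟨Inn, hInn⟩ : ∃ Inn : ℕ → Set ℝ, ∀ b, Inn b = {z : ℝ | 2 ^ q * (ω b * z) ∈ H b} :=
    ⟨_, fun _ => rfl⟩
  have hG0 := gs_density (ω := ω) hω0 (φ := φ) hφ0 hφ1 (Inn := Inn) (σ := σ) (η := η) hσ0 hη0
    (e := e) he0.le (M := M) (q := q) (δ := δ) (ε := ε) hδ.le hε0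
    (fun b hb => by
      have h1 := per_scale_ud (hH b hb).1 (cell_measurable (hH b hb).2.1) hδ.le (hH b hb).2.2.1
        (ω := 2 ^ q * ω b) (by have := hω0 b; positivity) 0
      have h2 : {z : ℝ | 2 ^ q * ω b * z + 0 ∈ H b} = Inn b := by
        rw [hInn]; ext z; simp only [add_zero, Set.mem_ofPred_eq, mul_assoc]
      rw [h2] at h1
      exact h1)
    (fun b hb => by
      have h1 : ω b * σ b ≤ 16 * R * (1 / 2 ^ q) := by
        calc ω b * σ b ≤ (2 * 2 ^ ((b + 1) * Δ)) * σ b :=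
              mul_le_mul_of_nonneg_right (hωle b) (hσ0 b)
          _ = 16 * R * (2 ^ ((b + 1) * Δ) * (1 / 2 : ℝ) ^ ((b + 1) * Δ + q)) := by rw [hσ]; ring
          _ ≤ 16 * R * (1 / 2) ^ q :=
              mul_le_mul_of_nonneg_left (two_half_le (by omega)) (by positivity)
          _ = 16 * R * (1 / 2 ^ q) := by rw [hq2]
      have h2 : ω b * e ≤ 1 / 2 ^ q := by
        rw [← hq2]; exact (hωe b hb).trans (half_le (by omega))
      have h3 : ε = (16 * R + 8) * (1 / 2 ^ q) := by rw [hε]; ring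
      have h4 : (3 : ℝ) / 2 ^ q = 3 * (1 / 2 ^ q) := by ring
      rw [h3, h4, mul_add]
      nlinarith)
    (fun b hb => by
      have h1 : ω b * η b ≤ 16 * R * (1 / 2 ^ q) := by
        calc ω b * η b ≤ (2 * 2 ^ ((b + 1) * Δ)) * η b :=
              mul_le_mul_of_nonneg_right (hωle b) (hη0 b)
          _ = 16 * R * (2 ^ ((b + 1) * Δ) * (1 / 2 : ℝ) ^ ((b + 2) * Δ - J)) := by rw [hη]; ring
          _ ≤ 16 * R * (1 / 2) ^ q :=
              mul_le_mul_of_nonneg_left (two_half_le (by have := hb2 b; omega)) (by positivity)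
          _ = 16 * R * (1 / 2 ^ q) := by rw [hq2]
      have h2 : ω b * e ≤ 1 / 2 ^ q := by
        rw [← hq2]; exact (hωe b hb).trans (half_le (by omega))
      have h3 : ε = (16 * R + 8) * (1 / 2 ^ q) := by rw [hε]; ring
      have h5 : ω b / ω (b + 1) ≤ 1 / 2 ^ q := by
        have h6 : (0 : ℝ) < 2 ^ ((b + 2) * Δ) := by positivity
        calc ω b / ω (b + 1) ≤ (2 * 2 ^ ((b + 1) * Δ)) / 2 ^ ((b + 2) * Δ) := by
              apply div_le_div₀ (by positivity) (hωle b) h6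
              have := hωge (b + 1)
              exact this
          _ = 2 ^ ((b + 1) * Δ + 1) * (1 / 2 : ℝ) ^ ((b + 2) * Δ) := by
              rw [half_eq, pow_succ]; ring
          _ ≤ (1 / 2) ^ q := two_half_le (by have := hb2 b; omega)
          _ = 1 / 2 ^ q := hq2
      rw [h3, mul_add]
      nlinarith)
    (by linarith)
  obtain ⟨Gz, hGz⟩ : ∃ Gz, Gz = Gs (fun b => {z : ℝ | Int.fract (ω b * z) < φ}) Inn σ η e M 0 :=
    ⟨_, rfl⟩
  rw [← hGz] at hG0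
  -- periodize and cellize
  obtain ⟨η', hη'⟩ : ∃ η' : ℝ, η' = 8 * R * (1 / 2 : ℝ) ^ Z := ⟨_, rfl⟩
  have hσ1 : (1 - φ) ^ M ≤ 1 := pow_le_one₀ (by linarith) (by linarith)
  have hZ2 : (32 * R + 1) / 2 ^ Z = 4 * η' + (1 / 2 : ℝ) ^ Z := by rw [hη', half_eq]; ring
  rw [hZ2] at hZ
  have hZp : (0 : ℝ) < (1 / 2) ^ Z := by positivity
  have hη'p : 0 < η' := by rw [hη']; positivity
  have hδx : δ * x ≤ 1 := by nlinarith
  obtain ⟨Hp, hp1, hp2, hp3⟩ := periodize (G := Gz) (ρ := 1 / ω 0)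
    (σ := δ * (1 - (1 - φ) ^ M + 3 * M * ε)) (η := η') (e := e)
    (by have := hω0 0; positivity)
    (by
      have : 0 ≤ 3 * M * ε := by positivity
      apply mul_nonneg hδ.le
      linarith)
    hG0 he0
    (by
      have h1 : e ≤ (1 / 2 : ℝ) ^ Z := by rw [he]; exact half_le (by omega)
      rw [hη']
      nlinarith)
    (by linarith)
  obtain ⟨H', hc1, hc2, hc3, hc4⟩ := cellize hp1 (m := M * Δ + q + m + 7) (e := e) (by
    rw [he, show M * Δ + q + m + 7 = (M * Δ + q + m + 6) + 1 by omega, pow_succ]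
    apply le_of_eq; ring)
  refine ⟨H', hc1, hc2, ?_, ?_⟩
  · -- volume
    refine (measure_mono (inter_subset_inter_left _ hc3)).trans (hp2.trans ?_)
    apply ENNReal.ofReal_le_ofReal
    have h1 : 1 / ω 0 ≤ (1 / 2 : ℝ) ^ Z := by
      rw [half_eq]
      apply one_div_le_one_div_of_le (by positivity)
      refine le_trans ?_ (hωge 0)
      exact pow_le_pow_right₀ (by norm_num) (by omega)
    have h0 : 0 ≤ 1 / ω 0 := by have := hω0 0; positivity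
    have h2 : δ * (1 - (1 - φ) ^ M + 3 * M * ε) ≤ δ * (1 - 3 / 4 * x) := by
      apply mul_le_mul_of_nonneg_left _ hδ.le
      linarith
    have h3 : δ * (1 - 3 / 4 * x) ≤ 1 := by nlinarith
    have h5 : δ * (1 - (1 - φ) ^ M + 3 * M * ε) * (1 / ω 0) ≤ 1 / ω 0 := by
      apply mul_le_of_le_one_left h0
      linarith
    nlinarith
  · -- killing
    intro y r hr
    obtain ⟨s, hs⟩ : ∃ s : ℕ → ℝ, ∀ n, s n = 2 ^ k * lin r (u n) := ⟨_, fun _ => rfl⟩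
    have hs0 : ∀ n ∈ S, 0 ≤ s n := fun n hn => by
      rw [hs]; exact mul_nonneg (by positivity) (adm_le hR hr hn).1
    have hsle : ∀ n ∈ S, ∀ a : ℕ, k + a ≤ n → s n ≤ 8 * R * (1 / 2 : ℝ) ^ a := fun n hn a ha => by
      rw [hs]; exact s_le hR ha (adm_le hR hr hn).2
    obtain ⟨W, hW⟩ : ∃ W : ℕ → Set ℕ, ∀ b n, n ∈ W b ↔
        n ∈ S ∧ k + (b + 1) * Δ - J ≤ n ∧ n < k + (b + 1) * Δ :=
      ⟨fun b => {n | n ∈ S ∧ k + (b + 1) * Δ - J ≤ n ∧ n < k + (b + 1) * Δ}, fun _ _ => Iff.rfl⟩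
    obtain ⟨I, hI⟩ : ∃ I : ℕ → Set ℕ, ∀ b n, n ∈ I b ↔
        n ∈ S ∧ k + (b + 1) * Δ + q ≤ n ∧ n < k + (b + 1) * Δ + q + B1 :=
      ⟨fun b => {n | n ∈ S ∧ k + (b + 1) * Δ + q ≤ n ∧ n < k + (b + 1) * Δ + q + B1},
        fun _ _ => Iff.rfl⟩
    have hk : ∀ x : ℝ, ∃ b < M, ∃ n, (n ∈ W b ∨ n ∈ I b) ∧
        ∀ z : ℝ, |z - (x + s n)| ≤ e → z ∈ Gz := by
      intro x'
      rw [hGz]
      refine gs_kills he0.le hσ0 (s := s) (W := W) (I := I) ?_ ?_ ?_ ?_ x'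
      · intro b hb n hn
        rw [hI] at hn
        refine ⟨hs0 n hn.1, ?_⟩
        rw [hσ]
        exact hsle n hn.1 _ (by omega)
      · intro b b' hbb hb' n hn
        have h1 : (b + 2) * Δ ≤ (b' + 1) * Δ := Nat.mul_le_mul_right _ (by omega)
        rcases hn with hn | hn
        · rw [hW] at hn
          refine ⟨hs0 n hn.1, ?_⟩
          rw [hη]
          exact hsle n hn.1 _ (by have := hb2 b; have := hb1 b; omega)
        · rw [hI] at hn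
          refine ⟨hs0 n hn.1, ?_⟩
          rw [hη]
          exact hsle n hn.1 _ (by have := hb2 b; have := hb1 b; omega)
      · intro b hb x''
        obtain ⟨n, hn, h5, h6, h7⟩ := (hH b hb).2.2.2.2 (2 ^ q * (ω b * x''))
          (fun j => κ b * r j) (adm_smul hR hr (hκ b).1 (hκ b).2)
        refine ⟨n, (hI b n).2 ⟨hn, h5, h6⟩, fun z hz => ?_⟩
        rw [hInn]
        refine h7 _ ?_
        have e1 : 2 ^ q * (ω b * z) - (2 ^ q * (ω b * x'') +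
            2 ^ (k + (b + 1) * Δ + q) * lin (fun j => κ b * r j) (u n)) =
            2 ^ q * ω b * (z - (x'' + s n)) := by
          rw [lin_smul, hs, hω]
          rw [show k + (b + 1) * Δ + q = k + ((b + 1) * Δ + q) by omega, pow_add, pow_add]
          ring
        rw [e1, abs_mul, abs_of_pos (by have := hω0 b; positivity)]
        calc 2 ^ q * ω b * |z - (x'' + s n)| ≤ 2 ^ q * ω b * e :=
              mul_le_mul_of_nonneg_left hz (by have := hω0 b; positivity)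
          _ = 2 ^ q * (ω b * e) := by ring
          _ ≤ 2 ^ q * (1 / 2 : ℝ) ^ (q + m + 5) :=
              mul_le_mul_of_nonneg_left (hωe b hb) (by positivity)
          _ ≤ (1 / 2 : ℝ) ^ m := two_half_le (by omega)
      · obtain ⟨b, hb, h5⟩ := hsel r hr
        refine ⟨b, hb, fun x'' => ?_⟩
        obtain ⟨n, hn, h6, h7, h8⟩ := h5 (ω b * x'')
        refine ⟨n, (hW b n).2 ⟨hn, h6, h7⟩, fun z hz => ?_⟩
        have h9 : ω b * z ∈ Pat f q (H b) := by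
          refine h8 _ ?_
          have e1 : ω b * z - (ω b * x'' + κ b * (2 ^ (k + (b + 1) * Δ) * lin r (u n))) =
              ω b * (z - (x'' + s n)) := by
            rw [hs, hω, pow_add]
            ring
          rw [e1, abs_mul, abs_of_pos (hω0 b)]
          exact (mul_le_mul_of_nonneg_left hz (hω0 b).le).trans (hωe b hb)
        rw [hInn]
        refine ⟨?_, h9.2⟩
        have := h9.1
        rw [← hφ] at this
        exact this
    have hN := hp3 {n | n ∈ S ∧ k ≤ n ∧ n < k + (M + 1) * Δ ∧ k + (Δ - J) ≤ n} s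
      (fun n hn => ⟨hs0 n hn.1, by
        rw [hη']
        refine (hsle n hn.1 (Δ - J) hn.2.2.2).trans ?_
        exact mul_le_mul_of_nonneg_left (half_le (by omega)) (by linarith)⟩)
      (fun x' => by
        obtain ⟨b, hb, n, hn, h5⟩ := hk x'
        refine ⟨n, ?_, h5⟩
        have h6 := hb1 b
        have h7 := hpM b hb
        rcases hn with hn | hn
        · rw [hW] at hn
          exact ⟨hn.1, by omega, by omega, by omega⟩
        · rw [hI] at hn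
          exact ⟨hn.1, by omega, by omega, by omega⟩)
    obtain ⟨n, hn, h5⟩ := hN y
    refine ⟨n, hn.1, hn.2.1, hn.2.2.1, ?_⟩
    have h6 := hc4 (y + s n) h5
    rw [hs] at h6
    exact h6

end Pool.Agent.Helper69.GE
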